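import Mathlib

/-!
The maximal inequality for nonnegative stationary sequences (counting form and probability form).
-/

namespace Pool.Agent.W_7d29a1_h30g

open MeasureTheory Finset

/-- The index `j` starts a block of at most `K` terms with average at least `c`. -/
def Heavy (c : ℝ) (K : ℕ) (x : ℕ → ℝ) (j : ℕ) : Prop :=
  ∃ k, 1 ≤ k ∧ k ≤ K ∧ c * k ≤ ∑ i ∈ range k, x (j + i)

open Classical in
/-- Counting form: at most `sum / c` indices start a heavy block. -/
theorem heavy_count {c : ℝ} (hc : 0 ≤ c) (K : ℕ) : ∀ (N : ℕ) (x : ℕ → ℝ), (∀ i, 0 ≤ x i) →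
    c * ((range N).filter (Heavy c K x)).card ≤ ∑ i ∈ range (N + K), x i := by
  intro N
  induction N using Nat.strong_induction_on with
  | _ N ih =>
    intro x hx
    rcases Nat.eq_zero_or_pos N with rfl | hN
    · simp only [range_zero, filter_empty, card_empty, Nat.cast_zero, mul_zero]
      exact sum_nonneg fun i _ => hx i
    by_cases h0 : Heavy c K x 0
    · obtain ⟨k, hk1, hkK, hk⟩ := h0
      simp only [zero_add] at hk
      rcases lt_or_ge N k with hNk | hkN
      · have h1 : (((range N).filter (Heavy c K x)).card : ℝ) ≤ k := by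
          have h2 := card_filter_le (range N) (Heavy c K x)
          rw [card_range] at h2
          exact_mod_cast h2.trans hNk.le
        calc c * ((range N).filter (Heavy c K x)).card ≤ c * k := mul_le_mul_of_nonneg_left h1 hc
          _ ≤ ∑ i ∈ range k, x i := hk
          _ ≤ ∑ i ∈ range (N + K), x i :=
              sum_le_sum_of_subset_of_nonneg (range_subset_range.2 (by omega)) fun i _ _ => hx i
      · have h1 := ih (N - k) (by omega) (fun i => x (k + i)) fun i => hx _
        have h2 : ((range N).filter (Heavy c K x)).card ≤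
            k + ((range (N - k)).filter (Heavy c K fun i => x (k + i))).card := by
          have h3 : (range N).filter (Heavy c K x) ⊆
              range k ∪ ((range (N - k)).filter (Heavy c K fun i => x (k + i))).image (fun i => k + i) := by
            intro j hj
            rw [mem_filter, mem_range] at hj
            rw [mem_union, mem_range, mem_image]
            rcases lt_or_ge j k with h | h
            · exact Or.inl h
            · refine Or.inr ⟨j - k, ?_, by omega⟩
              rw [mem_filter, mem_range]
              refine ⟨by omega, ?_⟩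
              obtain ⟨m, hm1, hmK, hm⟩ := hj.2
              refine ⟨m, hm1, hmK, hm.trans (le_of_eq (sum_congr rfl fun i _ => ?_))⟩
              congr 1
              omega
          calc _ ≤ _ := card_le_card h3
            _ ≤ _ := card_union_le _ _
            _ ≤ _ := by
              rw [card_range]
              exact Nat.add_le_add_left card_image_le _
        have h4 : ∑ i ∈ range (N + K), x i = ∑ i ∈ range k, x i + ∑ i ∈ range (N - k + K), x (k + i) := by
          rw [← sum_range_add]
          congr 2
          omega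
        have h5 : (((range N).filter (Heavy c K x)).card : ℝ) ≤
            k + ((range (N - k)).filter (Heavy c K fun i => x (k + i))).card := by exact_mod_cast h2
        rw [h4]
        calc c * ((range N).filter (Heavy c K x)).card
            ≤ c * (k + ((range (N - k)).filter (Heavy c K fun i => x (k + i))).card) :=
              mul_le_mul_of_nonneg_left h5 hc
          _ = c * k + c * ((range (N - k)).filter (Heavy c K fun i => x (k + i))).card := by ring
          _ ≤ _ := add_le_add hk h1
    · have h1 := ih (N - 1) (by omega) (fun i => x (1 + i)) fun i => hx _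
      have h2 : ((range N).filter (Heavy c K x)).card ≤
          ((range (N - 1)).filter (Heavy c K fun i => x (1 + i))).card := by
        have h3 : (range N).filter (Heavy c K x) ⊆
            ((range (N - 1)).filter (Heavy c K fun i => x (1 + i))).image (fun i => 1 + i) := by
          intro j hj
          rw [mem_filter, mem_range] at hj
          rw [mem_image]
          rcases Nat.eq_zero_or_pos j with rfl | h
          · exact absurd hj.2 h0
          · refine ⟨j - 1, ?_, by omega⟩
            rw [mem_filter, mem_range]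
            refine ⟨by omega, ?_⟩
            obtain ⟨m, hm1, hmK, hm⟩ := hj.2
            refine ⟨m, hm1, hmK, hm.trans (le_of_eq (sum_congr rfl fun i _ => ?_))⟩
            congr 1
            omega
        exact (card_le_card h3).trans card_image_le
      have h4 : ∑ i ∈ range (N + K), x i = x 0 + ∑ i ∈ range (N - 1 + K), x (1 + i) := by
        have h5 : N + K = 1 + (N - 1 + K) := by omega
        rw [h5, sum_range_add]
        simp
      rw [h4]
      calc c * ((range N).filter (Heavy c K x)).card
          ≤ c * ((range (N - 1)).filter (Heavy c K fun i => x (1 + i))).card :=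
            mul_le_mul_of_nonneg_left (by exact_mod_cast h2) hc
        _ ≤ ∑ i ∈ range (N - 1 + K), x (1 + i) := h1
        _ ≤ _ := le_add_of_nonneg_left (hx 0)

/-- MAXIMAL INEQUALITY: for a measure preserving map `T` and an integrable `ξ ≥ 0` the probability that
some average of at most `K` terms `ξ (T^i ω)` is at least `c` is at most `E ξ / c`. -/
theorem maximal_le {Ω : Type*} [MeasurableSpace Ω] {P : Measure Ω} [IsProbabilityMeasure P]
    {T : Ω → Ω} (hT : MeasurePreserving T P P) {ξ : Ω → ℝ} (hm : Measurable ξ) (hξ : Integrable ξ P)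
    (h0 : ∀ ω, 0 ≤ ξ ω) {c : ℝ} (hc : 0 < c) (K : ℕ) :
    P.real {ω | ∃ k, 1 ≤ k ∧ k ≤ K ∧ c * k ≤ ∑ i ∈ range k, ξ (T^[i] ω)} ≤ (∫ ω, ξ ω ∂P) / c := by
  classical
  obtain ⟨B, hB⟩ : ∃ B : Set Ω, B = {ω | ∃ k, 1 ≤ k ∧ k ≤ K ∧ c * k ≤ ∑ i ∈ range k, ξ (T^[i] ω)} :=
    ⟨_, rfl⟩
  rw [← hB]
  have hTi : ∀ i, MeasurePreserving (T^[i]) P P := fun i => hT.iterate i
  have hBm : MeasurableSet B := by
    rw [hB]
    have h1 : {ω | ∃ k, 1 ≤ k ∧ k ≤ K ∧ c * k ≤ ∑ i ∈ range k, ξ (T^[i] ω)} =
        ⋃ k ∈ Set.Icc 1 K, {ω | c * (k : ℝ) ≤ ∑ i ∈ range k, ξ (T^[i] ω)} := by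
      ext ω
      simp only [Set.mem_ofPred_eq, Set.mem_iUnion, Set.mem_Icc, exists_prop, and_assoc]
    rw [h1]
    refine MeasurableSet.biUnion (Set.to_countable _) fun k _ => ?_
    exact measurableSet_le measurable_const
      (Finset.measurable_sum _ fun i _ => hm.comp (hTi i).measurable)
  have hbad : ∀ (j : ℕ) (ω : Ω), Heavy c K (fun i => ξ (T^[i] ω)) j ↔ T^[j] ω ∈ B := by
    intro j ω
    rw [hB]
    simp only [Heavy, Set.mem_ofPred_eq]
    refine exists_congr fun k => and_congr_right fun _ => and_congr_right fun _ => ?_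
    rw [sum_congr rfl fun i _ => show ξ (T^[j + i] ω) = ξ (T^[i] (T^[j] ω)) by
      rw [← Function.iterate_add_apply, add_comm]]
  have hint : ∀ j, ∫ ω, (T^[j] ⁻¹' B).indicator (fun _ => (1 : ℝ)) ω ∂P = P.real B := by
    intro j
    rw [integral_indicator_const _ ((hTi j).measurable hBm)]
    simp only [smul_eq_mul, mul_one]
    exact (hTi j).measureReal_preimage hBm.nullMeasurableSet
  have hintξ : ∀ i, ∫ ω, ξ (T^[i] ω) ∂P = ∫ ω, ξ ω ∂P := by
    intro i
    have h := (hTi i).map_eq
    conv_rhs => rw [← h]
    rw [integral_map (hTi i).measurable.aemeasurable hm.aestronglyMeasurable]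
  have hξi : ∀ i, Integrable (fun ω => ξ (T^[i] ω)) P := fun i => (hTi i).integrable_comp_of_integrable hξ
  have key : ∀ N : ℕ, c * (N * P.real B) ≤ (N + K) * ∫ ω, ξ ω ∂P := by
    intro N
    have h1 : ∀ ω, c * ∑ j ∈ range N, (T^[j] ⁻¹' B).indicator (fun _ => (1 : ℝ)) ω ≤
        ∑ i ∈ range (N + K), ξ (T^[i] ω) := by
      intro ω
      have h2 := heavy_count hc.le K N (fun i => ξ (T^[i] ω)) fun i => h0 _
      refine le_trans (le_of_eq ?_) h2
      congr 1
      rw [card_filter]
      push_cast
      refine sum_congr rfl fun j _ => ?_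
      by_cases h : T^[j] ω ∈ B
      · rw [Set.indicator_of_mem (by exact h), if_pos ((hbad j ω).2 h)]
      · rw [Set.indicator_of_notMem (by exact h), if_neg fun h' => h ((hbad j ω).1 h')]
    have h3 := integral_mono (μ := P)
      (f := fun ω => c * ∑ j ∈ range N, (T^[j] ⁻¹' B).indicator (fun _ => (1 : ℝ)) ω)
      (g := fun ω => ∑ i ∈ range (N + K), ξ (T^[i] ω)) ?_ ?_ h1
    · rw [integral_const_mul, integral_finsetSum, integral_finsetSum] at h3
      · rw [sum_congr rfl fun j _ => hint j, sum_congr rfl fun i _ => hintξ i, sum_const, sum_const,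
          card_range, card_range, nsmul_eq_mul, nsmul_eq_mul] at h3
        push_cast at h3
        exact h3
      · exact fun i _ => hξi i
      · exact fun j _ => (integrable_const (1 : ℝ)).indicator ((hTi j).measurable hBm)
    · exact (integrable_finsetSum _ fun j _ =>
        (integrable_const (1 : ℝ)).indicator ((hTi j).measurable hBm)).const_mul c
    · exact integrable_finsetSum _ fun i _ => hξi i
  have hI : 0 ≤ ∫ ω, ξ ω ∂P := integral_nonneg h0
  rw [le_div_iff₀ hc]
  by_contra hcon
  rw [not_le] at hcon
  obtain ⟨N, hN⟩ := exists_nat_gt ((K * ∫ ω, ξ ω ∂P) / (P.real B * c - ∫ ω, ξ ω ∂P))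
  have hd : 0 < P.real B * c - ∫ ω, ξ ω ∂P := by linarith
  rw [div_lt_iff₀ hd] at hN
  have := key N
  nlinarith

end Pool.Agent.W_7d29a1_h30g
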