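import Pool.Agent.W_7d29a1_h95g.Exit
import Pool.Agent.W_7d29a1_F.CoreC
import Pool.Agent.W_7d29a1_F.LuckA

/-!
ROW 620 (the frame at every scale with the unit of direction `0`), file 0: definitions and their first properties.

Parallel lines `t ↦ g t + c`, where `g` has steps `0` or `1` (`Stp g`; vertical lines: `g t = t / 2`, integer division).
`ε = 1`: passages to the right, `ε = -1`: to the left.
-/

namespace Pool.Agent.W_7d29a1_h30g

open MeasureTheory ProbabilityTheory Pool.Agent.W_7d29a1_F Pool.Agent.W_7d29a1_h95g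

noncomputable section

/-- The steps of `g` are `0` or `1`. -/
structure Stp (g : ℤ → ℤ) : Prop where
  lo : ∀ t, g t ≤ g (t + 1)
  hi : ∀ t, g (t + 1) ≤ g t + 1

/-- The line with the offset `c`. -/
def ln (g : ℤ → ℤ) (c t : ℤ) : ℤ := g t + c

/-- The vertical direction. -/
theorem stp_half : Stp fun t : ℤ => t / 2 :=
  ⟨fun t => by show t / 2 ≤ (t + 1) / 2; omega, fun t => by show (t + 1) / 2 ≤ t / 2 + 1; omega⟩

theorem Stp.mono {g : ℤ → ℤ} (hg : Stp g) (t : ℤ) (m : ℕ) : g t ≤ g (t + m) ∧ g (t + m) ≤ g t + m := by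
  induction m with
  | zero => simp
  | succ m ih =>
    have h1 := hg.lo (t + m)
    have h2 := hg.hi (t + m)
    have e : t + ((m + 1 : ℕ) : ℤ) = t + m + 1 := by push_cast; ring
    rw [e]
    push_cast
    omega

/-- The sites strictly before the line with the offset `c`, seen in the direction `ε`. -/
def Sd (g : ℤ → ℤ) (ε c : ℤ) : Set Pt := {p | ε * (p.2 - ln g c p.1) < 0}

theorem exitAt_Sd {g : ℤ → ℤ} (hg : Stp g) {ε : ℤ} (hε : ε = 1 ∨ ε = -1) (c : ℤ) : ExitAt (Sd g ε c) (ln g c) := by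
  rcases hε with rfl | rfl
  · have h : Sd g 1 c = {p : Pt | p.2 < ln g c p.1} := by
      ext p
      simp only [Sd, Set.mem_ofPred_eq]
      omega
    rw [h]
    refine exitAt_left fun t => ?_
    have := hg.lo t
    unfold ln
    omega
  · have h : Sd g (-1) c = {p : Pt | ln g c p.1 < p.2} := by
      ext p
      simp only [Sd, Set.mem_ofPred_eq]
      omega
    rw [h]
    refine exitAt_right fun t => ?_
    have := hg.hi t
    unfold ln
    omega

/-- The normalised weight of the paths from the line `c` at the time `t` whose first visit of the line `c + ε w` is at the time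
`t + k + 1`. -/
def Om (μ : Measure ℝ) (s : ℝ) (g : ℤ → ℤ) (ε : ℤ) (w : ℕ) (c : ℤ) (η : Env) (t : ℤ) (k : ℕ) : ℝ :=
  WR μ s (Set.univ ∩ (Sd g ε (c + ε * w) ∪ {bk (ln g (c + ε * w)) (t, ln g c t) k})) η (t, ln g c t) (k + 1)
    (dk (ln g (c + ε * w)) (t, ln g c t) k)

/-- The largest total first passage weight from the line `c` to the line `c + ε w`, times in `[0, n]`. -/
def Us (μ : Measure ℝ) (s : ℝ) (g : ℤ → ℤ) (ε : ℤ) (w n : ℕ) (c : ℤ) (η : Env) : ℝ :=
  (Finset.range (n + 1)).sup' ⟨0, by simp⟩ fun t => ∑ k ∈ Finset.range (n - t), Om μ s g ε w c η (t : ℤ) k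

/-- The starts and lengths `(t, m)` with `t + m ≤ n`. -/
def Pr (n : ℕ) : Finset (ℕ × ℕ) :=
  (Finset.range (n + 1) ×ˢ Finset.range (n + 1)).filter fun q => q.1 + q.2 ≤ n

theorem mem_Pr {n : ℕ} {q : ℕ × ℕ} : q ∈ Pr n ↔ q.1 + q.2 ≤ n := by
  unfold Pr
  rw [Finset.mem_filter, Finset.mem_product, Finset.mem_range, Finset.mem_range]
  constructor
  · exact fun h => h.2
  · exact fun h => ⟨⟨by omega, by omega⟩, h⟩

theorem Pr_nonempty (n : ℕ) : (Pr n).Nonempty := ⟨(0, 0), mem_Pr.2 (Nat.zero_le _)⟩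

/-- The line luck: the largest luck of the starts on the line `c`, times in `[0, n]`. -/
def Lk (μ : Measure ℝ) (s : ℝ) (g : ℤ → ℤ) (n : ℕ) (c : ℤ) (η : Env) : ℝ :=
  (Pr n).sup' (Pr_nonempty n) fun q => V μ s η ((q.1 : ℤ), ln g c q.1) q.2

/-- The cost of one passage above the threshold `exp (-C)`, plus the luck of the next line. -/
def xi (μ : Measure ℝ) (s : ℝ) (g : ℤ → ℤ) (ε : ℤ) (w n : ℕ) (C : ℝ) (c : ℤ) (η : Env) : ℝ :=
  Real.log (max (Real.exp C * Us μ s g ε w n c η) 1) + Lk μ s g n (c + ε * w) η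

/-- The displacement relative to the line. -/
def rl (g : ℤ → ℤ) (t : ℤ) (m : ℕ) (y : ℤ) : ℤ := y - (g (t + m) - g t)

/-- The weight of the paths from `(t, x)` of length `m` with the one sided tilt `h`: `exp (h r)` for a relative displacement `r > 0` in the
direction `ε`, and `1` otherwise. -/
def Wh (μ : Measure ℝ) (s : ℝ) (g : ℤ → ℤ) (ε : ℤ) (h : ℝ) (η : Env) (t x : ℤ) (m : ℕ) : ℝ :=
  ∑ y ∈ Finset.Icc (0 : ℤ) m, W μ s η (t, x) m y * Real.exp (h * max 0 ((ε * rl g t m y : ℤ) : ℝ))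

/-- The hypothesis on the unit: the mean positive costs of the pieces of the line `g` in the time window `[-n, 3 n]`. -/
def UG (μ : Measure ℝ) (s : ℝ) (g : ℤ → ℤ) (n : ℕ) (E : ℝ) : Prop :=
  ∀ (t : ℤ) (m : ℕ), -(n : ℤ) ≤ t → t + m ≤ 3 * n → ∫ η, max (X μ s η 0 m (g (t + m) - g t)) 0 ∂(law μ) ≤ E

/-- The hypothesis on the unit of the vertical direction: the mean positive costs of the (almost) vertical displacements up to the
time `M`. -/
def UB (μ : Measure ℝ) (s : ℝ) (M : ℕ) (E : ℝ) : Prop :=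
  ∀ (m : ℕ) (y : ℤ), m ≤ M → 0 ≤ y → y ≤ m → |2 * y - m| ≤ 2 → ∫ η, max (X μ s η 0 m y) 0 ∂(law μ) ≤ E

theorem UB.ug {μ : Measure ℝ} {s : ℝ} {n : ℕ} {E : ℝ} (h : UB μ s (4 * n) E) : UG μ s (fun t => t / 2) n E := by
  intro t m h1 h2
  refine h m _ (by omega) ?_ ?_ ?_
  · show (0 : ℤ) ≤ (t + m) / 2 - t / 2
    omega
  · show (t + m) / 2 - t / 2 ≤ m
    omega
  · show |2 * ((t + m) / 2 - t / 2) - (m : ℤ)| ≤ 2
    rw [abs_le]
    omega

variable {μ : Measure ℝ} {s : ℝ} {g : ℤ → ℤ} {ε : ℤ} {w n : ℕ} {c : ℤ} {C : ℝ}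

/-! ### Nonnegativity -/

theorem WR_nonneg (R : Set Pt) (η : Env) (a : Pt) (m : ℕ) (y : ℤ) : 0 ≤ WR μ s R η a m y :=
  mul_nonneg (Real.exp_pos _).le (Zr_nonneg _ _ _ _ _)

theorem Om_nonneg (η : Env) (t : ℤ) (k : ℕ) : 0 ≤ Om μ s g ε w c η t k := WR_nonneg _ _ _ _ _

/-- A first passage weight is at most the point to point weight. -/
theorem Om_le (η : Env) (t : ℤ) (k : ℕ) :
    Om μ s g ε w c η t k ≤ W μ s η (t, ln g c t) (k + 1) (dk (ln g (c + ε * w)) (t, ln g c t) k) := by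
  unfold Om W WR
  exact mul_le_mul_of_nonneg_left (Zr_mono (Set.subset_univ _) _ _ _ _) (Real.exp_pos _).le

theorem W_le_exp_V' (η : Env) (a : Pt) (m : ℕ) (y : ℤ) : W μ s η a m y ≤ Real.exp (V μ s η a m) := by
  have hpos : 0 < WS μ s η a m (Finset.Icc (0 : ℤ) m) := by
    unfold WS
    refine Finset.sum_pos (fun y hy => ?_) ⟨0, by simp⟩
    rw [Finset.mem_Icc] at hy
    unfold W WR
    exact mul_pos (Real.exp_pos _) (Zr_pos _ _ hy.1 hy.2)
  unfold V
  rw [Real.exp_log hpos]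
  by_cases hy : 0 ≤ y ∧ y ≤ m
  · unfold WS
    exact Finset.single_le_sum (f := fun y => W μ s η a m y) (fun y _ => WR_nonneg _ _ _ _ _) (Finset.mem_Icc.2 hy)
  · have e : W μ s η a m y = 0 := by
      unfold W WR
      rw [Zr_eq_zero _ _ _ hy, mul_zero]
    rw [e]
    exact hpos.le

theorem Us_nonneg (η : Env) : 0 ≤ Us μ s g ε w n c η := by
  unfold Us
  refine le_trans ?_ (Finset.le_sup' _ (Finset.mem_range.2 (Nat.succ_pos n)))
  exact Finset.sum_nonneg fun k _ => Om_nonneg _ _ _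

theorem sum_Om_le_Us (η : Env) {t : ℕ} (ht : t ≤ n) :
    ∑ k ∈ Finset.range (n - t), Om μ s g ε w c η (t : ℤ) k ≤ Us μ s g ε w n c η := by
  unfold Us
  exact Finset.le_sup' (fun t : ℕ => ∑ k ∈ Finset.range (n - t), Om μ s g ε w c η (t : ℤ) k)
    (Finset.mem_range.2 (Nat.lt_succ_of_le ht))

theorem V_zero (η : Env) (a : Pt) : V μ s η a 0 = 0 := by
  unfold V WS W WR
  simp [Zr_zero]

theorem le_Lk (η : Env) {t m : ℕ} (h : t + m ≤ n) : V μ s η ((t : ℤ), ln g c t) m ≤ Lk μ s g n c η := by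
  unfold Lk
  exact Finset.le_sup' (fun q : ℕ × ℕ => V μ s η ((q.1 : ℤ), ln g c q.1) q.2) (mem_Pr.2 (show (t, m).1 + (t, m).2 ≤ n from h))

theorem Lk_nonneg (η : Env) : 0 ≤ Lk μ s g n c η := by
  have h := le_Lk (μ := μ) (s := s) (g := g) (c := c) η (t := 0) (m := 0) (n := n) (Nat.zero_le _)
  rwa [V_zero] at h

theorem Lk_le (η : Env) {L : ℝ} (h : ∀ t m : ℕ, t + m ≤ n → V μ s η ((t : ℤ), ln g c t) m ≤ L) : Lk μ s g n c η ≤ L := by
  unfold Lk
  exact Finset.sup'_le _ _ fun q hq => h q.1 q.2 (mem_Pr.1 hq)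

theorem xi_nonneg (η : Env) : 0 ≤ xi μ s g ε w n C c η :=
  add_nonneg (Real.log_nonneg (le_max_right _ _)) (Lk_nonneg η)

/-- The largest passage weight in terms of `xi`. -/
theorem Us_le_xi (η : Env) :
    Us μ s g ε w n c η ≤ Real.exp (-C + xi μ s g ε w n C c η - Lk μ s g n (c + ε * w) η) := by
  have h0 : (0 : ℝ) < max (Real.exp C * Us μ s g ε w n c η) 1 := lt_of_lt_of_le one_pos (le_max_right _ _)
  have e : -C + xi μ s g ε w n C c η - Lk μ s g n (c + ε * w) η =
      -C + Real.log (max (Real.exp C * Us μ s g ε w n c η) 1) := by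
    unfold xi
    ring
  rw [e, Real.exp_add, Real.exp_log h0]
  calc Us μ s g ε w n c η = Real.exp (-C) * (Real.exp C * Us μ s g ε w n c η) := by
        rw [← mul_assoc, ← Real.exp_add, neg_add_cancel, Real.exp_zero, one_mul]
    _ ≤ _ := mul_le_mul_of_nonneg_left (le_max_left _ _) (Real.exp_pos _).le

/-! ### Shifts -/

theorem ln_add (c d t : ℤ) : ln g (c + d) t = ln g c t + d := by
  unfold ln
  ring

theorem V_sh' (η : Env) (a b : Pt) (m : ℕ) : V μ s (sh b η) a m = V μ s η (a + b) m := by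
  unfold V WS W WR
  simp only [Zr_sh_univ]

theorem Lk_sh (η : Env) (d : ℤ) : Lk μ s g n c (sh (0, d) η) = Lk μ s g n (c + d) η := by
  unfold Lk
  refine Finset.sup'_congr _ rfl fun q _ => ?_
  rw [V_sh', ln_add]
  simp

theorem Om_sh (η : Env) (d : ℤ) (t : ℤ) (k : ℕ) :
    Om μ s g ε w c (sh (0, d) η) t k = Om μ s g ε w (c + d) η t k := by
  unfold Om WR
  have e1 : dk (ln g (c + ε * w)) (t, ln g c t) k = dk (ln g (c + d + ε * w)) (t, ln g (c + d) t) k := by
    simp only [dk, ln]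
    ring
  have e2 : ((t, ln g (c + d) t) : Pt) = (t, ln g c t) + (0, d) := by
    rw [ln_add]
    simp
  rw [← e1]
  congr 1
  rw [e2, ← Zr_sh]
  congr 1
  ext p
  simp only [Sd, Set.univ_inter, Set.mem_union, Set.mem_ofPred_eq, Set.mem_singleton_iff, bk, ln, Prod.fst_add,
    Prod.snd_add, add_zero]
  rw [Prod.ext_iff, Prod.ext_iff]
  simp only [Prod.fst_add, Prod.snd_add, add_zero]
  constructor
  · rintro (h | ⟨h1, h2⟩)
    · left
      have e : p.2 + d - (g p.1 + (c + d + ε * w)) = p.2 - (g p.1 + (c + ε * w)) := by ring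
      rwa [e]
    · right
      exact ⟨h1, by rw [h2]; ring⟩
  · rintro (h | ⟨h1, h2⟩)
    · left
      have e : p.2 + d - (g p.1 + (c + d + ε * w)) = p.2 - (g p.1 + (c + ε * w)) := by ring
      rwa [e] at h
    · right
      exact ⟨h1, by linarith⟩

theorem Us_sh (η : Env) (d : ℤ) : Us μ s g ε w n c (sh (0, d) η) = Us μ s g ε w n (c + d) η := by
  unfold Us
  refine Finset.sup'_congr _ rfl fun t _ => ?_
  exact Finset.sum_congr rfl fun k _ => Om_sh _ _ _ _

theorem xi_sh (η : Env) (d : ℤ) : xi μ s g ε w n C c (sh (0, d) η) = xi μ s g ε w n C (c + d) η := by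
  unfold xi
  rw [Us_sh, Lk_sh]
  congr 2
  ring

theorem sh_iterate (d : ℤ) (i : ℕ) (η : Env) : (sh (0, d))^[i] η = sh (0, i * d) η := by
  induction i generalizing η with
  | zero =>
    funext p
    show η p = η (p + (0, ((0 : ℕ) : ℤ) * d))
    congr 1
    simp
  | succ i ih =>
    rw [Function.iterate_succ_apply, ih]
    funext p
    simp only [sh]
    congr 1
    ext
    · simp
    · simp
      ring

theorem xi_iterate (η : Env) (i : ℕ) :
    xi μ s g ε w n C c ((sh (0, ε * w))^[i] η) = xi μ s g ε w n C (c + i * (ε * w)) η := by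
  rw [sh_iterate, xi_sh]

/-! ### Measurability -/

theorem measurable_Om (t : ℤ) (k : ℕ) : Measurable fun η : Env => Om μ s g ε w c η t k := by
  unfold Om WR
  exact (measurable_Zr _ _ _ _).const_mul _

theorem measurable_Us : Measurable fun η : Env => Us μ s g ε w n c η := by
  unfold Us
  have h := Finset.measurable_sup' (s := Finset.range (n + 1)) ⟨0, by simp⟩
    (f := fun (t : ℕ) (η : Env) => ∑ k ∈ Finset.range (n - t), Om μ s g ε w c η (t : ℤ) k)
    fun t _ => Finset.measurable_sum _ fun k _ => measurable_Om _ _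
  convert h using 1
  funext η
  rw [Finset.sup'_apply]

theorem Sub_Lk : Sub fun η : Env => Lk μ s g n c η := by
  unfold Lk
  exact Sub.sup' _ _ fun q _ => Sub_V _ _

theorem measurable_xi : Measurable fun η : Env => xi μ s g ε w n C c η := by
  unfold xi
  exact (Real.measurable_log.comp ((measurable_Us.const_mul _).max measurable_const)).add Sub_Lk.1

/-- The largest passage weight is at most `n` times the line luck. -/
theorem Us_le_Lk (η : Env) : Us μ s g ε w n c η ≤ n * Real.exp (Lk μ s g n c η) := by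
  unfold Us
  refine Finset.sup'_le _ _ fun t ht => ?_
  rw [Finset.mem_range] at ht
  have h1 : ∀ k ∈ Finset.range (n - t), Om μ s g ε w c η (t : ℤ) k ≤ Real.exp (Lk μ s g n c η) := by
    intro k hk
    rw [Finset.mem_range] at hk
    refine (Om_le η _ k).trans ((W_le_exp_V' η _ _ _).trans (Real.exp_le_exp.2 (le_Lk η (by omega))))
  refine (Finset.sum_le_card_nsmul _ _ _ h1).trans ?_
  rw [Finset.card_range, nsmul_eq_mul]
  refine mul_le_mul_of_nonneg_right ?_ (Real.exp_pos _).le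
  exact_mod_cast Nat.sub_le n t

/-- `xi` is bounded by the lucks of two lines. -/
theorem xi_le (hn : 1 ≤ n) (hC : 0 ≤ C) (η : Env) :
    xi μ s g ε w n C c η ≤ C + Real.log n + Lk μ s g n c η + Lk μ s g n (c + ε * w) η := by
  have hn' : (1 : ℝ) ≤ n := by exact_mod_cast hn
  have h0 : 0 ≤ C + Real.log n + Lk μ s g n c η := by
    have h1 := Lk_nonneg (μ := μ) (s := s) (g := g) (n := n) (c := c) η
    have h2 := Real.log_nonneg hn'
    linarith
  unfold xi
  refine add_le_add ?_ le_rfl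
  rw [Real.log_le_iff_le_exp (lt_of_lt_of_le one_pos (le_max_right _ _))]
  refine max_le ?_ (Real.one_le_exp h0)
  rw [Real.exp_add, Real.exp_add, Real.exp_log (by linarith), mul_assoc]
  exact mul_le_mul_of_nonneg_left (Us_le_Lk η) (Real.exp_pos _).le

theorem Sub_xi (hn : 1 ≤ n) (hC : 0 ≤ C) : Sub fun η : Env => xi μ s g ε w n C c η :=
  Sub.of_le measurable_xi (Sub.const 0) (((Sub.const (C + Real.log n)).add Sub_Lk).add Sub_Lk)
    (fun η => xi_nonneg η) fun η => xi_le hn hC η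

end

end Pool.Agent.W_7d29a1_h30g
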