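import Pool.Agent.W_7d29a1_h30g.Fr0
import Pool.Agent.W_7d29a1_G.Frame3

/-!
ROW 620, file 8a: the unit of the almost vertical displacements and the width of the frame (D1).
-/

namespace Pool.Agent.W_7d29a1_h30g

open MeasureTheory ProbabilityTheory Filter Topology Pool.Agent.W_7d29a1_F Pool.Agent.W_7d29a1_h95g
open Pool.Agent.W_7d29a1_h60 Pool.Agent.W_7d29a1_G

noncomputable section

variable {μ : Measure ℝ} [IsProbabilityMeasure μ]

/-- PROOF. `|2 y - m| ≤ 1`: `y = md m` or `y = m - md m` (mirror). `|2 y - m| = 2`: `m` even, `y = m / 2 ± 1`: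
`(m, m / 2 ± 1) = (m - 2, (m - 2) / 2) + (2, 2)` or `+ (2, 0)`. -/
theorem UB_EE (hEM : Pool.Agent.W_7d29a1_h47.EM μ) : ∃ C0 : ℝ, 0 ≤ C0 ∧ ∀ M : ℕ, UB μ 0 M (EE μ M + C0) := by
  refine ⟨ep μ 2 0 + ep μ 2 2, add_nonneg (ep_nonneg _ _) (ep_nonneg _ _), fun M m y hm h0 h1 h2 => ?_⟩
  change ep μ m y ≤ EE μ M + (ep μ 2 0 + ep μ 2 2)
  have hp0 := ep_nonneg (μ := μ) 2 0
  have hp2 := ep_nonneg (μ := μ) 2 2
  have hE := ep_le_EE (μ := μ) hm
  rw [abs_le] at h2
  rcases (show y = md m ∨ y = m - md m ∨ (2 ≤ m ∧ y = md (m - 2) + 2) ∨ (2 ≤ m ∧ y = md (m - 2) + 0) by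
    unfold md
    omega) with h | h | ⟨h, h'⟩ | ⟨h, h'⟩
  · rw [h]
    linarith
  · rw [h, ep_mirror]
    linarith
  · have h3 := ep_add hEM (md_nonneg (m - 2)) (md_le (m - 2)) (show (0 : ℤ) ≤ 2 by norm_num)
      (show (2 : ℤ) ≤ ((2 : ℕ) : ℤ) by norm_num)
    rw [← h', Nat.sub_add_cancel h] at h3
    have h4 := ep_le_EE (μ := μ) (show m - 2 ≤ M by omega)
    linarith
  · have h3 := ep_add hEM (md_nonneg (m - 2)) (md_le (m - 2)) (show (0 : ℤ) ≤ 0 by norm_num)
      (show (0 : ℤ) ≤ ((2 : ℕ) : ℤ) by norm_num)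
    rw [← h', Nat.sub_add_cancel h] at h3
    have h4 := ep_le_EE (μ := μ) (show m - 2 ≤ M by omega)
    linarith

/-- The unit of the frame. -/
def E8 (μ : Measure ℝ) (C0 : ℝ) (n : ℕ) : ℝ := EE μ (8 * n) + C0

theorem e_mir (n : ℕ) (y : ℤ) : e μ 0 n (n - y) = e μ 0 n y := by
  have h := e_mirror (μ := μ) (s := 0) (by rw [neg_zero, sub_zero]) n y
  rwa [neg_zero] at h

/-- A small slope with a small rate. -/
theorem exists_slope (hEM : Pool.Agent.W_7d29a1_h47.EM μ) (hnd : Pool.Agent.W_7d29a1_h47.Nondeg μ) :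
    ∃ v : ℝ, 0 < v ∧ v ≤ 1 / 8 ∧ J μ (2 * v) ≤ v := by
  obtain ⟨c, a, hc, ha, h⟩ := J_le_pow hEM hnd
  obtain ⟨v, hv⟩ : ∃ v : ℝ, v = min (1 / 8) (min (a / 2) (c / 2 ^ 100)) := ⟨_, rfl⟩
  have hv0 : 0 < v := by rw [hv]; exact lt_min (by norm_num) (lt_min (by linarith) (by positivity))
  have hv1 : v ≤ 1 / 8 := by rw [hv]; exact min_le_left _ _
  have hv2 : v ≤ a / 2 := by rw [hv]; exact (min_le_right _ _).trans (min_le_left _ _)
  have hv3 : v ≤ c / 2 ^ 100 := by rw [hv]; exact (min_le_right _ _).trans (min_le_right _ _)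
  refine ⟨v, hv0, hv1, ?_⟩
  have h1 := h (2 * v) (by linarith) (by linarith)
  have h2 : 2 * v / c ≤ (1 / 2) ^ (99 : ℕ) := by
    rw [div_le_iff₀ hc]
    have : (1 / 2 : ℝ) ^ (99 : ℕ) * c = 2 * (c / 2 ^ 100) := by
      rw [div_pow, one_pow]
      ring
    rw [this]
    linarith
  have h3 : (2 * v / c) ^ (1 / 99 : ℝ) ≤ 1 / 2 := by
    calc (2 * v / c) ^ (1 / 99 : ℝ) ≤ ((1 / 2 : ℝ) ^ (99 : ℕ)) ^ (1 / 99 : ℝ) :=
          Real.rpow_le_rpow (by positivity) h2 (by norm_num)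
      _ = 1 / 2 := by
          rw [← Real.rpow_natCast, ← Real.rpow_mul (by norm_num)]
          norm_num
  have h4 : 2 * v * (2 * v / c) ^ (1 / 99 : ℝ) ≤ 2 * v * (1 / 2) :=
    mul_le_mul_of_nonneg_left h3 (by linarith)
  linarith

/-- THE WIDTH. -/
theorem exists_w (hEM : Pool.Agent.W_7d29a1_h47.EM μ) (hnd : Pool.Agent.W_7d29a1_h47.Nondeg μ) {C0 : ℝ} (h0 : 0 ≤ C0) :
    ∃ A1 : ℝ, 1 ≤ A1 ∧ ∀ A : ℝ, A1 ≤ A → ∃ n0 : ℕ, ∀ n, n0 ≤ n → ∃ w : ℕ, 3 ≤ w ∧ w ≤ n ∧
      (∀ x : ℤ, |x| < w → e μ 0 (4 * n) (2 * n + x) ≤ A * E8 μ C0 n) ∧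
      A * E8 μ C0 n < e μ 0 (4 * n) (2 * n + w) ∧ A * E8 μ C0 n < e μ 0 (4 * n) (2 * n - w) ∧
      A * E8 μ C0 n ≤ 24 * w := by
  classical
  obtain ⟨v, hv0, hv1, hJv⟩ := exists_slope hEM hnd
  obtain ⟨m0, hm0⟩ := eventually_atTop.1 (up hEM hnd v hv0.le (by linarith) v hv0)
  obtain ⟨Cs, hCs, hsm⟩ := ep_small hEM (m0 + 4)
  refine ⟨2 * (Cs + 3), by linarith, fun A hA => ?_⟩
  have hA1 : 1 ≤ A := by linarith
  -- the threshold for `n`
  have hJ := J_pos hEM hnd (v := v / 4) (by linarith) (by linarith)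
  have hlim : Tendsto (fun n : ℕ => A * (8 * (EE μ (8 * n) / (8 * n : ℕ)) + C0 / n)) atTop (𝓝 0) := by
    have h1 : Tendsto (fun n : ℕ => 8 * n) atTop atTop :=
      tendsto_atTop_mono (fun n => by simp only [id]; omega) tendsto_id
    have h2 := ((EE_div_tendsto hEM hnd).comp h1).const_mul 8
    have h3 : Tendsto (fun n : ℕ => C0 / (n : ℝ)) atTop (𝓝 0) := tendsto_const_div_atTop_nhds_zero_nat C0
    have h4 := (h2.add h3).const_mul A
    simpa using h4
  obtain ⟨n1, hn1⟩ := eventually_atTop.1 (hlim.eventually (eventually_lt_nhds (show 0 < 4 * J μ (v / 4) by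
    linarith)))
  obtain ⟨n2, hn2⟩ : ∃ n2 : ℕ, 8 / v < n2 := exists_nat_gt _
  refine ⟨max (max n1 n2) 8, fun n hn => ?_⟩
  have hnn1 : n1 ≤ n := (le_max_left _ _).trans ((le_max_left _ _).trans hn)
  have hnn2 : n2 ≤ n := (le_max_right _ _).trans ((le_max_left _ _).trans hn)
  have hn8 : 8 ≤ n := (le_max_right _ _).trans hn
  have hnR : (8 : ℝ) ≤ n := by exact_mod_cast hn8
  have hn0 : (0 : ℝ) < n := by linarith
  have hvn : 8 < v * n := by
    have h1 : 8 / v < n := lt_of_lt_of_le hn2 (by exact_mod_cast hnn2)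
    rw [div_lt_iff₀ hv0] at h1
    linarith
  have hE8 : 1 ≤ E8 μ C0 n := by
    have := one_le_EE (μ := μ) (8 * n)
    unfold E8
    linarith
  have hE4 : EE μ (4 * n) ≤ E8 μ C0 n := by
    have h1 : EE μ (4 * n) ≤ EE μ (8 * n) := EE_mono (by omega)
    unfold E8
    linarith
  -- the large displacement
  obtain ⟨x1, hx1⟩ : ∃ x1 : ℕ, x1 = ⌈v * n⌉₊ := ⟨_, rfl⟩
  have hx1a : v * n ≤ x1 := by rw [hx1]; exact Nat.le_ceil _
  have hx1b : (x1 : ℝ) < v * n + 1 := by rw [hx1]; exact Nat.ceil_lt_add_one (by positivity)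
  have hx1n : x1 ≤ n := by
    have : (x1 : ℝ) ≤ n := by nlinarith
    exact_mod_cast this
  have hbig : A * E8 μ C0 n < e μ 0 (4 * n) (2 * n + x1) := by
    have h1 := hn1 n hnn1
    have h2 := J_le_e hEM (n := 4 * n) (y := 2 * n + x1) (by omega) (by omega) (by push_cast; omega)
    have h3 : J μ (v / 4) ≤ J μ (((2 * n + x1 : ℤ) - ((4 * n : ℕ) : ℝ) / 2) / (4 * n : ℕ)) := by
      refine J_mono' hEM (by linarith) ?_ ?_
      · push_cast
        rw [le_div_iff₀ (by positivity)]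
        nlinarith
      · push_cast
        rw [div_le_iff₀ (by positivity)]
        have : (x1 : ℝ) ≤ n := by exact_mod_cast hx1n
        nlinarith
    have h4 : A * E8 μ C0 n < n * (4 * J μ (v / 4)) := by
      have h5 : A * (8 * (EE μ (8 * n) / (8 * n : ℕ)) + C0 / n) * n = A * E8 μ C0 n := by
        unfold E8
        push_cast
        field_simp
      rw [← h5, mul_comm (n : ℝ)]
      exact mul_lt_mul_of_pos_right h1 hn0
    have h6 : ((4 * n : ℕ) : ℝ) * J μ (v / 4) ≤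
        ((4 * n : ℕ) : ℝ) * J μ (((2 * n + x1 : ℤ) - ((4 * n : ℕ) : ℝ) / 2) / (4 * n : ℕ)) :=
      mul_le_mul_of_nonneg_left h3 (Nat.cast_nonneg _)
    have h7 := h6.trans h2
    push_cast at h7
    nlinarith
  -- the least one
  have hex : ∃ x : ℕ, A * E8 μ C0 n < e μ 0 (4 * n) (2 * n + x) := ⟨x1, hbig⟩
  obtain ⟨w, hw⟩ : ∃ w : ℕ, w = Nat.find hex := ⟨_, rfl⟩
  have hwa : A * E8 μ C0 n < e μ 0 (4 * n) (2 * n + w) := by rw [hw]; exact Nat.find_spec hex
  have hwm : ∀ x : ℕ, x < w → e μ 0 (4 * n) (2 * n + x) ≤ A * E8 μ C0 n := by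
    intro x hx
    rw [hw] at hx
    exact not_lt.1 (Nat.find_min hex hx)
  have hwx : w ≤ x1 := by rw [hw]; exact Nat.find_min' hex hbig
  have hwn : w ≤ n := hwx.trans hx1n
  have hmir : ∀ x : ℤ, e μ 0 (4 * n) (2 * n - x) = e μ 0 (4 * n) (2 * n + x) := by
    intro x
    have h1 := e_mir (μ := μ) (4 * n) (2 * n + x)
    have h2 : (((4 * n : ℕ) : ℤ) - (2 * n + x)) = 2 * n - x := by push_cast; ring
    rwa [h2] at h1
  refine ⟨w, ?_, hwn, ?_, hwa, ?_, ?_⟩
  · -- `3 ≤ w`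
    by_contra hcon
    have hw2 : w ≤ 2 := by omega
    have h1 : ep μ (4 * n) (2 * n + w) ≤ EE μ (4 * n) + Cs := by
      have h2 := ep_add hEM (m := 4 * n - 4) (n := 4) (k := 2 * n - 2) (y := 2 + w) (by omega)
        (by omega) (by omega) (by push_cast; omega)
      have e1 : 4 * n - 4 + 4 = 4 * n := by omega
      have e2 : ((2 * n - 2 : ℤ)) + (2 + w) = 2 * n + w := by ring
      rw [e1, e2] at h2
      have h3 := hsm 4 (2 + w) (by omega) (by omega) (by push_cast; omega)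
      have h4 := ep_le_EE (μ := μ) (show 4 * n - 4 ≤ 4 * n by omega)
      have h5 : md (4 * n - 4) = 2 * n - 2 := by unfold md; omega
      rw [h5] at h4
      linarith
    have h2 := e_le_ep hEM (n := 4 * n) (y := 2 * n + w) (by omega) (by push_cast; omega)
    nlinarith
  · intro x hx
    rcases le_total 0 x with h | h
    · obtain ⟨k, hk⟩ : ∃ k : ℕ, x = k := ⟨x.toNat, by omega⟩
      subst hk
      rw [abs_of_nonneg h] at hx
      exact hwm k (by exact_mod_cast hx)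
    · obtain ⟨k, hk⟩ : ∃ k : ℕ, x = -k := ⟨(-x).toNat, by omega⟩
      subst hk
      rw [abs_of_nonpos h, neg_neg] at hx
      have h1 := hwm k (by exact_mod_cast hx)
      rw [← hmir] at h1
      rwa [← sub_eq_add_neg]
  · rw [hmir]
    exact hwa
  · -- `A E8 ≤ 24 w`
    obtain ⟨m, hm⟩ : ∃ m : ℕ, m = ⌈(w : ℝ) / v⌉₊ + 4 := ⟨_, rfl⟩
    have hwR : (0 : ℝ) ≤ w := Nat.cast_nonneg w
    have hma : (w : ℝ) / v + 4 ≤ m := by
      rw [hm]
      push_cast
      linarith [Nat.le_ceil ((w : ℝ) / v)]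
    have hmb : (m : ℝ) < w / v + 5 := by
      rw [hm]
      push_cast
      linarith [Nat.ceil_lt_add_one (show 0 ≤ (w : ℝ) / v by positivity)]
    have hwv : (w : ℝ) ≤ v * m := by
      have h1 : (w : ℝ) / v ≤ m := by linarith
      rw [div_le_iff₀ hv0] at h1
      linarith
    have hm4 : 4 ≤ m := by omega
    have hmR4 : (4 : ℝ) ≤ m := by exact_mod_cast hm4
    have hm3n : m ≤ 3 * n := by
      have h1 : (w : ℝ) ≤ v * n + 1 := by
        have : (w : ℝ) ≤ x1 := by exact_mod_cast hwx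
        linarith
      have h2 : (w : ℝ) / v ≤ n + 1 / v := by
        rw [div_le_iff₀ hv0]
        have : (n + 1 / v) * v = v * n + 1 := by field_simp
        linarith
      have h3 : 1 / v ≤ n / 8 := by
        rw [div_le_iff₀ hv0]
        linarith
      have h4 : (m : ℝ) ≤ (3 * n : ℕ) := by
        push_cast
        linarith
      exact_mod_cast h4
    obtain ⟨y, hy⟩ : ∃ y : ℤ, y = 2 * n + w - md (4 * n - m) := ⟨_, rfl⟩
    have hyd : |(y : ℝ) - m / 2| ≤ w + 1 / 2 := by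
      have h1 : 2 * md (4 * n - m) ≤ 4 * n - m := by unfold md; omega
      have h2 : (4 * n - m : ℤ) ≤ 2 * md (4 * n - m) + 1 := by unfold md; omega
      have h1' : 2 * (md (4 * n - m) : ℝ) ≤ 4 * n - m := by exact_mod_cast h1
      have h2' : (4 * n - m : ℝ) ≤ 2 * (md (4 * n - m) : ℝ) + 1 := by exact_mod_cast h2
      rw [hy]
      push_cast
      rw [abs_le]
      constructor <;> linarith
    have hy2 := abs_le.1 hyd
    have hvm : v * m ≤ 1 / 8 * m := mul_le_mul_of_nonneg_right hv1 (by linarith)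
    have hy0 : 0 ≤ y := by
      have : (0 : ℝ) ≤ y := by linarith [hy2.1]
      exact_mod_cast this
    have hym : y ≤ m := by
      have : (y : ℝ) ≤ m := by linarith [hy2.2]
      exact_mod_cast this
    have hep : ep μ m y ≤ Cs + (2 * w + 10 * v) := by
      rcases le_or_gt m (m0 + 4) with h | h
      · have := hsm m y h hy0 hym
        have h2 : 0 ≤ 10 * v := by linarith
        linarith
      · have h1 : An μ m v ≤ (J μ (2 * v) + v) * m := hm0 m (by omega)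
        have h2 : ep μ m y ≤ An μ m v := le_An (mem_Cn.2 ⟨hy0, hym, by linarith⟩)
        have h3 : (J μ (2 * v) + v) * m ≤ (2 * v) * (w / v + 5) :=
          mul_le_mul (by linarith) hmb.le (by linarith) (by linarith)
        have h4 : (2 * v) * ((w : ℝ) / v + 5) = 2 * w + 10 * v := by
          have h5 : (w : ℝ) / v * v = w := div_mul_cancel₀ _ hv0.ne'
          linear_combination 2 * h5
        linarith
    have h1 := ep_add hEM (m := m) (n := 4 * n - m) hy0 hym (md_nonneg (4 * n - m)) (md_le (4 * n - m))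
    have e1 : m + (4 * n - m) = 4 * n := by omega
    have e2 : y + md (4 * n - m) = 2 * n + w := by rw [hy]; ring
    rw [e1, e2] at h1
    have h2 := ep_le_EE (μ := μ) (show 4 * n - m ≤ 4 * n by omega)
    have h3 := e_le_ep hEM (n := 4 * n) (y := 2 * n + w) (by omega) (by push_cast; omega)
    have h4 : A * E8 μ C0 n < Cs + 2 * w + 2 + E8 μ C0 n := by linarith
    have h5 : Cs + 2 + E8 μ C0 n ≤ (Cs + 3) * E8 μ C0 n := by nlinarith
    have h6 : 2 * (Cs + 3) * E8 μ C0 n ≤ A * E8 μ C0 n := mul_le_mul_of_nonneg_right hA (by linarith)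
    linarith

end

end Pool.Agent.W_7d29a1_h30g
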