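import Pool.Agent.W_7d29a1_h30g.Fr6
import Pool.Agent.W_7d29a1_h30g.Fr8a
import Pool.Agent.W_7d29a1_L.LsB
import Pool.Agent.W_7d29a1_G.FR0
import Pool.Agent.W_7d29a1_G.Soft1

/-!
ROW 620, file 8: the frame with the unit (D1) `EE`.
-/

namespace Pool.Agent.W_7d29a1_h30g

open MeasureTheory ProbabilityTheory Filter Topology Pool.Agent.W_7d29a1_F Pool.Agent.W_7d29a1_h95g
open Pool.Agent.W_7d29a1_h60 Pool.Agent.W_7d29a1_L Pool.Agent.W_7d29a1_G Pool.Agent.W_7d29a1_h4g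

noncomputable section

variable {μ : Measure ℝ} [IsProbabilityMeasure μ]

/-- (MC): hard in the mean implies hard with probability `1 - p` at a third of the level. PROOF. `G = W μ 0 · 0 (4 n) y`; otherwise
`mean_le_EU_all` (or `mean_of_prob_EE`) gives `e ≤ max (max (2 (A E8 / 3 + log n + 8 E8)) C) (6 EE (2 ^ T 4 n))`, `EE_mul`. -/
theorem hard_le (hEM : Pool.Agent.W_7d29a1_h47.EM μ) (hnd : Pool.Agent.W_7d29a1_h47.Nondeg μ) {C0 Cl p : ℝ} (h0 : 0 ≤ C0)
    (hCl : 0 ≤ Cl) (hp : 0 < p) : ∃ A1 : ℝ, ∀ A : ℝ, A1 ≤ A → ∀ (n : ℕ) (y : ℤ), 1 ≤ n → 0 ≤ y → y ≤ 4 * n →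
      Real.log n ≤ Cl * E8 μ C0 n → A * E8 μ C0 n < e μ 0 (4 * n) y →
      (law μ).real {η | Real.exp (-(A * E8 μ C0 n / 3 + Real.log n + 8 * E8 μ C0 n)) ≤ W μ 0 η 0 (4 * n) y} ≤ p := by
  obtain ⟨T, C, hmc⟩ := mean_of_prob_EE (μ := μ) hEM hnd hp
  refine ⟨max (max (6 * (Cl + 8)) C) (6 * (T + 1)), fun A hA n y hn hy0 hy1 hlog hhard => ?_⟩
  have hA1 : 6 * (Cl + 8) ≤ A := ((le_max_left _ _).trans (le_max_left _ _)).trans hA
  have hA2 : C ≤ A := ((le_max_right _ _).trans (le_max_left _ _)).trans hA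
  have hA3 : 6 * ((T : ℝ) + 1) ≤ A := (le_max_right _ _).trans hA
  by_contra hcon
  have hlt : p < _ := not_le.1 hcon
  obtain ⟨E, hE⟩ : ∃ E : ℝ, E = E8 μ C0 n := ⟨_, rfl⟩
  rw [← hE] at hlog hhard hlt
  have hE8 : EE μ (8 * n) ≤ E := by rw [hE]; unfold E8; linarith
  have hE1 : 1 ≤ E := (one_le_EE (μ := μ) (8 * n)).trans hE8
  have hA0 : 0 ≤ A := by linarith
  have hy4 : y ≤ ((4 * n : ℕ) : ℤ) := by push_cast; exact hy1
  have hWpos : ∀ η : Env, 0 < W μ 0 η 0 (4 * n) y := fun η => W_pos η 0 hy0 hy4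
  have hset : {η : Env | Real.exp (-(A * E / 3 + Real.log n + 8 * E)) ≤ W μ 0 η 0 (4 * n) y} =
      {η : Env | -(A * E / 3 + Real.log n + 8 * E) ≤ Real.log (W μ 0 η 0 (4 * n) y)} := by
    ext η
    simp only [Set.mem_ofPred_eq]
    rw [Real.le_log_iff_exp_le (hWpos η)]
  rw [hset] at hlt
  have hsites : sites (0 : Pt) (4 * n) ⊆ rows 0 ((4 * n : ℕ) : ℤ) := by
    rintro q ⟨q1, q2, _, _⟩
    refine ⟨q1, ?_⟩
    have e1 : (0 : Pt).1 + ((4 * n : ℕ) : ℤ) = ((4 * n : ℕ) : ℤ) := by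
      show (0 : ℤ) + _ = _
      ring
    rw [e1] at q2
    exact q2
  have h1 := hmc (4 * n) (T * (4 * n)) le_rfl (fun η => W μ 0 η 0 (4 * n) y)
    ((poly_W (μ := μ) (s := 0) 0 (4 * n) y).mono hsites) hWpos (fun η => by
      have h2 := neg_X_le_V (μ := μ) (s := 0) η 0 hy0 hy4
      unfold X at h2
      rw [neg_neg] at h2
      exact h2) _ hlt.le
  have e1 : -∫ η, Real.log (W μ 0 η 0 (4 * n) y) ∂(law μ) = e μ 0 (4 * n) y := by
    unfold e X
    rw [integral_neg]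
  rw [e1] at h1
  have h2 : EE μ (T * (4 * n)) ≤ ((T : ℝ) + 1) * E := by
    have h3 : EE μ (T * (4 * n)) ≤ EE μ ((T + 1) * (8 * n)) := EE_mono (by nlinarith)
    have h4 := EE_mul (μ := μ) hEM (T + 1) (8 * n) (by omega)
    push_cast at h4
    have h5 : ((T : ℝ) + 1) * EE μ (8 * n) ≤ ((T : ℝ) + 1) * E := mul_le_mul_of_nonneg_left hE8 (by positivity)
    linarith
  have h3 : max (max (2 * (A * E / 3 + Real.log n + 8 * E)) C) (6 * EE μ (T * (4 * n))) ≤ A * E := by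
    refine max_le (max_le ?_ ?_) ?_
    · have h4 : 6 * (Cl + 8) * E ≤ A * E := mul_le_mul_of_nonneg_right hA1 (by linarith)
      linarith
    · nlinarith
    · have h4 : 6 * ((T : ℝ) + 1) * E ≤ A * E := mul_le_mul_of_nonneg_right hA3 (by linarith)
      linarith
  linarith

private theorem Mh_mono_n {s v h w z : ℝ} {m n : ℕ} (hv0 : 0 ≤ v) (hv1 : v ≤ 1) (hmn : m ≤ n) (η : Env) :
    Mh μ s v h w z m η ≤ Mh μ s v h w z n η := by
  refine Mh_le η (Mh_nonneg η) fun q hq => le_Mh η ?_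
  obtain ⟨q1, q2, q3⟩ := (mem_Bx hv0 hv1).1 hq
  exact (mem_Bx hv0 hv1).2 ⟨q1.trans hmn, q2, q3⟩

/-- THE FRAME AT EVERY SCALE. PROOF. `core` (LsB) with `c0 = 1`, `v = 1 / 2`, width `w - 2`, tilts `∓ th A E w`, `Y = 9 A E`,
`κ = A E / 144` (for all `|h'| ≤ h / 2`), `E = E8`; `hit_le`, `hard_le` with `p` small, `A` large. Input: `K log n ≤ EE n` (helper18,
`EE_log`). -/
theorem frame (hEM : Pool.Agent.W_7d29a1_h47.EM μ) (hnd : Pool.Agent.W_7d29a1_h47.Nondeg μ)
    (hlog : ∀ K : ℝ, ∃ n0 : ℕ, ∀ n, n0 ≤ n → K * Real.log n ≤ EE μ n) :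
    ∃ (C : ℝ) (n0 : ℕ), 1 ≤ C ∧ ∀ n, n0 ≤ n → ∃ (w : ℕ) (h Y : ℝ), 3 ≤ w ∧ w ≤ n ∧ 0 < h ∧ h ≤ 1 ∧
      EE μ n ≤ h * w ∧ h * w ≤ C * EE μ n ∧ 1 ≤ Y ∧ EE μ n ≤ Y ∧ Y ≤ C * EE μ n ∧
      (∀ x : ℤ, |x| < w → e μ 0 (4 * n) (2 * n + x) ≤ C * EE μ n) ∧
      EE μ n < e μ 0 (4 * n) (2 * n + w) ∧
      ∀ m ≤ n, ∀ h' z : ℝ, |h'| ≤ h / 2 →
        ∫ η, Real.exp (Mh μ 0 (1 / 2) h' ((w : ℝ) - 2) z m η / Y) ∂(law μ) ≤ 4 * Real.exp 1 := by
  obtain ⟨p0, hp0, hcore⟩ := core (μ := μ) hEM 0 (c0 := 1) one_pos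
  obtain ⟨K, hK6, hcore⟩ := hcore 2597
  obtain ⟨C0, hC00, hUB⟩ := UB_EE (μ := μ) hEM
  -- the probability of an easy crossing
  obtain ⟨p, hp⟩ : ∃ p : ℝ, p = p0 / (2597 * 128) := ⟨_, rfl⟩
  have hp00 : 0 < p := by rw [hp]; positivity
  obtain ⟨A1, hA11, hexw⟩ := exists_w (μ := μ) hEM hnd hC00
  obtain ⟨A2, hhard⟩ := hard_le (μ := μ) hEM hnd (Cl := 4) hC00 (by norm_num) hp00
  obtain ⟨A, hA⟩ : ∃ A : ℝ, A = max (max A1 A2) (max (max 48 K) (2597 * 5000 / p0)) := ⟨_, rfl⟩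
  have hAA1 : A1 ≤ A := by rw [hA]; exact (le_max_left _ _).trans (le_max_left _ _)
  have hAA2 : A2 ≤ A := by rw [hA]; exact (le_max_right _ _).trans (le_max_left _ _)
  have hA48 : 48 ≤ A := by rw [hA]; exact ((le_max_left _ _).trans (le_max_left _ _)).trans (le_max_right _ _)
  have hAK : K ≤ A := by rw [hA]; exact ((le_max_right _ _).trans (le_max_left _ _)).trans (le_max_right _ _)
  have hAp : 2597 * 5000 / p0 ≤ A := by rw [hA]; exact (le_max_right _ _).trans (le_max_right _ _)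
  have hA0 : 0 < A := by linarith
  obtain ⟨n1, hn1⟩ := hexw A hAA1
  obtain ⟨n2, hn2⟩ := hlog 1
  refine ⟨9 * A * (8 + C0), max (max n1 n2) 1, by nlinarith, fun n hn => ?_⟩
  have hnn1 : n1 ≤ n := ((le_max_left _ _).trans (le_max_left _ _)).trans hn
  have hnn2 : n2 ≤ n := ((le_max_right _ _).trans (le_max_left _ _)).trans hn
  have hn1' : 1 ≤ n := (le_max_right _ _).trans hn
  obtain ⟨w, hw3, hwn, hins, hout1, hout2, hw24⟩ := hn1 n hnn1
  obtain ⟨E, hE⟩ : ∃ E : ℝ, E = E8 μ C0 n := ⟨_, rfl⟩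
  rw [← hE] at hins hout1 hout2 hw24
  have hEE1 := one_le_EE (μ := μ) n
  have hE8 : EE μ n ≤ EE μ (8 * n) := EE_mono (by omega)
  have hEl : EE μ n ≤ E := by rw [hE]; unfold E8; linarith
  have hE1 : 1 ≤ E := hEE1.trans hEl
  have hEu : E ≤ (8 + C0) * EE μ n := by
    have h1 := EE_mul (μ := μ) hEM 8 n (by norm_num)
    have h2 : C0 * 1 ≤ C0 * EE μ n := mul_le_mul_of_nonneg_left hEE1 hC00
    rw [hE]
    unfold E8
    push_cast at h1
    linarith
  have hnr : (1 : ℝ) ≤ n := by exact_mod_cast hn1'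
  have hlogn : 1 * Real.log n ≤ EE μ n := hn2 n hnn2
  have hlog0 : 0 ≤ Real.log n := Real.log_nonneg hnr
  have hwr : (3 : ℝ) ≤ w := by exact_mod_cast hw3
  have hwnr : (w : ℝ) ≤ n := by exact_mod_cast hwn
  have hw0 : (0 : ℝ) < w := by linarith
  have hAE : 0 < A * E := by positivity
  have hAE48 : 48 ≤ A * E := by nlinarith
  -- the logarithm
  have hlg : Real.log (1 + 2 * n) ≤ 4 * E := by
    have h1 : (1 : ℝ) + 2 * n ≤ 3 * n := by linarith
    have h2 : Real.log (1 + 2 * n) ≤ Real.log (3 * n) := Real.log_le_log (by positivity) h1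
    rw [Real.log_mul (by norm_num) (by positivity)] at h2
    have h3 : Real.log 3 ≤ 3 := by
      have := Real.log_le_sub_one_of_pos (show (0 : ℝ) < 3 by norm_num)
      linarith
    linarith
  have hFr : FrH μ w n E A 4 p := by
    refine ⟨hn1', hw3, hwn, hE1, by norm_num, hA48, by linarith, ?_, hins, hlg, ?_, hw24⟩
    · rw [hE]
      exact hUB (8 * n)
    · intro ε hε
      have hlogE : Real.log n ≤ 4 * E8 μ C0 n := by
        rw [← hE]
        linarith
      rcases hε with rfl | rfl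
      · have h1 := hhard A hAA2 n (2 * n + 1 * w) hn1' (by omega) (by omega) hlogE (by
          rw [← hE, one_mul]
          exact hout1)
        rw [← hE] at h1
        exact h1
      · have h1 := hhard A hAA2 n (2 * n + (-1) * w) hn1' (by omega) (by omega) hlogE (by
          rw [← hE]
          have e1 : (2 * (n : ℤ) + (-1) * (w : ℤ)) = 2 * n - w := by ring
          rw [e1]
          exact hout2)
        rw [← hE] at h1
        exact h1
  obtain ⟨h, hh⟩ : ∃ h : ℝ, h = th A E w := ⟨_, rfl⟩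
  have hhw : h * w = A * E / 24 := by
    rw [hh]
    unfold th
    field_simp
  have hh0 : 0 < h := by
    rw [hh]
    unfold th
    positivity
  have hh1 : h ≤ 1 := by
    rw [hh]
    unfold th
    rw [div_le_one (by positivity)]
    exact hw24
  refine ⟨w, h, 9 * (A * E), hw3, hwn, hh0, hh1, ?_, ?_, by linarith, ?_, ?_, ?_, ?_, ?_⟩
  · rw [hhw, le_div_iff₀ (by norm_num)]
    nlinarith
  · rw [hhw]
    have h1 : A * E ≤ A * ((8 + C0) * EE μ n) := mul_le_mul_of_nonneg_left hEu hA0.le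
    have h2 : 0 ≤ A * ((8 + C0) * EE μ n) := by positivity
    linarith
  · nlinarith
  · have h1 : A * E ≤ A * ((8 + C0) * EE μ n) := mul_le_mul_of_nonneg_left hEu hA0.le
    linarith
  · intro x hx
    have h1 : A * E ≤ A * ((8 + C0) * EE μ n) := mul_le_mul_of_nonneg_left hEu hA0.le
    have h2 : 0 ≤ A * ((8 + C0) * EE μ n) := by positivity
    have h3 := hins x hx
    linarith
  · have h1 : EE μ n ≤ A * E := by nlinarith
    exact lt_of_le_of_lt h1 hout1
  · intro m hm h' z hh'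
    obtain ⟨g1, g2⟩ := abs_le.1 hh'
    have hY0 : 0 < 9 * (A * E) := by linarith
    have hw2 : (w : ℝ) / 3 ≤ w - 2 := by linarith
    have hκw : A * E / 144 ≤ h / 2 * ((w : ℝ) - 2) := by
      have h1 : h / 2 * ((w : ℝ) / 3) ≤ h / 2 * ((w : ℝ) - 2) := mul_le_mul_of_nonneg_left hw2 (by linarith)
      have h2 : h / 2 * ((w : ℝ) / 3) = A * E / 144 := by
        have : h / 2 * ((w : ℝ) / 3) = (h * w) / 6 := by ring
        rw [this, hhw]
        ring
      linarith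
    have N : Nm (1 / 2) ((w : ℝ) - 2) (-h) h' h (A * E / 144) := by
      have hw20 : 0 ≤ (w : ℝ) - 2 := by linarith
      refine ⟨by norm_num, by norm_num, by linarith, ?_, ?_, by linarith, by linarith, by positivity, ?_, ?_⟩
      · rw [abs_neg, abs_of_pos hh0]
        exact hh1
      · rw [abs_of_pos hh0]
        exact hh1
      · exact hκw.trans (mul_le_mul_of_nonneg_right (by linarith) hw20)
      · exact hκw.trans (mul_le_mul_of_nonneg_right (by linarith) hw20)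
    have hYκ : 9 * (A * E) / (A * E / 144) = 1296 := by
      field_simp
      norm_num
    have hmain := hcore n (1 / 2) ((w : ℝ) - 2) (-h) h' h (A * E / 144) (9 * (A * E)) hn1' (by linarith) N
      (by positivity) (by nlinarith) (by nlinarith) (by rw [hYκ]; norm_num) (fun m' z' hm' => by
        rw [hYκ]
        have h1 := hit_le hEM hFr hm' z'
        rw [← hh] at h1
        have h2 : 2500 / A ≤ p0 / (2 * 2597) := by
          rw [div_le_div_iff₀ hA0 (by norm_num)]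
          rw [div_le_iff₀ hp0] at hAp
          linarith
        have h3 : 64 * p = p0 / (2 * 2597) := by
          rw [hp]
          ring
        have h4 : (5 + 2 * (1296 : ℝ)) * (p0 / (2 * 2597) + p0 / (2 * 2597)) = p0 := by ring
        calc (5 + 2 * (1296 : ℝ)) * _ ≤ (5 + 2 * (1296 : ℝ)) * (p0 / (2 * 2597) + p0 / (2 * 2597)) :=
              mul_le_mul_of_nonneg_left (by linarith) (by norm_num)
          _ = p0 := h4) z
    refine le_trans (integral_mono ?_ ?_ fun η => ?_) hmain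
    · have h1 := ((Sub_Mh (μ := μ) (s := 0) (v := 1 / 2) (h := h') (w := (w : ℝ) - 2) (z := z)
        (n := m)).const_mul (1 / (9 * (A * E)))).exp_int hEM
      refine h1.congr (Filter.Eventually.of_forall fun η => ?_)
      show Real.exp _ = Real.exp _
      congr 1
      ring
    · have h1 := ((Sub_Mh (μ := μ) (s := 0) (v := 1 / 2) (h := h') (w := (w : ℝ) - 2) (z := z)
        (n := n)).const_mul (1 / (9 * (A * E)))).exp_int hEM
      refine h1.congr (Filter.Eventually.of_forall fun η => ?_)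
      show Real.exp _ = Real.exp _
      congr 1
      ring
    · refine Real.exp_le_exp.2 (div_le_div_of_nonneg_right ?_ hY0.le)
      exact Mh_mono_n (by norm_num) (by norm_num) hm η

end

end Pool.Agent.W_7d29a1_h30g
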