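import Pool.Agent.W_7d29a1_h30g.Fr1
import Pool.Agent.W_7d29a1_h30g.Maximal

/-!
ROW 620, file 4: the mean of `xi`, the maximal inequality and the luck with a one sided tilt of the starts on a line. (helper32)
-/

namespace Pool.Agent.W_7d29a1_h30g

open MeasureTheory ProbabilityTheory Pool.Agent.W_7d29a1_F Pool.Agent.W_7d29a1_h95g

noncomputable section

variable {μ : Measure ℝ} {s : ℝ} {g : ℤ → ℤ} {ε : ℤ} {w n : ℕ} {c : ℤ} {C : ℝ}

/-- The good event of the line `c` for the direction `ε`. -/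
def Gd (μ : Measure ℝ) (s : ℝ) (g : ℤ → ℤ) (ε : ℤ) (w n : ℕ) (C : ℝ) (c : ℤ) (η : Env) : Prop :=
  Lk μ s g n c η ≤ C / 8 ∧ ∀ k : ℕ, 1 ≤ k → k ≤ n + 1 →
    ∑ i ∈ Finset.range k, xi μ s g ε w n C (c + i * (ε * w)) η ≤ C / 4 * k

/-- On the good event the tilted weights of the starts of the line are at most `exp (C / 2)`. PROOF. `h w = C / 8`. The sum over `y` is
at most the sum over `k ≤ n` of (`y` with `k w ≤ ε rl < (k + 1) w`, weight `≤ exp (h (k + 1) w)`) plus the `y` with `ε rl < 0`; `k = 0`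
and `ε rl < 0`: at most `exp (C / 8 + Lk) ≤ exp (2 C / 8)` by `le_Lk`; `k ≥ 1`: `beyond_le`: `exp ((k + 1) C / 8 - C k + C k / 4)`.
`|rl| ≤ m ≤ n` so `k ≤ n`. -/
theorem Wh_of_Gd (hg : Stp g) (hε : ε = 1 ∨ ε = -1) (hw : 1 ≤ w) (hC : 16 ≤ C) {h : ℝ} (hh : h = C / (8 * w))
    {η : Env} (hG : Gd μ s g ε w n C c η) (t m : ℕ) (htm : t + m ≤ n) :
    Wh μ s g ε h η t (ln g c t) m ≤ Real.exp (C / 2) := by
  have hC0 : 0 < C := by linarith
  have hwR : (0 : ℝ) < w := by exact_mod_cast hw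
  have hh0 : 0 ≤ h := by
    rw [hh]
    positivity
  have hhw : h * w = C / 8 := by
    rw [hh]
    field_simp
  obtain ⟨hL, hX⟩ := hG
  -- the weights
  have hWn : ∀ y, 0 ≤ W μ s η ((t : ℤ), ln g c t) m y := fun y => WR_nonneg _ _ _ _ _
  have hsum : ∑ y ∈ Finset.Icc (0 : ℤ) m, W μ s η ((t : ℤ), ln g c t) m y ≤ Real.exp (C / 8) := by
    have hpos : 0 < WS μ s η ((t : ℤ), ln g c t) m (Finset.Icc (0 : ℤ) m) := by
      unfold WS
      refine Finset.sum_pos (fun y hy => ?_) ⟨0, by simp⟩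
      rw [Finset.mem_Icc] at hy
      unfold W WR
      exact mul_pos (Real.exp_pos _) (Zr_pos _ _ hy.1 hy.2)
    have h1 : ∑ y ∈ Finset.Icc (0 : ℤ) m, W μ s η ((t : ℤ), ln g c t) m y =
        Real.exp (V μ s η ((t : ℤ), ln g c t) m) := by
      unfold V
      rw [Real.exp_log hpos]
      rfl
    rw [h1]
    exact Real.exp_le_exp.2 ((le_Lk η htm).trans hL)
  -- the tilt
  have key : ∀ y ∈ Finset.Icc (0 : ℤ) m, Real.exp (h * max 0 ((ε * rl g t m y : ℤ) : ℝ)) ≤
      Real.exp (C / 8) + ∑ k ∈ Finset.range n, (if ((k + 1 : ℕ) : ℤ) * w ≤ ε * rl g t m y then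
        Real.exp ((((k + 1 : ℕ) : ℝ) + 1) * (C / 8)) else 0) := by
    intro y hy
    rw [Finset.mem_Icc] at hy
    have hrm : ε * rl g t m y ≤ m := by
      have h1 := hg.mono t m
      unfold rl
      rcases hε with rfl | rfl <;> omega
    obtain ⟨r, hr⟩ : ∃ r : ℤ, r = ε * rl g t m y := ⟨_, rfl⟩
    rw [← hr] at hrm ⊢
    have hsn : ∀ k ∈ Finset.range n, (0 : ℝ) ≤ if ((k + 1 : ℕ) : ℤ) * w ≤ r then
        Real.exp ((((k + 1 : ℕ) : ℝ) + 1) * (C / 8)) else 0 := by
      intro k _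
      split_ifs
      · exact (Real.exp_pos _).le
      · exact le_rfl
    rcases lt_or_ge r w with hlt | hge
    · have h1 : h * max 0 (r : ℝ) ≤ C / 8 := by
        rw [← hhw]
        refine mul_le_mul_of_nonneg_left (max_le hwR.le ?_) hh0
        exact_mod_cast hlt.le
      have h2 := Finset.sum_nonneg hsn
      have h3 := Real.exp_le_exp.2 h1
      linarith
    · have hw0 : (0 : ℤ) < w := by exact_mod_cast hw
      have hq1 : 1 ≤ r / w := by
        rw [Int.le_ediv_iff_mul_le hw0, one_mul]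
        exact hge
      have hq2 : r / w * w ≤ r := Int.ediv_mul_le r hw0.ne'
      have hq3 : r < (r / w + 1) * w := Int.lt_ediv_add_one_mul_self r hw0
      obtain ⟨k, hk⟩ : ∃ k : ℕ, ((k + 1 : ℕ) : ℤ) = r / w := ⟨(r / w - 1).toNat, by push_cast; omega⟩
      rw [← hk] at hq2 hq3
      have hkn : k < n := by
        have h1 : ((k + 1 : ℕ) : ℤ) * 1 ≤ ((k + 1 : ℕ) : ℤ) * w :=
          mul_le_mul_of_nonneg_left (by omega) (by positivity)
        have h2 : ((k + 1 : ℕ) : ℤ) ≤ n := by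
          have h3 : (m : ℤ) ≤ n := by
            have : m ≤ n := by omega
            exact_mod_cast this
          linarith
        have h4 : k + 1 ≤ n := by exact_mod_cast h2
        omega
      have h1 := Finset.single_le_sum hsn (Finset.mem_range.2 hkn)
      rw [if_pos hq2] at h1
      have hr0 : (0 : ℝ) ≤ r := by
        have : (0 : ℤ) ≤ r := by linarith
        exact_mod_cast this
      have h2 : h * max 0 (r : ℝ) ≤ (((k + 1 : ℕ) : ℝ) + 1) * (C / 8) := by
        rw [max_eq_right hr0, ← hhw]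
        have h3 : (r : ℝ) ≤ (((k + 1 : ℕ) : ℝ) + 1) * w := by
          have h4 : (r : ℝ) < (((((k + 1 : ℕ) : ℤ) + 1) * (w : ℤ) : ℤ) : ℝ) := by exact_mod_cast hq3
          push_cast at h4 ⊢
          exact h4.le
        calc h * r ≤ h * ((((k + 1 : ℕ) : ℝ) + 1) * w) := mul_le_mul_of_nonneg_left h3 hh0
          _ = (((k + 1 : ℕ) : ℝ) + 1) * (h * w) := by ring
      have h3 := Real.exp_le_exp.2 h2
      have h4 := Real.exp_pos (C / 8)
      linarith
  -- the sum
  have h1 : Wh μ s g ε h η t (ln g c t) m ≤ ∑ y ∈ Finset.Icc (0 : ℤ) m, W μ s η ((t : ℤ), ln g c t) m y *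
      (Real.exp (C / 8) + ∑ k ∈ Finset.range n, (if ((k + 1 : ℕ) : ℤ) * w ≤ ε * rl g t m y then
        Real.exp ((((k + 1 : ℕ) : ℝ) + 1) * (C / 8)) else 0)) := by
    unfold Wh
    exact Finset.sum_le_sum fun y hy => mul_le_mul_of_nonneg_left (key y hy) (hWn y)
  have h2 : ∑ y ∈ Finset.Icc (0 : ℤ) m, W μ s η ((t : ℤ), ln g c t) m y *
      (Real.exp (C / 8) + ∑ k ∈ Finset.range n, (if ((k + 1 : ℕ) : ℤ) * w ≤ ε * rl g t m y then
        Real.exp ((((k + 1 : ℕ) : ℝ) + 1) * (C / 8)) else 0)) =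
      (∑ y ∈ Finset.Icc (0 : ℤ) m, W μ s η ((t : ℤ), ln g c t) m y) * Real.exp (C / 8) +
      ∑ k ∈ Finset.range n, Real.exp ((((k + 1 : ℕ) : ℝ) + 1) * (C / 8)) *
        ∑ y ∈ (Finset.Icc (0 : ℤ) m).filter (fun y => ((k + 1 : ℕ) : ℤ) * w ≤ ε * rl g t m y),
          W μ s η ((t : ℤ), ln g c t) m y := by
    rw [Finset.sum_mul]
    simp only [mul_add, Finset.sum_add_distrib]
    congr 1
    simp only [Finset.mul_sum]
    rw [Finset.sum_comm]
    refine Finset.sum_congr rfl fun k _ => ?_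
    rw [Finset.sum_filter]
    refine Finset.sum_congr rfl fun y _ => ?_
    split_ifs
    · ring
    · ring
  have h3 : ∀ k ∈ Finset.range n, Real.exp ((((k + 1 : ℕ) : ℝ) + 1) * (C / 8)) *
        ∑ y ∈ (Finset.Icc (0 : ℤ) m).filter (fun y => ((k + 1 : ℕ) : ℤ) * w ≤ ε * rl g t m y),
          W μ s η ((t : ℤ), ln g c t) m y ≤ Real.exp (C / 8) * (1 / 2) ^ (k + 1) := by
    intro k hk
    rw [Finset.mem_range] at hk
    have h4 := beyond_le (μ := μ) (s := s) hg hε hw η (k := k + 1) (by omega) c t m htm C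
    have h5 := hX (k + 1) (by omega) (by omega)
    have h6 : Real.exp (-(C * ((k + 1 : ℕ) : ℝ)) +
        ∑ i ∈ Finset.range (k + 1), xi μ s g ε w n C (c + i * (ε * w)) η) ≤
        Real.exp (-(C * ((k + 1 : ℕ) : ℝ)) + C / 4 * ((k + 1 : ℕ) : ℝ)) :=
      Real.exp_le_exp.2 (by linarith)
    have h7 : Real.exp (-10 : ℝ) ≤ 1 / 2 := by
      rw [Real.exp_neg, one_div]
      refine inv_anti₀ (by norm_num) ?_
      have := Real.add_one_le_exp (10 : ℝ)
      linarith
    calc _ ≤ Real.exp ((((k + 1 : ℕ) : ℝ) + 1) * (C / 8)) *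
          Real.exp (-(C * ((k + 1 : ℕ) : ℝ)) + C / 4 * ((k + 1 : ℕ) : ℝ)) :=
          mul_le_mul_of_nonneg_left (h4.trans h6) (Real.exp_pos _).le
      _ ≤ Real.exp (C / 8 + ((k + 1 : ℕ) : ℝ) * (-10)) := by
          rw [← Real.exp_add]
          refine Real.exp_le_exp.2 ?_
          have h8 : (0 : ℝ) ≤ ((k + 1 : ℕ) : ℝ) := Nat.cast_nonneg _
          nlinarith
      _ = Real.exp (C / 8) * Real.exp (-10) ^ (k + 1) := by
          rw [Real.exp_add, Real.exp_nat_mul]
      _ ≤ _ := mul_le_mul_of_nonneg_left (pow_le_pow_left₀ (Real.exp_pos _).le h7 _) (Real.exp_pos _).le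
  have h4 : ∑ k ∈ Finset.range n, Real.exp (C / 8) * (1 / 2 : ℝ) ^ (k + 1) ≤ Real.exp (C / 8) := by
    rw [← Finset.mul_sum]
    have h5 : ∀ N : ℕ, ∑ k ∈ Finset.range N, (1 / 2 : ℝ) ^ (k + 1) = 1 - (1 / 2) ^ N := by
      intro N
      induction N with
      | zero => simp
      | succ N ih =>
        rw [Finset.sum_range_succ, ih]
        ring
    rw [h5]
    have h6 : (0 : ℝ) ≤ (1 / 2) ^ n := by positivity
    have h7 := Real.exp_pos (C / 8)
    nlinarith
  have h5 := Finset.sum_le_sum h3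
  have h6 : (∑ y ∈ Finset.Icc (0 : ℤ) m, W μ s η ((t : ℤ), ln g c t) m y) * Real.exp (C / 8) ≤
      Real.exp (C / 8) * Real.exp (C / 8) := mul_le_mul_of_nonneg_right hsum (Real.exp_pos _).le
  have h7 : Real.exp (C / 8) * Real.exp (C / 8) + Real.exp (C / 8) ≤ Real.exp (C / 2) := by
    have e1 : Real.exp (C / 2) = Real.exp (C / 8) * Real.exp (C / 8) * (Real.exp (C / 8) * Real.exp (C / 8)) := by
      rw [← Real.exp_add, ← Real.exp_add]
      congr 1
      ring
    have h8 : (2 : ℝ) ≤ Real.exp (C / 8) := by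
      have := Real.add_one_le_exp (C / 8)
      linarith
    rw [e1]
    nlinarith [mul_nonneg (sub_nonneg.2 h8) (sub_nonneg.2 h8), Real.exp_pos (C / 8), mul_pos (Real.exp_pos (C / 8)) (Real.exp_pos (C / 8))]
  rw [h2] at h1
  linarith

theorem measurableSet_Gd : MeasurableSet {η | Gd μ s g ε w n C c η} := by
  have h1 : {η | Gd μ s g ε w n C c η} = {η | Lk μ s g n c η ≤ C / 8} ∩ ⋂ k ∈ Set.Icc 1 (n + 1),
      {η | ∑ i ∈ Finset.range k, xi μ s g ε w n C (c + i * (ε * w)) η ≤ C / 4 * (k : ℝ)} := by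
    ext η
    simp only [Gd, Set.mem_inter_iff, Set.mem_ofPred_eq, Set.mem_iInter, Set.mem_Icc, and_imp]
  rw [h1]
  refine (measurableSet_le Sub_Lk.1 measurable_const).inter
    (MeasurableSet.biInter (Set.to_countable _) fun k _ => ?_)
  exact measurableSet_le (Finset.measurable_sum _ fun i _ => measurable_xi) measurable_const

variable [IsProbabilityMeasure μ]

/-- The law of `xi` does not depend on the line. -/
theorem integral_xi (c : ℤ) :
    ∫ η, xi μ s g ε w n C c η ∂(law μ) = ∫ η, xi μ s g ε w n C 0 η ∂(law μ) := by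
  have h := (mp_sh (μ := μ) ((0, c) : Pt)).map_eq
  have h1 : ∀ η : Env, xi μ s g ε w n C c η = xi μ s g ε w n C 0 (sh (0, c) η) := by
    intro η
    rw [xi_sh, zero_add]
  calc ∫ η, xi μ s g ε w n C c η ∂(law μ) = ∫ η, xi μ s g ε w n C 0 (sh (0, c) η) ∂(law μ) := by simp only [h1]
    _ = ∫ η, xi μ s g ε w n C 0 η ∂(Measure.map (sh ((0, c) : Pt)) (law μ)) :=
        (integral_map (mp_sh (μ := μ) ((0, c) : Pt)).measurable.aemeasurable
          measurable_xi.aestronglyMeasurable).symm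
    _ = _ := by rw [h]

/-- PROOF. `log (max (e^C U) 1) ≤ 1_(U ≥ e^(-C)) (C + log n + Lk)` by `Us_le_Lk`; `Lk ≥ 0`. -/
theorem mean_xi (hEM : Pool.Agent.W_7d29a1_h47.EM μ) (hn : 1 ≤ n) (hC : 0 ≤ C) {L p : ℝ}
    (hL : ∀ c : ℤ, ∫ η, Lk μ s g n c η ∂(law μ) ≤ L)
    (hp : (law μ).real {η | Real.exp (-C) ≤ Us μ s g ε w n c η} ≤ p) :
    ∫ η, xi μ s g ε w n C c η ∂(law μ) ≤ 2 * L + p * (C + Real.log n) := by
  classical
  have hn' : (1 : ℝ) ≤ n := by exact_mod_cast hn
  have hlog : 0 ≤ Real.log n := Real.log_nonneg hn'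
  obtain ⟨B, hB⟩ : ∃ B : Set Env, B = {η | Real.exp (-C) ≤ Us μ s g ε w n c η} := ⟨_, rfl⟩
  have hBm : MeasurableSet B := by
    rw [hB]
    exact measurableSet_le measurable_const measurable_Us
  have h1 : ∀ η, xi μ s g ε w n C c η ≤ B.indicator (fun _ => C + Real.log n) η + Lk μ s g n c η +
      Lk μ s g n (c + ε * w) η := by
    intro η
    have hL0 := Lk_nonneg (μ := μ) (s := s) (g := g) (n := n) (c := c) η
    by_cases hη : η ∈ B
    · rw [Set.indicator_of_mem hη]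
      exact xi_le hn hC η
    · rw [Set.indicator_of_notMem hη, zero_add]
      have h2 : Us μ s g ε w n c η < Real.exp (-C) := by
        rw [hB] at hη
        exact not_le.1 hη
      have h3 : Real.exp C * Us μ s g ε w n c η ≤ 1 := by
        calc Real.exp C * Us μ s g ε w n c η ≤ Real.exp C * Real.exp (-C) :=
              mul_le_mul_of_nonneg_left h2.le (Real.exp_pos _).le
          _ = 1 := by rw [← Real.exp_add, add_neg_cancel, Real.exp_zero]
      unfold xi
      rw [max_eq_right h3, Real.log_one]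
      linarith
  have hi1 : Integrable (fun η => B.indicator (fun _ => C + Real.log n) η) (law μ) :=
    (integrable_const _).indicator hBm
  have hi2 : ∀ c : ℤ, Integrable (fun η => Lk μ s g n c η) (law μ) := fun c => Sub_Lk.integrable hEM
  calc ∫ η, xi μ s g ε w n C c η ∂(law μ)
      ≤ ∫ η, (B.indicator (fun _ => C + Real.log n) η + Lk μ s g n c η + Lk μ s g n (c + ε * w) η) ∂(law μ) :=
        integral_mono ((Sub_xi hn hC).integrable hEM) ((hi1.add (hi2 _)).add (hi2 _)) h1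
    _ = ∫ η, B.indicator (fun _ => C + Real.log n) η ∂(law μ) + ∫ η, Lk μ s g n c η ∂(law μ) +
        ∫ η, Lk μ s g n (c + ε * w) η ∂(law μ) := by
        have e1 := integral_add (μ := law μ) (f := fun η => B.indicator (fun _ => C + Real.log n) η + Lk μ s g n c η)
          (g := fun η => Lk μ s g n (c + ε * w) η) (hi1.add (hi2 c)) (hi2 (c + ε * w))
        have e2 := integral_add (μ := law μ) (f := fun η => B.indicator (fun _ => C + Real.log n) η)
          (g := fun η => Lk μ s g n c η) hi1 (hi2 c)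
        rw [e1, e2]
    _ ≤ p * (C + Real.log n) + L + L := by
        refine add_le_add (add_le_add ?_ (hL _)) (hL _)
        rw [integral_indicator_const _ hBm, smul_eq_mul]
        rw [← hB] at hp
        exact mul_le_mul_of_nonneg_right hp (by linarith)
    _ = _ := by ring

/-- PROOF. `maximal_le` with `T = sh (0, ε w)` (`xi_iterate`, `mp_sh`), Markov for `Lk`. -/
theorem Gd_prob (hEM : Pool.Agent.W_7d29a1_h47.EM μ) (hn : 1 ≤ n) (hC : 0 < C) {L p : ℝ}
    (hL : ∀ c : ℤ, ∫ η, Lk μ s g n c η ∂(law μ) ≤ L)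
    (hp : ∀ c : ℤ, (law μ).real {η | Real.exp (-C) ≤ Us μ s g ε w n c η} ≤ p) (c : ℤ) :
    (law μ).real {η | ¬ Gd μ s g ε w n C c η} ≤ 16 * L / C + 4 * p * (C + Real.log n) / C := by
  classical
  have hn' : (1 : ℝ) ≤ n := by exact_mod_cast hn
  obtain ⟨B1, hB1⟩ : ∃ B : Set Env, B = {η | C / 8 ≤ Lk μ s g n c η} := ⟨_, rfl⟩
  obtain ⟨B2, hB2⟩ : ∃ B : Set Env, B = {η | ∃ k, 1 ≤ k ∧ k ≤ n + 1 ∧
    C / 4 * k ≤ ∑ i ∈ Finset.range k, xi μ s g ε w n C c ((sh ((0, ε * w) : Pt))^[i] η)} := ⟨_, rfl⟩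
  have hsub : {η | ¬ Gd μ s g ε w n C c η} ⊆ B1 ∪ B2 := by
    intro η hη
    by_contra hcon
    rw [Set.mem_union, not_or] at hcon
    apply hη
    refine ⟨?_, fun k hk1 hk2 => ?_⟩
    · by_contra h
      apply hcon.1
      rw [hB1]
      exact (not_le.1 h).le
    · by_contra h
      apply hcon.2
      rw [hB2]
      refine ⟨k, hk1, hk2, ?_⟩
      simp only [xi_iterate]
      exact (not_le.1 h).le
  have h1 : (law μ).real B1 ≤ 8 * L / C := by
    have h2 := mul_meas_ge_le_integral_of_nonneg (μ := law μ) (f := fun η => Lk μ s g n c η)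
      (Filter.Eventually.of_forall fun η => Lk_nonneg η) (Sub_Lk.integrable hEM) (C / 8)
    rw [← hB1] at h2
    have h3 := h2.trans (hL c)
    rw [le_div_iff₀ hC]
    linarith
  have h2 : (law μ).real B2 ≤ (2 * L + p * (C + Real.log n)) / (C / 4) := by
    rw [hB2]
    refine (maximal_le (mp_sh (μ := μ) ((0, ε * w) : Pt)) measurable_xi ((Sub_xi hn hC.le).integrable hEM)
      (fun η => xi_nonneg η) (by positivity) (n + 1)).trans ?_
    exact div_le_div_of_nonneg_right (mean_xi hEM hn hC.le hL (hp c)) (by positivity)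
  calc (law μ).real {η | ¬ Gd μ s g ε w n C c η} ≤ (law μ).real (B1 ∪ B2) := measureReal_mono hsub
    _ ≤ (law μ).real B1 + (law μ).real B2 := measureReal_union_le _ _
    _ ≤ 8 * L / C + (2 * L + p * (C + Real.log n)) / (C / 4) := add_le_add h1 h2
    _ = _ := by
        field_simp
        ring

end

end Pool.Agent.W_7d29a1_h30g
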