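import Pool.Agent.W_7d29a1_h95g.TubeDet
import Pool.Agent.W_7d29a1_L.LsDefs

/-!
Proofs row 620, (4): the paths from a start in the strip between two lines. Decomposition at the first visit
of one of the two lines: the tilted luck of the start is at most the luck of the start (without tilt), the tilt of the
strip, the largest tilted luck of the points of the two lines and `log (1 + 2 m)`.
-/

namespace Pool.Agent.W_7d29a1_h30g

open MeasureTheory ProbabilityTheory Filter Topology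
open Pool.Agent.W_7d29a1_F Pool.Agent.W_7d29a1_h95g Pool.Agent.W_7d29a1_L

variable {μ : Measure ℝ} [IsProbabilityMeasure μ] {s : ℝ}

private theorem WR5 (s : ℝ) (R : Set Pt) (η : Env) (a : Pt) (n : ℕ) (y : ℤ) :
    WR μ s R η a n y = Real.exp (s * y - n * lam μ s) * Zr R η a n y := rfl

private theorem expT5 {v h : ℝ} (η : Env) (a : Pt) (n : ℕ) :
    Real.exp (T μ s v h η a n) =
      ∑ y ∈ Finset.Icc (0 : ℤ) n, W μ s η a n y * Real.exp (h * ((y : ℝ) - v * n)) := by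
  unfold T
  rw [Real.exp_add, exp_V, WS, Finset.sum_mul]
  refine Finset.sum_congr rfl fun y _ => ?_
  unfold W kap
  rw [WR5, WR5]
  have e1 : Real.exp ((s + h) * (y : ℝ) - n * lam μ (s + h)) * Real.exp (n * (lam μ (s + h) - lam μ s - h * v)) =
      Real.exp (s * (y : ℝ) - n * lam μ s) * Real.exp (h * ((y : ℝ) - v * n)) := by
    rw [← Real.exp_add, ← Real.exp_add]
    congr 1
    ring
  calc Real.exp ((s + h) * (y : ℝ) - n * lam μ (s + h)) * Zr Set.univ η a n y *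
        Real.exp (n * (lam μ (s + h) - lam μ s - h * v))
      = Real.exp ((s + h) * (y : ℝ) - n * lam μ (s + h)) * Real.exp (n * (lam μ (s + h) - lam μ s - h * v)) *
          Zr Set.univ η a n y := by ring
    _ = _ := by
        rw [e1]
        ring

/-- A shifted sum of a function which vanishes outside of `[0, n]`. -/
private theorem sum5 {f : ℤ → ℝ} {m n : ℕ} {d : ℤ} (hf : ∀ y : ℤ, ¬ (0 ≤ y ∧ y ≤ n) → f y = 0) (hd : 0 ≤ d)
    (hdn : d + n ≤ m) : ∑ y ∈ Finset.Icc (0 : ℤ) m, f (y - d) = ∑ y ∈ Finset.Icc (0 : ℤ) n, f y := by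
  have h1 : ∑ y ∈ (Finset.Icc (0 : ℤ) n).image (fun y => y + d), f (y - d) = ∑ y ∈ Finset.Icc (0 : ℤ) n, f y := by
    rw [Finset.sum_image fun x _ y _ hxy => by simpa using hxy]
    refine Finset.sum_congr rfl fun y _ => ?_
    rw [add_sub_cancel_right]
  rw [← h1]
  symm
  refine Finset.sum_subset (fun y hy => ?_) fun y _ hy => hf _ fun hy' => hy ?_
  · rw [Finset.mem_image] at hy
    obtain ⟨x, hx, rfl⟩ := hy
    rw [Finset.mem_Icc] at hx ⊢
    omega
  · rw [Finset.mem_image]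
    refine ⟨y - d, Finset.mem_Icc.2 hy', by ring⟩

/-- Row 620, (4), for two lines. `D` bounds the tilt of the displacements inside the strip. -/
theorem T_strip {lm lp : ℤ → ℤ} (hm : IsLine lm) (hp : IsLine lp) (hlt : ∀ t, lm t ≤ lp t) {v h D M₀ B : ℝ} (η : Env)
    (a : Pt) (m : ℕ) (ham : lm a.1 ≤ a.2) (hap : a.2 ≤ lp a.1)
    (hD : ∀ (k : ℕ) (x : ℤ), k ≤ m → lm (a.1 + k) ≤ x → x ≤ lp (a.1 + k) → h * (((x - a.2 : ℤ) : ℝ) - v * k) ≤ D)
    (hM : ∀ k ≤ m, V μ s η a k ≤ M₀) (hB0 : 0 ≤ B)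
    (hBm : ∀ k ≤ m, T μ s v h η (a.1 + k, lm (a.1 + k)) (m - k) ≤ B)
    (hBp : ∀ k ≤ m, T μ s v h η (a.1 + k, lp (a.1 + k)) (m - k) ≤ B) :
    T μ s v h η a m ≤ M₀ + D + B + Real.log (1 + 2 * m) := by
  have hM0 : 0 ≤ M₀ := by
    have := hM 0 (Nat.zero_le _)
    rwa [V_zero] at this
  have hD0 : 0 ≤ D := by
    have := hD 0 a.2 (Nat.zero_le _) (by simpa using ham) (by simpa using hap)
    simpa using this
  have hlog : 0 ≤ Real.log (1 + 2 * (m : ℝ)) := Real.log_nonneg (by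
    have : (0 : ℝ) ≤ m := Nat.cast_nonneg _
    linarith)
  rcases ham.eq_or_lt with h1 | h1
  · have h2 := hBm 0 (Nat.zero_le _)
    have h3 : ((a.1 + ((0 : ℕ) : ℤ), lm (a.1 + ((0 : ℕ) : ℤ))) : Pt) = a := by
      rw [Nat.cast_zero, add_zero, h1]
    rw [h3, Nat.sub_zero] at h2
    linarith
  rcases hap.eq_or_lt with h1' | h1'
  · have h2 := hBp 0 (Nat.zero_le _)
    have h3 : ((a.1 + ((0 : ℕ) : ℤ), lp (a.1 + ((0 : ℕ) : ℤ))) : Pt) = a := by
      rw [Nat.cast_zero, add_zero, ← h1']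
    rw [h3, Nat.sub_zero] at h2
    linarith
  -- the shifted lines
  obtain ⟨km, hkm⟩ : ∃ km : ℤ → ℤ, km = fun t => lm (t + a.1) - a.2 := ⟨_, rfl⟩
  obtain ⟨kp, hkp⟩ : ∃ kp : ℤ → ℤ, kp = fun t => lp (t + a.1) - a.2 := ⟨_, rfl⟩
  have hLm : IsLine km := by
    rw [hkm]
    constructor
    · intro t
      have := hm.lo (t + a.1)
      have e1 : t + 1 + a.1 = t + a.1 + 1 := by ring
      show lm (t + a.1) - a.2 ≤ lm (t + 1 + a.1) - a.2
      rw [e1]
      omega
    · intro t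
      have := hm.hi (t + a.1)
      have e1 : t + 1 + a.1 = t + a.1 + 1 := by ring
      show lm (t + 1 + a.1) - a.2 ≤ lm (t + a.1) - a.2 + 1
      rw [e1]
      omega
  have hLp : IsLine kp := by
    rw [hkp]
    constructor
    · intro t
      have := hp.lo (t + a.1)
      have e1 : t + 1 + a.1 = t + a.1 + 1 := by ring
      show lp (t + a.1) - a.2 ≤ lp (t + 1 + a.1) - a.2
      rw [e1]
      omega
    · intro t
      have := hp.hi (t + a.1)
      have e1 : t + 1 + a.1 = t + a.1 + 1 := by ring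
      show lp (t + 1 + a.1) - a.2 ≤ lp (t + a.1) - a.2 + 1
      rw [e1]
      omega
  have hm0 : km 0 < 0 := by
    rw [hkm]
    show lm (0 + a.1) - a.2 < 0
    rw [zero_add]
    omega
  have hp0 : 0 < kp 0 := by
    rw [hkp]
    show 0 < lp (0 + a.1) - a.2
    rw [zero_add]
    omega
  obtain ⟨w, hw⟩ : ∃ w : ℤ → ℝ, w = fun y : ℤ => Real.exp (h * ((y : ℝ) - v * m)) := ⟨_, rfl⟩
  have hw0 : ∀ y, 0 ≤ w y := fun y => by
    rw [hw]
    exact (Real.exp_pos _).le
  -- the part in the strip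
  have part0 : ∑ y ∈ Finset.Icc (0 : ℤ) m, WR μ s (Tb km kp) (sh a η) 0 m y * w y ≤ Real.exp (M₀ + D) := by
    have h2 : ∀ y ∈ Finset.Icc (0 : ℤ) m, WR μ s (Tb km kp) (sh a η) 0 m y * w y ≤ W μ s η a m y * Real.exp D := by
      intro y _
      by_cases hz : Zr (Tb km kp) (sh a η) 0 m y = 0
      · rw [WR5, hz, mul_zero, zero_mul]
        exact mul_nonneg (W_nonneg _ _ _ _) (Real.exp_pos _).le
      · have h3 : WR μ s (Tb km kp) (sh a η) 0 m y ≤ W μ s η a m y := by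
          refine (WR_le_W _ _ _ _ _).trans (le_of_eq ?_)
          rw [W_sh, zero_add]
        have h4 : lm (a.1 + m) ≤ a.2 + y ∧ a.2 + y ≤ lp (a.1 + m) := by
          rcases mem_of_Zr_ne_zero hz with ⟨h5, h6⟩ | h5
          · rw [h5, h6]
            simp only [Nat.cast_zero, add_zero]
            exact ⟨ham, hap⟩
          · have h6 : km (((0 : Pt).1) + (m : ℤ)) < ((0 : Pt).2) + y ∧ ((0 : Pt).2) + y < kp (((0 : Pt).1) + (m : ℤ)) := h5
            rw [hkm, hkp] at h6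
            have e1 : ((0 : Pt).1) + (m : ℤ) + a.1 = a.1 + m := by
              show (0 : ℤ) + (m : ℤ) + a.1 = a.1 + m
              ring
            have e2 : ((0 : Pt).2) + y = y := by
              show (0 : ℤ) + y = y
              ring
            simp only [e1, e2] at h6
            omega
        have h5 : w y ≤ Real.exp D := by
          rw [hw]
          refine Real.exp_le_exp.2 ?_
          have h6 := hD m (a.2 + y) le_rfl h4.1 h4.2
          rwa [add_sub_cancel_left] at h6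
        exact mul_le_mul h3 h5 (hw0 y) (W_nonneg _ _ _ _)
    refine (Finset.sum_le_sum h2).trans ?_
    rw [← Finset.sum_mul, Real.exp_add]
    refine mul_le_mul_of_nonneg_right ?_ (Real.exp_pos _).le
    have h3 : ∑ y ∈ Finset.Icc (0 : ℤ) m, W μ s η a m y = Real.exp (V μ s η a m) := (exp_V η a m).symm
    rw [h3]
    exact Real.exp_le_exp.2 (hM m le_rfl)
  -- the parts which visit a line
  have part1 : ∀ (l : ℤ → ℤ), (∀ t, lm t ≤ l t) → (∀ t, l t ≤ lp t) →
      (∀ k ≤ m, T μ s v h η (a.1 + k, l (a.1 + k)) (m - k) ≤ B) →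
      ∑ y ∈ Finset.Icc (0 : ℤ) m, (∑ k ∈ Finset.range m,
        W μ s (sh a η) 0 (k + 1) (l (((k + 1 : ℕ) : ℤ) + a.1) - a.2) *
          W μ s (sh a η) (((k + 1 : ℕ) : ℤ), l (((k + 1 : ℕ) : ℤ) + a.1) - a.2) (m - (k + 1))
            (y - (l (((k + 1 : ℕ) : ℤ) + a.1) - a.2))) * w y ≤ m * Real.exp (M₀ + D + B) := by
    intro l hl1 hl2 hlB
    have h2 : ∑ y ∈ Finset.Icc (0 : ℤ) m, (∑ k ∈ Finset.range m,
        W μ s (sh a η) 0 (k + 1) (l (((k + 1 : ℕ) : ℤ) + a.1) - a.2) *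
          W μ s (sh a η) (((k + 1 : ℕ) : ℤ), l (((k + 1 : ℕ) : ℤ) + a.1) - a.2) (m - (k + 1))
            (y - (l (((k + 1 : ℕ) : ℤ) + a.1) - a.2))) * w y =
        ∑ k ∈ Finset.range m, ∑ y ∈ Finset.Icc (0 : ℤ) m,
          W μ s (sh a η) 0 (k + 1) (l (((k + 1 : ℕ) : ℤ) + a.1) - a.2) *
            W μ s (sh a η) (((k + 1 : ℕ) : ℤ), l (((k + 1 : ℕ) : ℤ) + a.1) - a.2) (m - (k + 1))
              (y - (l (((k + 1 : ℕ) : ℤ) + a.1) - a.2)) * w y := by
      rw [Finset.sum_comm]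
      refine Finset.sum_congr rfl fun y _ => ?_
      rw [Finset.sum_mul]
    rw [h2]
    have h3 : ∀ k ∈ Finset.range m, ∑ y ∈ Finset.Icc (0 : ℤ) m,
          W μ s (sh a η) 0 (k + 1) (l (((k + 1 : ℕ) : ℤ) + a.1) - a.2) *
            W μ s (sh a η) (((k + 1 : ℕ) : ℤ), l (((k + 1 : ℕ) : ℤ) + a.1) - a.2) (m - (k + 1))
              (y - (l (((k + 1 : ℕ) : ℤ) + a.1) - a.2)) * w y ≤ Real.exp (M₀ + D + B) := by
      intro k hk
      rw [Finset.mem_range] at hk
      obtain ⟨d, hd⟩ : ∃ d : ℤ, d = l (((k + 1 : ℕ) : ℤ) + a.1) - a.2 := ⟨_, rfl⟩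
      rw [← hd]
      have ed : l (a.1 + ((k + 1 : ℕ) : ℤ)) = a.2 + d := by
        rw [hd, add_comm a.1]
        ring
      rw [W_sh, zero_add]
      by_cases hd1 : 0 ≤ d ∧ d ≤ ((k + 1 : ℕ) : ℤ)
      · have h4 : ∀ y ∈ Finset.Icc (0 : ℤ) m, W μ s η a (k + 1) d *
              W μ s (sh a η) (((k + 1 : ℕ) : ℤ), d) (m - (k + 1)) (y - d) * w y =
            (W μ s η a (k + 1) d * Real.exp (h * ((d : ℝ) - v * ((k + 1 : ℕ) : ℝ)))) *
              (fun y : ℤ => W μ s η (a.1 + ((k + 1 : ℕ) : ℤ), l (a.1 + ((k + 1 : ℕ) : ℤ))) (m - (k + 1)) y *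
                Real.exp (h * ((y : ℝ) - v * ((m - (k + 1) : ℕ) : ℝ)))) (y - d) := by
          intro y _
          have e1 : (((((k + 1 : ℕ) : ℤ), d) : Pt) + a) = (a.1 + ((k + 1 : ℕ) : ℤ), l (a.1 + ((k + 1 : ℕ) : ℤ))) := by
            rw [ed]
            ext
            · show ((k + 1 : ℕ) : ℤ) + a.1 = a.1 + ((k + 1 : ℕ) : ℤ)
              ring
            · show d + a.2 = a.2 + d
              ring
          rw [W_sh, e1, hw]
          have e2 : Real.exp (h * ((y : ℝ) - v * m)) = Real.exp (h * ((d : ℝ) - v * ((k + 1 : ℕ) : ℝ))) *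
              Real.exp (h * (((y - d : ℤ) : ℝ) - v * ((m - (k + 1) : ℕ) : ℝ))) := by
            rw [← Real.exp_add]
            congr 1
            rw [Nat.cast_sub (show k + 1 ≤ m by omega)]
            push_cast
            ring
          simp only
          rw [e2]
          ring
        rw [Finset.sum_congr rfl h4, ← Finset.mul_sum]
        have h5 := sum5 (f := fun y : ℤ => W μ s η (a.1 + ((k + 1 : ℕ) : ℤ), l (a.1 + ((k + 1 : ℕ) : ℤ))) (m - (k + 1)) y *
                Real.exp (h * ((y : ℝ) - v * ((m - (k + 1) : ℕ) : ℝ)))) (m := m) (n := m - (k + 1)) (d := d)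
          (fun y hy => by
            show W μ s η (a.1 + ((k + 1 : ℕ) : ℤ), l (a.1 + ((k + 1 : ℕ) : ℤ))) (m - (k + 1)) y * _ = 0
            rw [W_eq_zero η _ hy, zero_mul]) hd1.1 (by
            have := hd1.2
            push_cast [Nat.cast_sub (show k + 1 ≤ m by omega)] at this ⊢
            omega)
        rw [h5, ← expT5]
        have h6 : W μ s η a (k + 1) d ≤ Real.exp M₀ := by
          have h7 : W μ s η a (k + 1) d ≤ WS μ s η a (k + 1) (Finset.Icc (0 : ℤ) ((k + 1 : ℕ) : ℤ)) := by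
            unfold WS
            exact Finset.single_le_sum (f := fun y => W μ s η a (k + 1) y) (fun y _ => W_nonneg _ _ _ _)
              (Finset.mem_Icc.2 hd1)
          rw [← exp_V] at h7
          exact h7.trans (Real.exp_le_exp.2 (hM (k + 1) (by omega)))
        have h7 : Real.exp (h * ((d : ℝ) - v * ((k + 1 : ℕ) : ℝ))) ≤ Real.exp D := by
          refine Real.exp_le_exp.2 ?_
          have h8 := hD (k + 1) (a.2 + d) (by omega) (by
            rw [← ed]
            exact hl1 _) (by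
            rw [← ed]
            exact hl2 _)
          rwa [add_sub_cancel_left] at h8
        have h8 : Real.exp (T μ s v h η (a.1 + ((k + 1 : ℕ) : ℤ), l (a.1 + ((k + 1 : ℕ) : ℤ))) (m - (k + 1))) ≤
            Real.exp B := Real.exp_le_exp.2 (hlB (k + 1) (by omega))
        rw [Real.exp_add, Real.exp_add]
        refine mul_le_mul (mul_le_mul h6 h7 (Real.exp_pos _).le (Real.exp_pos _).le) h8 (Real.exp_pos _).le ?_
        exact mul_nonneg (Real.exp_pos _).le (Real.exp_pos _).le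
      · rw [W_eq_zero η a hd1]
        simp only [zero_mul, Finset.sum_const_zero]
        exact (Real.exp_pos _).le
    refine (Finset.sum_le_sum h3).trans ?_
    rw [Finset.sum_const, Finset.card_range, nsmul_eq_mul]
  -- the sum
  have htot : Real.exp (T μ s v h η a m) ≤ Real.exp (M₀ + D + B) * (1 + 2 * m) := by
    rw [expT5]
    have h2 : ∀ y ∈ Finset.Icc (0 : ℤ) m, W μ s η a m y * Real.exp (h * ((y : ℝ) - v * m)) ≤
        WR μ s (Tb km kp) (sh a η) 0 m y * w y +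
          (∑ k ∈ Finset.range m, W μ s (sh a η) 0 (k + 1) (lp (((k + 1 : ℕ) : ℤ) + a.1) - a.2) *
            W μ s (sh a η) (((k + 1 : ℕ) : ℤ), lp (((k + 1 : ℕ) : ℤ) + a.1) - a.2) (m - (k + 1))
              (y - (lp (((k + 1 : ℕ) : ℤ) + a.1) - a.2))) * w y +
          (∑ k ∈ Finset.range m, W μ s (sh a η) 0 (k + 1) (lm (((k + 1 : ℕ) : ℤ) + a.1) - a.2) *
            W μ s (sh a η) (((k + 1 : ℕ) : ℤ), lm (((k + 1 : ℕ) : ℤ) + a.1) - a.2) (m - (k + 1))
              (y - (lm (((k + 1 : ℕ) : ℤ) + a.1) - a.2))) * w y := by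
      intro y _
      have h3 := tube_split (μ := μ) (s := s) hLm hLp hm0 hp0 (sh a η) m y
      rw [W_sh, zero_add] at h3
      have h4 := mul_le_mul_of_nonneg_right h3 (hw0 y)
      rw [add_mul, add_mul] at h4
      have e1 : Real.exp (h * ((y : ℝ) - v * m)) = w y := by rw [hw]
      have e2 : ∀ t, km t = lm (t + a.1) - a.2 := fun t => by rw [hkm]
      have e3 : ∀ t, kp t = lp (t + a.1) - a.2 := fun t => by rw [hkp]
      simp only [e2, e3] at h4
      rw [e1]
      exact h4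
    refine (Finset.sum_le_sum h2).trans ?_
    rw [Finset.sum_add_distrib, Finset.sum_add_distrib]
    have h3 := part1 lp hlt (fun t => le_rfl) hBp
    have h4 := part1 lm (fun t => le_rfl) hlt hBm
    have h5 : Real.exp (M₀ + D) ≤ Real.exp (M₀ + D + B) := Real.exp_le_exp.2 (by linarith)
    have h6 : Real.exp (M₀ + D + B) * (1 + 2 * (m : ℝ)) =
        Real.exp (M₀ + D + B) + m * Real.exp (M₀ + D + B) + m * Real.exp (M₀ + D + B) := by ring
    rw [h6]
    linarith
  have hpos : (0 : ℝ) < 1 + 2 * m := by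
    have : (0 : ℝ) ≤ m := Nat.cast_nonneg _
    linarith
  have h7 : Real.exp (T μ s v h η a m) ≤ Real.exp (M₀ + D + B + Real.log (1 + 2 * m)) := by
    rw [Real.exp_add (M₀ + D + B), Real.exp_log hpos]
    exact htot
  exact Real.exp_le_exp.1 h7

/-- The line of direction `1 / 2` through `(0, c)`. -/
theorem isLine_half (c : ℤ) : IsLine fun t => t / 2 + c := by
  constructor
  · intro t
    show t / 2 + c ≤ (t + 1) / 2 + c
    omega
  · intro t
    show (t + 1) / 2 + c ≤ t / 2 + c + 1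
    omega

/-- Row 620, (4), direction `1 / 2`: the start `a` is in the cell between the lines `t / 2 + c` and `t / 2 + c + w`. -/
theorem T_cell {c w : ℤ} (hw : 0 ≤ w) {h M₀ B : ℝ} (η : Env) (a : Pt) (m : ℕ) (h0 : a.1 / 2 + c ≤ a.2)
    (h1 : a.2 ≤ a.1 / 2 + c + w) (hM : ∀ k ≤ m, V μ s η a k ≤ M₀) (hB0 : 0 ≤ B)
    (hB : ∀ k ≤ m, T μ s (1 / 2) h η (a.1 + k, (a.1 + k) / 2 + c) (m - k) ≤ B)
    (hB' : ∀ k ≤ m, T μ s (1 / 2) h η (a.1 + k, (a.1 + k) / 2 + c + w) (m - k) ≤ B) :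
    T μ s (1 / 2) h η a m ≤ M₀ + |h| * (w + 1) + B + Real.log (1 + 2 * m) := by
  have hBp : ∀ k ≤ m, T μ s (1 / 2) h η (a.1 + k, (fun t : ℤ => t / 2 + (c + w)) (a.1 + k)) (m - k) ≤ B := by
    intro k hk
    have h2 := hB' k hk
    have e1 : (fun t : ℤ => t / 2 + (c + w)) (a.1 + (k : ℤ)) = (a.1 + (k : ℤ)) / 2 + c + w := by
      show (a.1 + (k : ℤ)) / 2 + (c + w) = (a.1 + (k : ℤ)) / 2 + c + w
      ring
    rw [e1]
    exact h2
  refine T_strip (lm := fun t => t / 2 + c) (lp := fun t => t / 2 + (c + w)) (isLine_half c) (isLine_half (c + w))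
    (fun t => ?_) η a m h0 (by
      show a.2 ≤ a.1 / 2 + (c + w)
      omega) (fun k x hk hx hx' => ?_) hM hB0 hB hBp
  · show t / 2 + c ≤ t / 2 + (c + w)
    omega
  · have hx : (a.1 + (k : ℤ)) / 2 + c ≤ x := hx
    have hx' : x ≤ (a.1 + (k : ℤ)) / 2 + (c + w) := hx'
    have h2 : |((x - a.2 : ℤ) : ℝ) - 1 / 2 * (k : ℝ)| ≤ (w : ℝ) + 1 := by
      have h3 : 2 * (x - a.2) - k ≤ 2 * w + 2 := by omega
      have h4 : -(2 * w + 2) ≤ 2 * (x - a.2) - k := by omega
      have h3' : (2 : ℝ) * ((x - a.2 : ℤ) : ℝ) - k ≤ 2 * w + 2 := by exact_mod_cast h3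
      have h4' : -(2 * (w : ℝ) + 2) ≤ (2 : ℝ) * ((x - a.2 : ℤ) : ℝ) - k := by exact_mod_cast h4
      rw [abs_le]
      constructor <;> linarith
    calc h * (((x - a.2 : ℤ) : ℝ) - 1 / 2 * (k : ℝ)) ≤ |h * (((x - a.2 : ℤ) : ℝ) - 1 / 2 * (k : ℝ))| := le_abs_self _
      _ = |h| * |((x - a.2 : ℤ) : ℝ) - 1 / 2 * (k : ℝ)| := abs_mul _ _
      _ ≤ |h| * (w + 1) := mul_le_mul_of_nonneg_left h2 (abs_nonneg _)

end Pool.Agent.W_7d29a1_h30g
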