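import Pool.Agent.W_7d29a1_h30g.Fr0
import Pool.Agent.W_7d29a1_L78.RowA

/-!
ROW 620, file 2: a cheap passage between two lines is as rare as a cheap displacement over the time `4 n` between them. (helper73)
-/

namespace Pool.Agent.W_7d29a1_h30g

open MeasureTheory ProbabilityTheory Pool.Agent.W_7d29a1_F Pool.Agent.W_7d29a1_h95g Pool.Agent.W_7d29a1_h60

noncomputable section

variable {μ : Measure ℝ} [IsProbabilityMeasure μ] {s : ℝ} {g : ℤ → ℤ} {ε : ℤ} {w n : ℕ} {c : ℤ}

omit [IsProbabilityMeasure μ] in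
private theorem io_real2 {p : Env → Prop} (h : MeasurableSet {η | p η}) :
    ∫ η, io (p η) ∂(law μ) = (law μ).real {η | p η} := by
  classical
  have e : (fun η => io (p η)) = Set.indicator {η | p η} fun _ => (1 : ℝ) := by
    funext η
    by_cases hp : p η
    · rw [io_of hp, Set.indicator_of_mem (show η ∈ {η | p η} from hp)]
    · rw [io_not hp, Set.indicator_of_notMem (show η ∉ {η | p η} from hp)]
  rw [e, integral_indicator h, setIntegral_const, smul_eq_mul, mul_one]

/-- Three quarters of the mass of `ι` have `R ≤ 4 A` if `∫ ι R ≤ A ∫ ι` (Markov). -/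
private theorem quarter_mass (hEM : Pool.Agent.W_7d29a1_h47.EM μ) {ι R : Env → ℝ} (hιS : Sub ι) (hι0 : ∀ η, 0 ≤ ι η)
    (hRm : Measurable R) (hR0 : ∀ η, 0 ≤ R η) (hi : Integrable (fun η => ι η * R η) (law μ)) {A : ℝ} (hA : 0 < A)
    (h : ∫ η, ι η * R η ∂(law μ) ≤ A * ∫ η, ι η ∂(law μ)) :
    ∫ η, ι η ∂(law μ) ≤ 4 / 3 * ∫ η, ι η * io (R η ≤ 4 * A) ∂(law μ) := by
  have hm : MeasurableSet {η | R η ≤ 4 * A} := measurableSet_le hRm measurable_const
  have h1 : ∀ η, ι η ≤ ι η * io (R η ≤ 4 * A) + ι η * R η * (1 / (4 * A)) := by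
    intro η
    by_cases h2 : R η ≤ 4 * A
    · rw [io_of h2, mul_one]
      have h3 : 0 ≤ ι η * R η * (1 / (4 * A)) := by
        have := mul_nonneg (hι0 η) (hR0 η)
        positivity
      linarith
    · rw [io_not h2, mul_zero, zero_add]
      have h3 : 1 ≤ R η * (1 / (4 * A)) := by
        rw [mul_one_div, le_div_iff₀ (by positivity)]
        linarith [not_le.1 h2]
      have h4 := mul_le_mul_of_nonneg_left h3 (hι0 η)
      linarith
  have i1 : Integrable (fun η => ι η * io (R η ≤ 4 * A)) (law μ) :=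
    Sub.mul_integrable hEM hιS (Sub_io hm)
  have h5 := integral_mono (hιS.integrable hEM) (i1.add (hi.mul_const (1 / (4 * A)))) h1
  simp only [Pi.add_apply] at h5
  rw [integral_add i1 (hi.mul_const _), integral_mul_const] at h5
  have h6 : (∫ η, ι η * R η ∂(law μ)) * (1 / (4 * A)) ≤ (∫ η, ι η ∂(law μ)) / 4 := by
    rw [mul_one_div, div_le_iff₀ (by positivity)]
    linarith
  linarith

omit [IsProbabilityMeasure μ] in
/-- A cost at most `B` is a weight at least `exp (-B)`. -/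
private theorem exp_le_W {η : Env} {a : Pt} {m : ℕ} {y : ℤ} (h0 : 0 ≤ y) (h1 : y ≤ m) {B : ℝ}
    (h : max (X μ s η a m y) 0 ≤ B) : Real.exp (-B) ≤ W μ s η a m y := by
  have hpos := W_pos (μ := μ) (s := s) η a h0 h1
  have h2 : X μ s η a m y ≤ B := (le_max_left _ _).trans h
  unfold X at h2
  rw [← Real.exp_log hpos]
  exact Real.exp_le_exp.2 (by linarith)

/-- First completion, then latest start. PROOF. (1) Order the pairs by the arrival time `s' = t + k + 1` (then by `t`); the event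
`first pair = (t, k)` depends on the rows `(0, s']`; the piece from `(s', ln g (c + ε w) s')` to `(3 n, ln g (c + ε w) (3 n))` along the
line has mean positive cost `≤ E` (`hU`), is independent, so with probability `≥ 3 / 4` its weight is `≥ exp (- 4 E)` (Markov). (2)
Hence `(3 / 4) P(pair) ≤ P(∃ t ≤ n, W ((t, ln g c t) → (3 n, ln g (c + ε w) (3 n))) ≥ exp (-(y + 4 E)))`; take the latest such `t`: this
event depends on the rows `(t, 3 n]`; the piece from `(-n, ln g c (-n))` to `(t, ln g c t)` along the line is independent, again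
`3 / 4`. (3) stationarity (`mp_sh`). `(3 / 4) ^ 2 ≥ 1 / 2`. If a displacement is not in `[0, m]` then `W = 0 < exp (-y)`, no special case
is needed. -/
theorem pair_le (hEM : Pool.Agent.W_7d29a1_h47.EM μ) (hg : Stp g) (hε : ε = 1 ∨ ε = -1) {E : ℝ} (hE : 0 < E)
    (hU : UG μ s g n E) (y : ℝ) :
    (law μ).real {η | ∃ t k : ℕ, t + (k + 1) ≤ n ∧
      Real.exp (-y) ≤ W μ s η ((t : ℤ), ln g c t) (k + 1) (dk (ln g (c + ε * w)) ((t : ℤ), ln g c t) k)} ≤
    2 * (law μ).real {η | Real.exp (-(y + 8 * E)) ≤ W μ s η 0 (4 * n) (g (3 * n) - g (-n) + ε * w)} := by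
  classical
  obtain ⟨e, he⟩ : ∃ e : ℤ, e = ε * w := ⟨_, rfl⟩
  rw [← he]
  clear he hε
  -- the middle event
  obtain ⟨q, hq⟩ : ∃ q : ℕ → Env → Prop, q = fun (t : ℕ) η => Real.exp (-(y + 4 * E)) ≤
      W μ s η ((t : ℤ), ln g c t) (3 * n - t) (g (3 * n) - g t + e) := ⟨_, rfl⟩
  have hqm : ∀ t, MeasurableSet {η | q t η} := fun t => by
    rw [hq]
    exact measurableSet_le measurable_const (measurable_W _ _ _)
  have hQm : MeasurableSet {η | ∃ t ∈ Finset.range (n + 1), q t η} := by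
    have e1 : {η | ∃ t ∈ Finset.range (n + 1), q t η} = ⋃ t ∈ Finset.range (n + 1), {η | q t η} := by
      ext η
      simp only [Set.mem_ofPred_eq, Set.mem_iUnion, exists_prop]
    rw [e1]
    exact Finset.measurableSet_biUnion _ fun t _ => hqm t
  -- (1) first completion
  have step1 : (law μ).real {η | ∃ t k : ℕ, t + (k + 1) ≤ n ∧
      Real.exp (-y) ≤ W μ s η ((t : ℤ), ln g c t) (k + 1) (dk (ln g (c + e)) ((t : ℤ), ln g c t) k)} ≤
      4 / 3 * (law μ).real {η | ∃ t ∈ Finset.range (n + 1), q t η} := by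
    obtain ⟨K, hK⟩ : ∃ K : Finset (ℕ × ℕ), K = (Finset.range (n + 1) ×ˢ Finset.range (n + 1)).filter
        fun κ => κ.1 + (κ.2 + 1) ≤ n := ⟨_, rfl⟩
    have hKm : ∀ κ : ℕ × ℕ, κ ∈ K ↔ κ.1 + (κ.2 + 1) ≤ n := by
      intro κ
      rw [hK, Finset.mem_filter, Finset.mem_product, Finset.mem_range, Finset.mem_range]
      constructor
      · exact fun h => h.2
      · exact fun h => ⟨⟨by omega, by omega⟩, h⟩
    obtain ⟨r, hr⟩ : ∃ r : (ℕ × ℕ) → ℕ ×ₗ ℕ, r = fun κ => toLex (κ.1 + (κ.2 + 1), κ.1) := ⟨_, rfl⟩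
    have hrinj : Function.Injective r := by
      intro κ κ' h
      rw [hr] at h
      have h1 := toLex.injective h
      rw [Prod.mk.injEq] at h1
      refine Prod.ext h1.2 ?_
      have h2 := h1.1
      have h3 := h1.2
      omega
    have hrle : ∀ κ κ', r κ ≤ r κ' → κ.1 + (κ.2 + 1) ≤ κ'.1 + (κ'.2 + 1) := by
      intro κ κ' h
      rw [hr] at h
      rcases (Prod.Lex.le_iff).1 h with h1 | h1
      · exact le_of_lt h1
      · exact le_of_eq h1.1
    obtain ⟨p, hp⟩ : ∃ p : (ℕ × ℕ) → Env → Prop, p = fun κ η => Real.exp (-y) ≤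
        W μ s η ((κ.1 : ℤ), ln g c κ.1) (κ.2 + 1) (dk (ln g (c + e)) ((κ.1 : ℤ), ln g c κ.1) κ.2) := ⟨_, rfl⟩
    have hpm : ∀ κ, MeasurableSet {η | p κ η} := fun κ => by
      rw [hp]
      exact measurableSet_le measurable_const (measurable_W _ _ _)
    obtain ⟨ι, hι⟩ : ∃ ι : (ℕ × ℕ) → Env → ℝ, ι = fun κ η => io (Fi K r (fun j => p j η) κ) := ⟨_, rfl⟩
    have hιS : ∀ κ ∈ K, Sub (ι κ) := fun κ hκ => by
      rw [hι]
      exact Sub_io (meas_Fi K r (fun j _ => hpm j) hκ)
    have hι0 : ∀ κ η, 0 ≤ ι κ η := fun k η => by rw [hι]; exact io_nonneg _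
    have hιd : ∀ κ ∈ K, DependsOn (ι κ) (rows 0 ((κ.1 : ℤ) + (κ.2 + 1))) := by
      intro κ hκ
      rw [hι]
      refine dep_Fi K r hκ fun j _ hj η η' h => ?_
      rw [hp]
      show Real.exp (-y) ≤ _ ↔ Real.exp (-y) ≤ _
      have h1 : W μ s η ((j.1 : ℤ), ln g c j.1) (j.2 + 1) (dk (ln g (c + e)) ((j.1 : ℤ), ln g c j.1) j.2) =
          W μ s η' ((j.1 : ℤ), ln g c j.1) (j.2 + 1) (dk (ln g (c + e)) ((j.1 : ℤ), ln g c j.1) j.2) := by
        refine W_dep_rows (μ := μ) (s := s) _ _ _ fun x hx => h x (rows_mono ?_ ?_ hx)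
        · exact Int.natCast_nonneg _
        · have := hrle _ _ hj
          show ((j.1 : ℕ) : ℤ) + ((j.2 + 1 : ℕ) : ℤ) ≤ (κ.1 : ℤ) + (κ.2 + 1)
          exact_mod_cast this
      rw [h1]
    have hιsum : ∀ η, ∑ κ ∈ K, ι κ η = io (∃ κ ∈ K, p κ η) := by
      intro η
      rw [hι]
      exact sum_Fi K hrinj fun j => p j η
    have hset : {η | ∃ t k : ℕ, t + (k + 1) ≤ n ∧
        Real.exp (-y) ≤ W μ s η ((t : ℤ), ln g c t) (k + 1) (dk (ln g (c + e)) ((t : ℤ), ln g c t) k)} =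
        {η | ∃ κ ∈ K, p κ η} := by
      ext η
      simp only [Set.mem_ofPred_eq]
      rw [hp]
      constructor
      · rintro ⟨t, k, h1, h2⟩
        exact ⟨(t, k), (hKm _).2 h1, h2⟩
      · rintro ⟨κ, hκ, h1⟩
        exact ⟨κ.1, κ.2, (hKm _).1 hκ, h1⟩
    have hPm : MeasurableSet {η | ∃ κ ∈ K, p κ η} := by
      have e1 : {η | ∃ κ ∈ K, p κ η} = ⋃ κ ∈ K, {η | p κ η} := by
        ext η
        simp only [Set.mem_ofPred_eq, Set.mem_iUnion, exists_prop]
      rw [e1]
      exact Finset.measurableSet_biUnion _ fun κ _ => hpm κ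
    -- the continuation along the line
    obtain ⟨R, hR⟩ : ∃ R : (ℕ × ℕ) → Env → ℝ, R = fun κ η =>
        max (X μ s η ((κ.1 : ℤ) + (κ.2 + 1), ln g (c + e) ((κ.1 : ℤ) + (κ.2 + 1))) (3 * n - (κ.1 + (κ.2 + 1)))
          (g (3 * n) - g ((κ.1 : ℤ) + (κ.2 + 1)))) 0 := ⟨_, rfl⟩
    have hdisp : ∀ κ ∈ K, 0 ≤ g (3 * n) - g ((κ.1 : ℤ) + (κ.2 + 1)) ∧
        g (3 * n) - g ((κ.1 : ℤ) + (κ.2 + 1)) ≤ ((3 * n - (κ.1 + (κ.2 + 1)) : ℕ) : ℤ) ∧
        (κ.1 : ℤ) + (κ.2 + 1) + ((3 * n - (κ.1 + (κ.2 + 1)) : ℕ) : ℤ) = 3 * n := by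
      intro κ hκ
      have h1 := (hKm κ).1 hκ
      have h2 := hg.mono ((κ.1 : ℤ) + (κ.2 + 1)) (3 * n - (κ.1 + (κ.2 + 1)))
      have h3 : (κ.1 : ℤ) + (κ.2 + 1) + ((3 * n - (κ.1 + (κ.2 + 1)) : ℕ) : ℤ) = 3 * n := by omega
      rw [h3] at h2
      exact ⟨by omega, by omega, h3⟩
    have hRS : ∀ κ ∈ K, Sub (R κ) := fun κ hκ => by
      rw [hR]
      exact Pool.Agent.W_7d29a1_L78.Sub_Xp _ (hdisp κ hκ).1 (hdisp κ hκ).2.1
    have hR0 : ∀ κ η, 0 ≤ R κ η := fun κ η => by
      rw [hR]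
      exact le_max_right _ _
    have hRi : ∀ κ ∈ K, ∫ η, ι κ η * R κ η ∂(law μ) ≤ E * ∫ η, ι κ η ∂(law μ) := by
      intro κ hκ
      have h3 : DependsOn (R κ) (rows ((κ.1 : ℤ) + (κ.2 + 1)) (3 * n)) := by
        intro η η' h
        rw [hR]
        have h5 : X μ s η ((κ.1 : ℤ) + (κ.2 + 1), ln g (c + e) ((κ.1 : ℤ) + (κ.2 + 1))) (3 * n - (κ.1 + (κ.2 + 1)))
            (g (3 * n) - g ((κ.1 : ℤ) + (κ.2 + 1))) =
            X μ s η' ((κ.1 : ℤ) + (κ.2 + 1), ln g (c + e) ((κ.1 : ℤ) + (κ.2 + 1))) (3 * n - (κ.1 + (κ.2 + 1)))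
            (g (3 * n) - g ((κ.1 : ℤ) + (κ.2 + 1))) := by
          refine X_dep_rows (μ := μ) (s := s) _ _ _ fun x hx => h x (rows_mono le_rfl ?_ hx)
          exact (hdisp κ hκ).2.2.le
        show max _ (0 : ℝ) = max _ 0
        rw [h5]
      rw [integral_indep (hιS κ hκ).1 (hRS κ hκ).1 (hιd κ hκ) h3 (rows_disj le_rfl), mul_comm]
      refine mul_le_mul_of_nonneg_right ?_ (integral_nonneg fun η => hι0 κ η)
      rw [hR]
      show ∫ η, max (X μ s η ((κ.1 : ℤ) + (κ.2 + 1), ln g (c + e) ((κ.1 : ℤ) + (κ.2 + 1))) (3 * n - (κ.1 + (κ.2 + 1)))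
            (g (3 * n) - g ((κ.1 : ℤ) + (κ.2 + 1)))) 0 ∂(law μ) ≤ E
      rw [Pool.Agent.W_7d29a1_L78.integral_Xp]
      have h6 := hU ((κ.1 : ℤ) + (κ.2 + 1)) (3 * n - (κ.1 + (κ.2 + 1))) (by omega) (by
        have := (hdisp κ hκ).2.2
        omega)
      rw [(hdisp κ hκ).2.2] at h6
      exact h6
    have hpt : ∀ η, ∑ κ ∈ K, ι κ η * io (R κ η ≤ 4 * E) ≤ io (∃ t ∈ Finset.range (n + 1), q t η) := by
      intro η
      by_cases hBη : ∃ t ∈ Finset.range (n + 1), q t η
      · rw [io_of hBη]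
        refine (Finset.sum_le_sum fun κ _ => ?_).trans ((hιsum η).trans_le (io_le_one _))
        exact mul_le_of_le_one_right (hι0 κ η) (io_le_one _)
      · rw [io_not hBη]
        refine (Finset.sum_eq_zero fun κ hκ => ?_).le
        by_cases h1 : R κ η ≤ 4 * E
        · by_cases h2 : Fi K r (fun j => p j η) κ
          · exfalso
            apply hBη
            have hτ := (hKm κ).1 hκ
            refine ⟨κ.1, Finset.mem_range.2 (by omega), ?_⟩
            have h3 : p κ η := h2.1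
            rw [hp] at h3
            have h3' : Real.exp (-y) ≤ W μ s η ((κ.1 : ℤ), ln g c κ.1) (κ.2 + 1)
              (dk (ln g (c + e)) ((κ.1 : ℤ), ln g c κ.1) κ.2) := h3
            rw [hR] at h1
            have h4 := exp_le_W (hdisp κ hκ).1 (hdisp κ hκ).2.1 h1
            have h5 := mul_le_mul h3' h4 (Real.exp_pos _).le (W_nonneg _ _ _ _)
            have h6 := W_mul_le (μ := μ) (s := s) η (((κ.1 : ℕ) : ℤ), ln g c κ.1) (κ.2 + 1)
              (3 * n - (κ.1 + (κ.2 + 1))) (dk (ln g (c + e)) ((κ.1 : ℤ), ln g c κ.1) κ.2)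
              (g (3 * n) - g ((κ.1 : ℤ) + (κ.2 + 1)))
            have e1 : κ.2 + 1 + (3 * n - (κ.1 + (κ.2 + 1))) = 3 * n - κ.1 := by omega
            have e2 : dk (ln g (c + e)) ((κ.1 : ℤ), ln g c κ.1) κ.2 = ln g (c + e) ((κ.1 : ℤ) + (κ.2 + 1)) - ln g c κ.1 :=
              rfl
            have e3 : (((((κ.1 : ℕ) : ℤ), ln g c κ.1) : Pt).1 + ((κ.2 + 1 : ℕ) : ℤ),
                ((((κ.1 : ℕ) : ℤ), ln g c κ.1) : Pt).2 + (ln g (c + e) ((κ.1 : ℤ) + (κ.2 + 1)) - ln g c κ.1)) =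
                (((κ.1 : ℤ) + (κ.2 + 1), ln g (c + e) ((κ.1 : ℤ) + (κ.2 + 1))) : Pt) := by
              ext
              · show (κ.1 : ℤ) + ((κ.2 + 1 : ℕ) : ℤ) = (κ.1 : ℤ) + (κ.2 + 1)
                push_cast
                ring
              · show ln g c κ.1 + (ln g (c + e) ((κ.1 : ℤ) + (κ.2 + 1)) - ln g c κ.1) = _
                ring
            have e4 : ln g (c + e) ((κ.1 : ℤ) + (κ.2 + 1)) - ln g c κ.1 + (g (3 * n) - g ((κ.1 : ℤ) + (κ.2 + 1))) =
                g (3 * n) - g κ.1 + e := by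
              unfold ln
              ring
            rw [e2, e3, e1, e4] at h6
            rw [e2] at h5
            rw [hq]
            show Real.exp (-(y + 4 * E)) ≤ W μ s η ((κ.1 : ℤ), ln g c κ.1) (3 * n - κ.1) (g (3 * n) - g κ.1 + e)
            have e5 : Real.exp (-(y + 4 * E)) = Real.exp (-y) * Real.exp (-(4 * E)) := by
              rw [← Real.exp_add]
              congr 1
              ring
            rw [e5]
            exact h5.trans h6
          · have h3 : ι κ η = 0 := by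
              rw [hι]
              exact io_not h2
            rw [h3, zero_mul]
        · rw [io_not h1, mul_zero]
    have hSi : ∀ κ ∈ K, Integrable (fun η => ι κ η * io (R κ η ≤ 4 * E)) (law μ) := fun κ hκ =>
      Sub.mul_integrable hEM (hιS κ hκ) (Sub_io (measurableSet_le (hRS κ hκ).1 measurable_const))
    have h1 := integral_mono (integrable_finsetSum _ hSi) ((Sub_io hQm).integrable hEM) hpt
    rw [integral_finsetSum _ hSi, io_real2 hQm] at h1
    have h2 : (law μ).real {η | ∃ κ ∈ K, p κ η} = ∑ κ ∈ K, ∫ η, ι κ η ∂(law μ) := by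
      rw [← io_real2 hPm, ← integral_finsetSum _ fun κ hκ => (hιS κ hκ).integrable hEM]
      refine integral_congr_ae (Filter.Eventually.of_forall fun η => ?_)
      show io _ = ∑ κ ∈ K, ι κ η
      rw [hιsum]
    rw [hset, h2]
    have h3 : ∑ κ ∈ K, ∫ η, ι κ η ∂(law μ) ≤ ∑ κ ∈ K, 4 / 3 * ∫ η, ι κ η * io (R κ η ≤ 4 * E) ∂(law μ) :=
      Finset.sum_le_sum fun κ hκ => quarter_mass hEM (hιS κ hκ) (hι0 κ) (hRS κ hκ).1 (hR0 κ)
        (Sub.mul_integrable hEM (hιS κ hκ) (hRS κ hκ)) hE (hRi κ hκ)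
    rw [← Finset.mul_sum] at h3
    linarith
  -- (2) latest start
  obtain ⟨a, ha⟩ : ∃ a : Pt, a = (-(n : ℤ), ln g c (-n)) := ⟨_, rfl⟩
  have hCm : ∀ b : Pt, MeasurableSet {η | Real.exp (-(y + 8 * E)) ≤ W μ s η b (4 * n) (g (3 * n) - g (-n) + e)} :=
    fun b => measurableSet_le measurable_const (measurable_W _ _ _)
  have step2 : (law μ).real {η | ∃ t ∈ Finset.range (n + 1), q t η} ≤
      4 / 3 * (law μ).real {η | Real.exp (-(y + 8 * E)) ≤ W μ s η a (4 * n) (g (3 * n) - g (-n) + e)} := by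
    obtain ⟨r, hr⟩ : ∃ r : ℕ → ℤ, r = fun (t : ℕ) => -(t : ℤ) := ⟨_, rfl⟩
    have hrinj : Function.Injective r := by
      intro t t' h
      rw [hr] at h
      have h1 : -(t : ℤ) = -(t' : ℤ) := h
      omega
    obtain ⟨S, hS⟩ : ∃ S : Finset ℕ, S = Finset.range (n + 1) := ⟨_, rfl⟩
    rw [← hS]
    rw [← hS] at hQm
    have hSm : ∀ t ∈ S, t ≤ n := fun t ht => by
      rw [hS, Finset.mem_range] at ht
      omega
    obtain ⟨ι, hι⟩ : ∃ ι : ℕ → Env → ℝ, ι = fun t η => io (Fi S r (fun j => q j η) t) := ⟨_, rfl⟩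
    have hιS : ∀ t ∈ S, Sub (ι t) := fun t ht => by
      rw [hι]
      exact Sub_io (meas_Fi S r (fun j _ => hqm j) ht)
    have hι0 : ∀ t η, 0 ≤ ι t η := fun k η => by rw [hι]; exact io_nonneg _
    have hιd : ∀ t ∈ S, DependsOn (ι t) (rows (t : ℤ) (3 * n)) := by
      intro t ht
      rw [hι]
      refine dep_Fi S r ht fun j hjS hj η η' h => ?_
      rw [hq]
      show Real.exp (-(y + 4 * E)) ≤ _ ↔ Real.exp (-(y + 4 * E)) ≤ _
      have h1 : W μ s η ((j : ℤ), ln g c j) (3 * n - j) (g (3 * n) - g j + e) =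
          W μ s η' ((j : ℤ), ln g c j) (3 * n - j) (g (3 * n) - g j + e) := by
        refine W_dep_rows (μ := μ) (s := s) _ _ _ fun x hx => h x (rows_mono ?_ ?_ hx)
        · rw [hr] at hj
          have hj' : -(j : ℤ) ≤ -(t : ℤ) := hj
          show (t : ℤ) ≤ (j : ℤ)
          omega
        · have := hSm j hjS
          show ((j : ℕ) : ℤ) + ((3 * n - j : ℕ) : ℤ) ≤ 3 * n
          omega
      rw [h1]
    have hιsum : ∀ η, ∑ t ∈ S, ι t η = io (∃ t ∈ S, q t η) := by
      intro η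
      rw [hι]
      exact sum_Fi S hrinj fun j => q j η
    obtain ⟨R, hR⟩ : ∃ R : ℕ → Env → ℝ, R = fun (t : ℕ) η => max (X μ s η a (t + n) (g t - g (-n))) 0 := ⟨_, rfl⟩
    have hdisp : ∀ t : ℕ, 0 ≤ g t - g (-n) ∧ g t - g (-n) ≤ ((t + n : ℕ) : ℤ) ∧ -(n : ℤ) + ((t + n : ℕ) : ℤ) = t := by
      intro t
      have h2 := hg.mono (-(n : ℤ)) (t + n)
      have h3 : -(n : ℤ) + ((t + n : ℕ) : ℤ) = t := by
        push_cast
        ring
      rw [h3] at h2
      exact ⟨by omega, by omega, h3⟩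
    have hRS : ∀ t, Sub (R t) := fun t => by
      rw [hR]
      exact Pool.Agent.W_7d29a1_L78.Sub_Xp _ (hdisp t).1 (hdisp t).2.1
    have hR0 : ∀ t η, 0 ≤ R t η := fun t η => by
      rw [hR]
      exact le_max_right _ _
    have hRi : ∀ t ∈ S, ∫ η, ι t η * R t η ∂(law μ) ≤ E * ∫ η, ι t η ∂(law μ) := by
      intro t ht
      have h3 : DependsOn (R t) (rows (-(n : ℤ)) t) := by
        intro η η' h
        rw [hR]
        have h5 : X μ s η a (t + n) (g t - g (-n)) = X μ s η' a (t + n) (g t - g (-n)) := by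
          refine X_dep_rows (μ := μ) (s := s) _ _ _ fun x hx => h x (rows_mono ?_ ?_ hx)
          · rw [ha]
          · rw [ha]
            exact (hdisp t).2.2.le
        show max _ (0 : ℝ) = max _ 0
        rw [h5]
      rw [integral_indep (hιS t ht).1 (hRS t).1 (hιd t ht) h3 (rows_disj le_rfl).symm, mul_comm]
      refine mul_le_mul_of_nonneg_right ?_ (integral_nonneg fun η => hι0 t η)
      rw [hR]
      show ∫ η, max (X μ s η a (t + n) (g t - g (-n))) 0 ∂(law μ) ≤ E
      rw [Pool.Agent.W_7d29a1_L78.integral_Xp]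
      have h6 := hU (-(n : ℤ)) (t + n) le_rfl (by
        have := hSm t ht
        have h7 := (hdisp t).2.2
        omega)
      rw [(hdisp t).2.2] at h6
      exact h6
    have hpt : ∀ η, ∑ t ∈ S, ι t η * io (R t η ≤ 4 * E) ≤
        io (Real.exp (-(y + 8 * E)) ≤ W μ s η a (4 * n) (g (3 * n) - g (-n) + e)) := by
      intro η
      by_cases hBη : Real.exp (-(y + 8 * E)) ≤ W μ s η a (4 * n) (g (3 * n) - g (-n) + e)
      · rw [io_of hBη]
        refine (Finset.sum_le_sum fun κ _ => ?_).trans ((hιsum η).trans_le (io_le_one _))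
        exact mul_le_of_le_one_right (hι0 κ η) (io_le_one _)
      · rw [io_not hBη]
        refine (Finset.sum_eq_zero fun t ht => ?_).le
        by_cases h1 : R t η ≤ 4 * E
        · by_cases h2 : Fi S r (fun j => q j η) t
          · exfalso
            apply hBη
            have hτ := hSm t ht
            have h3 : q t η := h2.1
            rw [hq] at h3
            have h3' : Real.exp (-(y + 4 * E)) ≤ W μ s η ((t : ℤ), ln g c t) (3 * n - t) (g (3 * n) - g t + e) := h3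
            rw [hR] at h1
            have h4 := exp_le_W (hdisp t).1 (hdisp t).2.1 h1
            have h5 := mul_le_mul h4 h3' (Real.exp_pos _).le (W_nonneg _ _ _ _)
            have h6 := W_mul_le (μ := μ) (s := s) η a (t + n) (3 * n - t) (g t - g (-n)) (g (3 * n) - g t + e)
            have e1 : t + n + (3 * n - t) = 4 * n := by omega
            have e3 : ((a.1 + ((t + n : ℕ) : ℤ), a.2 + (g t - g (-n))) : Pt) = ((t : ℤ), ln g c t) := by
              rw [ha]
              ext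
              · exact (hdisp t).2.2
              · show ln g c (-n) + (g t - g (-n)) = ln g c t
                unfold ln
                ring
            have e4 : g t - g (-n) + (g (3 * n) - g t + e) = g (3 * n) - g (-n) + e := by ring
            rw [e3, e1, e4] at h6
            have e5 : Real.exp (-(y + 8 * E)) = Real.exp (-(4 * E)) * Real.exp (-(y + 4 * E)) := by
              rw [← Real.exp_add]
              congr 1
              ring
            rw [e5]
            exact h5.trans h6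
          · have h3 : ι t η = 0 := by
              rw [hι]
              exact io_not h2
            rw [h3, zero_mul]
        · rw [io_not h1, mul_zero]
    have hSi : ∀ t ∈ S, Integrable (fun η => ι t η * io (R t η ≤ 4 * E)) (law μ) := fun t ht =>
      Sub.mul_integrable hEM (hιS t ht) (Sub_io (measurableSet_le (hRS t).1 measurable_const))
    have h1 := integral_mono (integrable_finsetSum _ hSi) ((Sub_io (hCm a)).integrable hEM) hpt
    rw [integral_finsetSum _ hSi, io_real2 (hCm a)] at h1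
    have h2 : (law μ).real {η | ∃ t ∈ S, q t η} = ∑ t ∈ S, ∫ η, ι t η ∂(law μ) := by
      rw [← io_real2 hQm, ← integral_finsetSum _ fun t ht => (hιS t ht).integrable hEM]
      refine integral_congr_ae (Filter.Eventually.of_forall fun η => ?_)
      show io _ = ∑ t ∈ S, ι t η
      rw [hιsum]
    rw [h2]
    have h3 : ∑ t ∈ S, ∫ η, ι t η ∂(law μ) ≤ ∑ t ∈ S, 4 / 3 * ∫ η, ι t η * io (R t η ≤ 4 * E) ∂(law μ) :=
      Finset.sum_le_sum fun t ht => quarter_mass hEM (hιS t ht) (hι0 t) (hRS t).1 (hR0 t)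
        (Sub.mul_integrable hEM (hιS t ht) (hRS t)) hE (hRi t ht)
    rw [← Finset.mul_sum] at h3
    linarith
  -- (3) stationarity
  have step3 : (law μ).real {η | Real.exp (-(y + 8 * E)) ≤ W μ s η a (4 * n) (g (3 * n) - g (-n) + e)} =
      (law μ).real {η | Real.exp (-(y + 8 * E)) ≤ W μ s η 0 (4 * n) (g (3 * n) - g (-n) + e)} := by
    have h := (mp_sh (μ := μ) a).measureReal_preimage (hCm 0).nullMeasurableSet
    rw [← h]
    congr 1
    ext η
    simp only [Set.mem_preimage, Set.mem_ofPred_eq]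
    rw [W_sh, zero_add]
  have h0 : 0 ≤ (law μ).real {η | Real.exp (-(y + 8 * E)) ≤ W μ s η 0 (4 * n) (g (3 * n) - g (-n) + e)} :=
    measureReal_nonneg
  rw [step3] at step2
  linarith

/-- PROOF. If `exp (-C) ≤ Us` then some `Om μ s g ε w c η t k ≥ exp (-C) / n = exp (-(C + log n))` with `t + (k + 1) ≤ n`
(at most `n` terms), `Om_le`, `pair_le` with `y = C + log n`. -/
theorem Us_prob (hEM : Pool.Agent.W_7d29a1_h47.EM μ) (hg : Stp g) (hε : ε = 1 ∨ ε = -1) (hn : 1 ≤ n) {E : ℝ}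
    (hE : 0 < E) (hU : UG μ s g n E) (C : ℝ) :
    (law μ).real {η | Real.exp (-C) ≤ Us μ s g ε w n c η} ≤
    2 * (law μ).real {η | Real.exp (-(C + Real.log n + 8 * E)) ≤
      W μ s η 0 (4 * n) (g (3 * n) - g (-n) + ε * w)} := by
  refine le_trans ?_ (pair_le (c := c) (w := w) hEM hg hε hE hU (C + Real.log n))
  refine measureReal_mono ?_
  intro η hη
  have hη : Real.exp (-C) ≤ Us μ s g ε w n c η := hη
  obtain ⟨t, ht, h1⟩ := Finset.exists_mem_eq_sup' (⟨0, by simp⟩ : (Finset.range (n + 1)).Nonempty)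
    (fun t : ℕ => ∑ k ∈ Finset.range (n - t), Om μ s g ε w c η (t : ℤ) k)
  have h2 : Us μ s g ε w n c η = ∑ k ∈ Finset.range (n - t), Om μ s g ε w c η (t : ℤ) k := h1
  rw [Finset.mem_range] at ht
  rw [h2] at hη
  by_contra hcon
  have hn' : (0 : ℝ) < n := by exact_mod_cast hn
  have h3 : ∀ k ∈ Finset.range (n - t), Om μ s g ε w c η (t : ℤ) k < Real.exp (-(C + Real.log n)) := by
    intro k hk
    rw [Finset.mem_range] at hk
    by_contra h4
    exact hcon ⟨t, k, by omega, (not_lt.1 h4).trans (Om_le η _ k)⟩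
  have h4 : ∑ k ∈ Finset.range (n - t), Om μ s g ε w c η (t : ℤ) k < Real.exp (-C) := by
    have e1 : Real.exp (-(C + Real.log n)) = Real.exp (-C) / n := by
      rw [neg_add, Real.exp_add, Real.exp_neg (Real.log n), Real.exp_log hn', div_eq_mul_inv]
    rcases Nat.eq_zero_or_pos (n - t) with h5 | h5
    · rw [h5, Finset.sum_range_zero]
      exact Real.exp_pos _
    · have h6 : ∑ k ∈ Finset.range (n - t), Om μ s g ε w c η (t : ℤ) k <
          ∑ _k ∈ Finset.range (n - t), Real.exp (-(C + Real.log n)) :=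
        Finset.sum_lt_sum_of_nonempty ⟨0, Finset.mem_range.2 h5⟩ h3
      rw [Finset.sum_const, Finset.card_range, nsmul_eq_mul, e1] at h6
      refine h6.trans_le ?_
      have h7 : ((n - t : ℕ) : ℝ) ≤ n := by exact_mod_cast Nat.sub_le n t
      calc ((n - t : ℕ) : ℝ) * (Real.exp (-C) / n) ≤ n * (Real.exp (-C) / n) :=
            mul_le_mul_of_nonneg_right h7 (div_nonneg (Real.exp_pos _).le hn'.le)
        _ = Real.exp (-C) := by
            field_simp
  exact absurd hη (not_le.2 h4)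

/-- The vertical direction: the displacement is `(4 n, 2 n + ε w)`. -/
theorem disp_half (n : ℕ) : (3 * (n : ℤ)) / 2 - (-(n : ℤ)) / 2 = 2 * n := by omega

end

end Pool.Agent.W_7d29a1_h30g
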