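import Pool.Agent.W_7d29a1_h30g.Fr0

/-!
ROW 620, file 1: the product over the successive first passages. (helper30)
-/

namespace Pool.Agent.W_7d29a1_h30g

open MeasureTheory ProbabilityTheory Pool.Agent.W_7d29a1_F Pool.Agent.W_7d29a1_h95g

noncomputable section

variable {μ : Measure ℝ} {s : ℝ} {g : ℤ → ℤ} {ε : ℤ} {w n : ℕ} {c : ℤ} {C : ℝ}

private theorem Fr1_exp_V (η : Env) (a : Pt) (m : ℕ) :
    Real.exp (V μ s η a m) = ∑ y ∈ Finset.Icc (0 : ℤ) m, W μ s η a m y := by
  have hpos : 0 < WS μ s η a m (Finset.Icc (0 : ℤ) m) := by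
    unfold WS
    refine Finset.sum_pos (fun y hy => ?_) ⟨0, by simp⟩
    rw [Finset.mem_Icc] at hy
    unfold W WR
    exact mul_pos (Real.exp_pos _) (Zr_pos _ _ hy.1 hy.2)
  unfold V
  rw [Real.exp_log hpos]
  rfl

private theorem Fr1_W_nonneg (η : Env) (a : Pt) (m : ℕ) (y : ℤ) : 0 ≤ W μ s η a m y := WR_nonneg _ _ _ _ _

private theorem Fr1_W_zero (η : Env) (a : Pt) {m : ℕ} {y : ℤ} (h : ¬ (0 ≤ y ∧ y ≤ m)) : W μ s η a m y = 0 := by
  unfold W WR
  rw [Zr_eq_zero _ _ _ h, mul_zero]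

/-- The first passage decomposition of a point to point weight across the line `c + ε w`. -/
theorem W_passage (hg : Stp g) (hε : ε = 1 ∨ ε = -1) (hw : 1 ≤ w) (η : Env) (c t : ℤ) (m : ℕ) (y : ℤ)
    (hy : (w : ℤ) ≤ ε * rl g t m y) :
    W μ s η (t, ln g c t) m y = ∑ j ∈ Finset.range m, Om μ s g ε w c η t j *
      W μ s η (t + (j + 1), ln g (c + ε * w) (t + (j + 1))) (m - (j + 1)) (y - (g (t + (j + 1)) - g t + ε * w)) := by
  have hee : ε * ε = 1 := by rcases hε with rfl | rfl <;> norm_num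
  have ha : ((t, ln g c t) : Pt) ∈ Sd g ε (c + ε * w) := by
    show ε * (ln g c t - ln g (c + ε * w) t) < 0
    have e1 : ε * (ln g c t - ln g (c + ε * w) t) = -(ε * ε * w) := by
      unfold ln
      ring
    rw [e1, hee, one_mul]
    have : (1 : ℤ) ≤ w := by exact_mod_cast hw
    omega
  have hdec := exit_decomp (exitAt_Sd hg hε (c + ε * w)) Set.univ η ha m y
  have hz : Zr (Set.univ ∩ Sd g ε (c + ε * w)) η (t, ln g c t) m y = 0 := by
    by_contra hne
    rcases mem_of_Zr_ne_zero hne with ⟨h1, h2⟩ | h1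
    · subst h1
      subst h2
      unfold rl at hy
      simp at hy
      omega
    · have h2 : ε * (ln g c t + y - ln g (c + ε * w) (t + m)) < 0 := h1.2
      have e1 : ε * (ln g c t + y - ln g (c + ε * w) (t + m)) = ε * rl g t m y - ε * ε * w := by
        unfold ln rl
        ring
      rw [e1, hee, one_mul] at h2
      omega
  unfold W WR
  rw [hdec, hz, zero_add, Finset.mul_sum]
  refine Finset.sum_congr rfl fun j hj => ?_
  rw [Finset.mem_range] at hj
  have e1 : dk (ln g (c + ε * w)) (t, ln g c t) j = g (t + (j + 1)) - g t + ε * w := by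
    simp only [dk, ln]
    ring
  have e2 : bk (ln g (c + ε * w)) (t, ln g c t) j = (t + (j + 1), ln g (c + ε * w) (t + (j + 1))) := rfl
  unfold Om WR
  rw [← e1, e2]
  have e3 : ((m - (j + 1) : ℕ) : ℝ) = (m : ℝ) - (j + 1) := by
    rw [Nat.cast_sub (by omega)]
    push_cast
    ring
  have e4 : Real.exp (s * (y : ℝ) - m * lam μ s) =
      Real.exp (s * ((dk (ln g (c + ε * w)) (t, ln g c t) j : ℤ) : ℝ) - ((j + 1 : ℕ) : ℝ) * lam μ s) *
      Real.exp (s * (((y - dk (ln g (c + ε * w)) (t, ln g c t) j : ℤ)) : ℝ) - ((m - (j + 1) : ℕ) : ℝ) * lam μ s) := by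
    rw [← Real.exp_add, e3]
    congr 1
    push_cast
    ring
  rw [e4]
  have e5 : Fk Set.univ (Sd g ε (c + ε * w)) (ln g (c + ε * w)) η (t, ln g c t) j =
      Zr (Set.univ ∩ (Sd g ε (c + ε * w) ∪ {(t + ((j : ℤ) + 1), ln g (c + ε * w) (t + ((j : ℤ) + 1)))})) η
        (t, ln g c t) (j + 1) (dk (ln g (c + ε * w)) (t, ln g c t) j) := rfl
  rw [e5]
  ring

/-- The total weight of the paths from the line `c` which end on or beyond the line `c + ε k w`. -/
theorem beyond_prod (hg : Stp g) (hε : ε = 1 ∨ ε = -1) (hw : 1 ≤ w) (η : Env) (k : ℕ) (c : ℤ) (t m : ℕ)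
    (h : t + m ≤ n) :
    ∑ y ∈ (Finset.Icc (0 : ℤ) m).filter (fun y => (k : ℤ) * w ≤ ε * rl g t m y), W μ s η ((t : ℤ), ln g c t) m y ≤
    (∏ i ∈ Finset.range k, Us μ s g ε w n (c + i * (ε * w)) η) * Real.exp (Lk μ s g n (c + k * (ε * w)) η) := by
  have hee : ε * ε = 1 := by rcases hε with rfl | rfl <;> norm_num
  induction k generalizing c t m with
  | zero =>
    rw [Finset.range_zero, Finset.prod_empty, one_mul]
    have e1 : c + ((0 : ℕ) : ℤ) * (ε * w) = c := by simp
    rw [e1]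
    refine (Finset.sum_le_sum_of_subset_of_nonneg (Finset.filter_subset _ _)
      fun y _ _ => Fr1_W_nonneg _ _ _ _).trans ?_
    rw [← Fr1_exp_V]
    exact Real.exp_le_exp.2 (le_Lk η h)
  | succ k ih =>
    obtain ⟨B, hB⟩ : ∃ B : ℝ, B = (∏ i ∈ Finset.range k, Us μ s g ε w n (c + ε * w + i * (ε * w)) η) *
      Real.exp (Lk μ s g n (c + ε * w + k * (ε * w)) η) := ⟨_, rfl⟩
    have hB0 : 0 ≤ B := by
      rw [hB]
      exact mul_nonneg (Finset.prod_nonneg fun i _ => Us_nonneg η) (Real.exp_pos _).le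
    have e0 : (∏ i ∈ Finset.range (k + 1), Us μ s g ε w n (c + i * (ε * w)) η) *
        Real.exp (Lk μ s g n (c + ((k + 1 : ℕ) : ℤ) * (ε * w)) η) = Us μ s g ε w n c η * B := by
      rw [Finset.prod_range_succ', hB]
      have e1 : ∀ i : ℕ, c + ((i + 1 : ℕ) : ℤ) * (ε * w) = c + ε * w + i * (ε * w) := fun i => by
        push_cast
        ring
      simp only [e1]
      have e2 : c + ((0 : ℕ) : ℤ) * (ε * w) = c := by simp
      rw [e2]
      ring
    rw [e0]
    have hkw : ∀ y : ℤ, ((k + 1 : ℕ) : ℤ) * w ≤ ε * rl g t m y → (w : ℤ) ≤ ε * rl g t m y := by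
      intro y hy
      have h1 : (0 : ℤ) ≤ (k : ℤ) * w := by positivity
      push_cast at hy
      have h2 : ((k : ℤ) + 1) * w = (k : ℤ) * w + w := by ring
      omega
    have h1 : ∑ y ∈ (Finset.Icc (0 : ℤ) m).filter (fun y => ((k + 1 : ℕ) : ℤ) * w ≤ ε * rl g t m y),
        W μ s η ((t : ℤ), ln g c t) m y =
        ∑ j ∈ Finset.range m, Om μ s g ε w c η t j *
          ∑ y ∈ (Finset.Icc (0 : ℤ) m).filter (fun y => ((k + 1 : ℕ) : ℤ) * w ≤ ε * rl g t m y),
            W μ s η (t + (j + 1), ln g (c + ε * w) (t + (j + 1))) (m - (j + 1))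
              (y - (g (t + (j + 1)) - g t + ε * w)) := by
      rw [Finset.sum_congr rfl fun y hy => W_passage hg hε hw η c t m y (hkw y (Finset.mem_filter.1 hy).2),
        Finset.sum_comm]
      refine Finset.sum_congr rfl fun j _ => ?_
      rw [Finset.mul_sum]
    have h2 : ∀ j ∈ Finset.range m, ∑ y ∈ (Finset.Icc (0 : ℤ) m).filter
        (fun y => ((k + 1 : ℕ) : ℤ) * w ≤ ε * rl g t m y),
            W μ s η (t + (j + 1), ln g (c + ε * w) (t + (j + 1))) (m - (j + 1))
              (y - (g (t + (j + 1)) - g t + ε * w)) ≤ B := by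
      intro j hj
      rw [Finset.mem_range] at hj
      have hih := ih (c + ε * w) (t + (j + 1)) (m - (j + 1)) (by omega)
      rw [← hB] at hih
      refine le_trans ?_ hih
      have ec : (((t + (j + 1) : ℕ)) : ℤ) = (t : ℤ) + (j + 1) := by push_cast; ring
      rw [ec]
      obtain ⟨D, hD⟩ : ∃ D : ℤ, D = g (t + (j + 1)) - g t + ε * w := ⟨_, rfl⟩
      rw [← hD]
      -- change of variables
      rw [← Finset.sum_filter_ne_zero]
      rw [← Finset.sum_filter_ne_zero (s := (Finset.Icc (0 : ℤ) ((m - (j + 1) : ℕ) : ℤ)).filter _)]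
      refine le_of_eq_of_le (Finset.sum_image (f := fun y' => W μ s η ((t : ℤ) + (j + 1),
        ln g (c + ε * w) (t + (j + 1))) (m - (j + 1)) y') (g := fun y : ℤ => y - D)
        (fun a _ b _ hab => by simpa using hab)).symm ?_
      refine Finset.sum_le_sum_of_subset_of_nonneg ?_ fun y _ _ => Fr1_W_nonneg _ _ _ _
      intro y' hy'
      rw [Finset.mem_image] at hy'
      obtain ⟨y, hy, rfl⟩ := hy'
      rw [Finset.mem_filter, Finset.mem_filter] at hy ⊢
      obtain ⟨⟨-, hy1⟩, hy2⟩ := hy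
      have hrange : 0 ≤ y - D ∧ y - D ≤ ((m - (j + 1) : ℕ) : ℤ) := by
        by_contra hcon
        exact hy2 (Fr1_W_zero _ _ hcon)
      refine ⟨⟨Finset.mem_Icc.2 hrange, ?_⟩, hy2⟩
      have e3 : ε * rl g (t + (j + 1)) (m - (j + 1)) (y - D) = ε * rl g t m y - w := by
        have e4 : ((t : ℤ) + (j + 1)) + ((m - (j + 1) : ℕ) : ℤ) = t + m := by
          rw [Nat.cast_sub (by omega)]
          push_cast
          ring
        unfold rl
        rw [e4, hD]
        have e5 : ε * (y - (g (↑t + (↑j + 1)) - g ↑t + ε * ↑w) - (g (↑t + ↑m) - g (↑t + (↑j + 1)))) =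
          ε * (y - (g (↑t + ↑m) - g ↑t)) - ε * ε * w := by ring
        rw [e5, hee, one_mul]
      rw [e3]
      push_cast at hy1
      have h3 : ((k : ℤ) + 1) * w = (k : ℤ) * w + w := by ring
      omega
    rw [h1]
    calc ∑ j ∈ Finset.range m, Om μ s g ε w c η t j * _ ≤ ∑ j ∈ Finset.range m, Om μ s g ε w c η t j * B :=
          Finset.sum_le_sum fun j hj => mul_le_mul_of_nonneg_left (h2 j hj) (Om_nonneg _ _ _)
      _ = (∑ j ∈ Finset.range m, Om μ s g ε w c η t j) * B := by rw [Finset.sum_mul]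
      _ ≤ Us μ s g ε w n c η * B := by
          refine mul_le_mul_of_nonneg_right ?_ hB0
          refine le_trans ?_ (sum_Om_le_Us η (show t ≤ n by omega))
          exact Finset.sum_le_sum_of_subset_of_nonneg (Finset.range_mono (by omega))
            fun j _ _ => Om_nonneg _ _ _

theorem beyond_le (hg : Stp g) (hε : ε = 1 ∨ ε = -1) (hw : 1 ≤ w) (η : Env) {k : ℕ} (hk : 1 ≤ k) (c : ℤ) (t m : ℕ)
    (h : t + m ≤ n) (C : ℝ) :
    ∑ y ∈ (Finset.Icc (0 : ℤ) m).filter (fun y => (k : ℤ) * w ≤ ε * rl g t m y), W μ s η ((t : ℤ), ln g c t) m y ≤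
    Real.exp (-(C * k) + ∑ i ∈ Finset.range k, xi μ s g ε w n C (c + i * (ε * w)) η) := by
  refine (beyond_prod hg hε hw η k c t m h).trans ?_
  have h1 : ∀ k : ℕ, 1 ≤ k → (∏ i ∈ Finset.range k, Us μ s g ε w n (c + i * (ε * w)) η) *
      Real.exp (Lk μ s g n (c + k * (ε * w)) η) ≤
      Real.exp (-(C * k) + ∑ i ∈ Finset.range k, xi μ s g ε w n C (c + i * (ε * w)) η) := by
    intro k hk
    have h2 : ∏ i ∈ Finset.range k, Us μ s g ε w n (c + i * (ε * w)) η ≤
        ∏ i ∈ Finset.range k, Real.exp (-C + xi μ s g ε w n C (c + i * (ε * w)) η -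
          Lk μ s g n (c + i * (ε * w) + ε * w) η) :=
      Finset.prod_le_prod (fun i _ => Us_nonneg η) fun i _ => Us_le_xi η
    refine (mul_le_mul_of_nonneg_right h2 (Real.exp_pos _).le).trans ?_
    rw [← Real.exp_sum, ← Real.exp_add]
    refine Real.exp_le_exp.2 ?_
    obtain ⟨l, rfl⟩ : ∃ l, k = l + 1 := ⟨k - 1, by omega⟩
    rw [Finset.sum_range_succ, Finset.sum_range_succ]
    have h3 : ∑ i ∈ Finset.range l, (-C + xi μ s g ε w n C (c + i * (ε * w)) η -
        Lk μ s g n (c + i * (ε * w) + ε * w) η) ≤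
        ∑ i ∈ Finset.range l, (-C + xi μ s g ε w n C (c + i * (ε * w)) η) :=
      Finset.sum_le_sum fun i _ => by
        have := Lk_nonneg (μ := μ) (s := s) (g := g) (n := n) (c := c + i * (ε * w) + ε * w) η
        linarith
    rw [Finset.sum_add_distrib, Finset.sum_const, Finset.card_range, nsmul_eq_mul] at h3
    have e1 : c + ((l + 1 : ℕ) : ℤ) * (ε * w) = c + l * (ε * w) + ε * w := by
      push_cast
      ring
    rw [e1]
    push_cast
    linarith
  exact h1 k hk

end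

end Pool.Agent.W_7d29a1_h30g
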