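import Pool.Agent.W_7d29a1_h30g.Fr0
import Pool.Agent.W_7d29a1_L78.LineB

/-!
ROW 620, file 3: the mean of the line luck, and the box luck (vertical direction). (helper78)
-/

namespace Pool.Agent.W_7d29a1_h30g

open MeasureTheory ProbabilityTheory Pool.Agent.W_7d29a1_F Pool.Agent.W_7d29a1_h95g Pool.Agent.W_7d29a1_h60
open Pool.Agent.W_7d29a1_L78 Pool.Agent.W_7d29a1_L

noncomputable section

variable {μ : Measure ℝ} [IsProbabilityMeasure μ] {s : ℝ} {n : ℕ}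

theorem floor_half (m : ℕ) : ⌊(1 / 2 : ℝ) * (m : ℝ)⌋ = (m : ℤ) / 2 := by
  rw [Int.floor_eq_iff]
  have h1 : 2 * ((m : ℤ) / 2) ≤ (m : ℤ) := by omega
  have h2 : (m : ℤ) < 2 * ((m : ℤ) / 2) + 2 := by omega
  have h3 : (2 : ℝ) * (((m : ℤ) / 2 : ℤ) : ℝ) ≤ (m : ℝ) := by exact_mod_cast h1
  have h4 : (m : ℝ) < 2 * (((m : ℤ) / 2 : ℤ) : ℝ) + 2 := by exact_mod_cast h2
  constructor
  · linarith
  · linarith

/-- PROOF. `box_row` with `w = 0`, `y m = m / 2`, `S = {(t, t / 2 + c) | t ≤ n}`, `p0 = c - n / 2 - 1`, `A = E`: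
`P(Lk ≥ Y) ≤ 4 P(Gr ≥ Y - 4 E)` for `Y > 0`; `row_mean` with `w = 0`: `∫ Gr ≤ 2 E`. Integrate over `Y` (layer cake). -/
theorem line_mean (hEM : Pool.Agent.W_7d29a1_h47.EM μ) (hn : 1 ≤ n) {E : ℝ} (hE : 0 < E) (hU : UB μ s (4 * n) E)
    (c : ℤ) : ∫ η, Lk μ s (fun t => t / 2) n c η ∂(law μ) ≤ 12 * E := by
  have hS : Sub fun η => Lk μ s (fun t => t / 2) n c η := by
    unfold Lk
    exact Sub.sup' _ _ fun q _ => Sub_V _ _
  refine line_luck4 hEM hn hE hU c hS.1 (hS.integrable hEM) fun η _ => ?_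
  obtain ⟨q, hq, hq2⟩ := Finset.exists_mem_eq_sup' (Pr_nonempty n)
    fun q : ℕ × ℕ => V μ s η ((q.1 : ℤ), ln (fun t => t / 2) c q.1) q.2
  exact ⟨q.1, q.2, mem_Pr.1 hq, hq2.le⟩

/-- PROOF. `hitV` with `v = 1 / 2`, time `4 n`. -/
theorem box_hit (hEM : Pool.Agent.W_7d29a1_h47.EM μ) {u : ℕ} (hu : u + 1 ≤ 2 * n) {A' : ℝ} (hA : 0 < A')
    (hU : UB μ s (16 * n) A')
    (hin : ∀ p : ℤ, 0 ≤ p → p ≤ u + 1 → ∫ η, max (X μ s η 0 (4 * n) (2 * n + p)) 0 ∂(law μ) ≤ A') :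
    HitV μ s (1 / 2) u (4 * n) (4 * A') := by
  have hc : ⌈(u : ℝ)⌉₊ = u := Nat.ceil_natCast u
  have hfl : ⌊(1 / 2 : ℝ) * ((4 * n : ℕ) : ℝ)⌋ = 2 * (n : ℤ) := by
    rw [floor_half]
    push_cast
    omega
  refine hitV (μ := μ) (s := s) hEM (v := 1 / 2) (w := u) (n := 4 * n) (by norm_num) (by norm_num) ?_ hA ?_ ?_ ?_
  · rw [hfl, hc]
    push_cast
    omega
  · intro m h1 h2
    rw [floor_half]
    exact hU m _ (by omega) (by omega) (by omega) (by rw [abs_le]; omega)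
  · rw [floor_half]
    exact hU _ _ (by omega) (by omega) (by omega) (by rw [abs_le]; push_cast; omega)
  · intro p hp0 hp1
    rw [hfl]
    rw [hc] at hp1
    exact hin p hp0 hp1

/-- BOX LUCK, SHARP FORM (row 620, (1)): from one far start `(-4 n, b0)`; `A'` bounds the mean positive costs to the starts of
the box. Small as soon as `Y ≥ C A'` with `A' / E` large: the numerator has `E`, not `A'`. -/
theorem box_far (hEM : Pool.Agent.W_7d29a1_h47.EM μ) {E : ℝ} (hE : 0 < E) (hU : UB μ s (8 * n) E)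
    (S : Finset (ℕ × ℤ)) (b0 : ℤ) {A' : ℝ} (hA : 0 < A')
    (hS : ∀ q ∈ S, q.1 ≤ n ∧ 0 ≤ q.2 - b0 ∧ q.2 - b0 ≤ ((4 * n + q.1 : ℕ) : ℤ))
    (hXS : ∀ q ∈ S, ∫ η, max (X μ s η 0 (4 * n + q.1) (q.2 - b0)) 0 ∂(law μ) ≤ A') {Y : ℝ} (hY : 2 * E + 2 * A' < Y) :
    (law μ).real {η | ∃ q ∈ S, ∃ j, q.1 + j ≤ n ∧ Y ≤ V μ s η ((q.1 : ℤ), q.2) j} ≤ 4 * E / (Y - 2 * E - 2 * A') :=
  box_luck hEM hE (fun m y hm => hU m y hm) (by omega) S b0 hA hS hXS hY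

end

end Pool.Agent.W_7d29a1_h30g
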