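import Pool.Agent.W_7d29a1_h30g.Fr0

/-!
ROW 620, file 5: the starts between two lines. (helper89)
-/

namespace Pool.Agent.W_7d29a1_h30g

open MeasureTheory ProbabilityTheory Pool.Agent.W_7d29a1_F Pool.Agent.W_7d29a1_h95g

noncomputable section

variable {μ : Measure ℝ} {s : ℝ} {g : ℤ → ℤ} {ε : ℤ} {w n : ℕ} {c : ℤ}

private theorem WR_def5 (R : Set Pt) (η : Env) (a : Pt) (n : ℕ) (y : ℤ) :
    WR μ s R η a n y = Real.exp (s * y - n * lam μ s) * Zr R η a n y := rfl

/-- First exits, normalised, from the start `(t, x)`. -/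
theorem W_exit_at {L : Set Pt} {l : ℤ → ℤ} (hL : ExitAt L l) (R : Set Pt) (η : Env) {t x : ℤ} (ha : ((t, x) : Pt) ∈ L)
    (m : ℕ) (y : ℤ) :
    WR μ s R η (t, x) m y ≤ WR μ s (R ∩ L) η (t, x) m y + ∑ k ∈ Finset.range m,
      W μ s η (t, x) (k + 1) (l (t + (k + 1)) - x) *
        W μ s η (t + (k + 1), l (t + (k + 1))) (m - (k + 1)) (y - (l (t + (k + 1)) - x)) := by
  rw [WR_def5, WR_def5, exit_decomp hL R η ha m y, mul_add, Finset.mul_sum]
  refine add_le_add le_rfl (Finset.sum_le_sum fun k hk => ?_)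
  rw [Finset.mem_range] at hk
  have h1 : Fk R L l η (t, x) k ≤ Zr Set.univ η (t, x) (k + 1) (l (t + (k + 1)) - x) :=
    Zr_mono (Set.subset_univ _) η (t, x) (k + 1) _
  have h2 : Zr R η (bk l (t, x) k) (m - (k + 1)) (y - dk l (t, x) k) ≤
      Zr Set.univ η (t + (k + 1), l (t + (k + 1))) (m - (k + 1)) (y - (l (t + (k + 1)) - x)) :=
    Zr_mono (Set.subset_univ _) η _ _ _
  have h3 := mul_le_mul h1 h2 (Zr_nonneg _ _ _ _ _) (Zr_nonneg _ _ _ _ _)
  have h4 := mul_le_mul_of_nonneg_left h3 (Real.exp_pos (s * y - m * lam μ s)).le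
  refine h4.trans (le_of_eq ?_)
  unfold W
  rw [WR_def5, WR_def5]
  obtain ⟨d, hd⟩ : ∃ d : ℤ, d = l (t + (k + 1)) - x := ⟨_, rfl⟩
  rw [← hd]
  have e1 : Real.exp (s * (y : ℝ) - m * lam μ s) =
      Real.exp (s * (d : ℝ) - ((k + 1 : ℕ) : ℝ) * lam μ s) *
        Real.exp (s * ((y - d : ℤ) : ℝ) - ((m - (k + 1) : ℕ) : ℝ) * lam μ s) := by
    rw [← Real.exp_add]
    congr 1
    rw [Nat.cast_sub (by omega)]
    push_cast
    ring
  rw [e1]
  ring

/-- The first visit of one of two lines. PROOF. `exit_decomp` for the exits from `Sd g 1 (c + w)` (`R = univ`), and for the part which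
stays there `exit_decomp` for the exits from `Sd g (-1) c` (`R = Sd g 1 (c + w)`), `Zr_mono`. The first term is the weight of the
paths which stay strictly between the lines. -/
theorem visit_le (hg : Stp g) (η : Env) (t x : ℤ) (h0 : ln g c t < x) (h1 : x < ln g (c + w) t) (m : ℕ) (y : ℤ) :
    W μ s η (t, x) m y ≤ WR μ s (Sd g 1 (c + w) ∩ Sd g (-1) c) η (t, x) m y +
      ∑ k ∈ Finset.range m, W μ s η (t, x) (k + 1) (ln g c (t + (k + 1)) - x) *
        W μ s η (t + (k + 1), ln g c (t + (k + 1))) (m - (k + 1)) (y - (ln g c (t + (k + 1)) - x)) +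
      ∑ k ∈ Finset.range m, W μ s η (t, x) (k + 1) (ln g (c + w) (t + (k + 1)) - x) *
        W μ s η (t + (k + 1), ln g (c + w) (t + (k + 1))) (m - (k + 1))
          (y - (ln g (c + w) (t + (k + 1)) - x)) := by
  have ha : ((t, x) : Pt) ∈ Sd g 1 (c + w) := by
    show 1 * (x - ln g (c + w) t) < 0
    omega
  have hb : ((t, x) : Pt) ∈ Sd g (-1) c := by
    show -1 * (x - ln g c t) < 0
    omega
  have h2 := W_exit_at (μ := μ) (s := s) (exitAt_Sd hg (Or.inl rfl) (c + w)) Set.univ η ha m y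
  have h3 := W_exit_at (μ := μ) (s := s) (exitAt_Sd hg (Or.inr rfl) c) (Sd g 1 (c + w)) η hb m y
  rw [Set.univ_inter] at h2
  have h4 : W μ s η (t, x) m y = WR μ s Set.univ η (t, x) m y := rfl
  rw [h4]
  linarith

/-- A shifted sum of a function which vanishes outside of `[0, n]`. -/
private theorem sum5' {f : ℤ → ℝ} {m n : ℕ} {d : ℤ} (hf : ∀ y : ℤ, ¬ (0 ≤ y ∧ y ≤ n) → f y = 0) (hd : 0 ≤ d)
    (hdn : d + n ≤ m) : ∑ y ∈ Finset.Icc (0 : ℤ) m, f (y - d) = ∑ y ∈ Finset.Icc (0 : ℤ) n, f y := by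
  have h1 : ∑ y ∈ (Finset.Icc (0 : ℤ) n).image (fun y => y + d), f (y - d) = ∑ y ∈ Finset.Icc (0 : ℤ) n, f y := by
    rw [Finset.sum_image fun x _ y _ hxy => by simpa using hxy]
    refine Finset.sum_congr rfl fun y _ => ?_
    rw [add_sub_cancel_right]
  rw [← h1]
  symm
  refine Finset.sum_subset (fun y hy => ?_) fun y _ hy => hf _ fun hy' => hy ?_
  · rw [Finset.mem_image] at hy
    obtain ⟨x, hx, rfl⟩ := hy
    rw [Finset.mem_Icc] at hx ⊢
    omega
  · rw [Finset.mem_image]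
    refine ⟨y - d, Finset.mem_Icc.2 hy', by ring⟩

/-- The sum of the weights is `exp V`. -/
private theorem sumW5 (η : Env) (a : Pt) (m : ℕ) :
    ∑ y ∈ Finset.Icc (0 : ℤ) m, W μ s η a m y = Real.exp (V μ s η a m) := by
  have hpos : 0 < WS μ s η a m (Finset.Icc (0 : ℤ) m) := by
    unfold WS
    refine Finset.sum_pos (fun y hy => ?_) ⟨0, by simp⟩
    rw [Finset.mem_Icc] at hy
    unfold W WR
    exact mul_pos (Real.exp_pos _) (Zr_pos _ _ hy.1 hy.2)
  unfold V
  rw [Real.exp_log hpos]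
  rfl

/-- PROOF. `visit_le`; for the first term `|rl| ≤ w` unless it vanishes; for the others `ε rl ≤ ε rl' + w`, `rl'` the relative
displacement of the second piece; `W ≤ exp V ≤ exp M` (`W_le_exp_V'`). If the start is on one of the lines use `hR` directly. -/
theorem Wh_box (hg : Stp g) (hε : ε = 1 ∨ ε = -1) (hw : 1 ≤ w) (η : Env) {h M R : ℝ} (hh : 0 ≤ h) (hM : 0 ≤ M)
    (hR0 : 0 ≤ R) {t : ℕ} {x : ℤ} (h0 : ln g c t ≤ x) (h1 : x ≤ ln g (c + w) t) {m : ℕ} (htm : t + m ≤ n)
    (hV : ∀ m' : ℕ, t + m' ≤ n → V μ s η ((t : ℤ), x) m' ≤ M)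
    (hR : ∀ t' m' : ℕ, t' + m' ≤ n → Wh μ s g ε h η t' (ln g c t') m' ≤ Real.exp R ∧
      Wh μ s g ε h η t' (ln g (c + w) t') m' ≤ Real.exp R) :
    Wh μ s g ε h η t x m ≤ (1 + 2 * n) * Real.exp (M + R + h * w) := by
  have hn0 : (0 : ℝ) ≤ n := Nat.cast_nonneg _
  have hhw : 0 ≤ h * w := mul_nonneg hh (Nat.cast_nonneg _)
  have hRle : Real.exp R ≤ (1 + 2 * n) * Real.exp (M + R + h * w) := by
    have e1 : Real.exp R ≤ Real.exp (M + R + h * w) := Real.exp_le_exp.2 (by linarith)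
    have e2 : 0 < Real.exp (M + R + h * w) := Real.exp_pos _
    nlinarith
  rcases h0.eq_or_lt with h0' | h0'
  · rw [← h0']
    exact ((hR t m htm).1).trans hRle
  rcases h1.eq_or_lt with h1' | h1'
  · rw [h1']
    exact ((hR t m htm).2).trans hRle
  obtain ⟨u, hu⟩ : ∃ u : ℤ → ℝ, u = fun y => Real.exp (h * max 0 ((ε * rl g t m y : ℤ) : ℝ)) := ⟨_, rfl⟩
  have hu0 : ∀ y, 0 ≤ u y := fun y => by
    rw [hu]
    exact (Real.exp_pos _).le
  have hVM : ∀ m' : ℕ, t + m' ≤ n → ∀ y, W μ s η ((t : ℤ), x) m' y ≤ Real.exp M := fun m' hm' y =>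
    (W_le_exp_V' η _ _ _).trans (Real.exp_le_exp.2 (hV m' hm'))
  -- the part in the strip
  have part0 : ∑ y ∈ Finset.Icc (0 : ℤ) m, WR μ s (Sd g 1 (c + w) ∩ Sd g (-1) c) η ((t : ℤ), x) m y * u y ≤
      Real.exp (M + h * w) := by
    have h2 : ∀ y ∈ Finset.Icc (0 : ℤ) m, WR μ s (Sd g 1 (c + w) ∩ Sd g (-1) c) η ((t : ℤ), x) m y * u y ≤
        W μ s η ((t : ℤ), x) m y * Real.exp (h * w) := by
      intro y _
      by_cases hz : Zr (Sd g 1 (c + w) ∩ Sd g (-1) c) η ((t : ℤ), x) m y = 0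
      · rw [WR_def5, hz, mul_zero, zero_mul]
        exact mul_nonneg (WR_nonneg _ _ _ _ _) (Real.exp_pos _).le
      · have h3 : WR μ s (Sd g 1 (c + w) ∩ Sd g (-1) c) η ((t : ℤ), x) m y ≤ W μ s η ((t : ℤ), x) m y :=
          mul_le_mul_of_nonneg_left (Zr_mono (Set.subset_univ _) _ _ _ _) (Real.exp_pos _).le
        have h4 : g (t + m) + c ≤ x + y ∧ x + y ≤ g (t + m) + (c + w) := by
          unfold ln at h0 h1
          rcases mem_of_Zr_ne_zero hz with ⟨h5, h6⟩ | ⟨h5, h6⟩
          · rw [h5, h6]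
            simp only [Nat.cast_zero, add_zero]
            exact ⟨h0, h1⟩
          · have h5 : 1 * (x + y - (g ((t : ℤ) + m) + (c + w))) < 0 := h5
            have h6 : -1 * (x + y - (g ((t : ℤ) + m) + c)) < 0 := h6
            omega
        have h5 : u y ≤ Real.exp (h * w) := by
          rw [hu]
          refine Real.exp_le_exp.2 (mul_le_mul_of_nonneg_left (max_le (Nat.cast_nonneg _) ?_) hh)
          have h6 : ε * rl g t m y ≤ (w : ℤ) := by
            unfold ln at h0 h1
            unfold rl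
            rcases hε with rfl | rfl <;> omega
          exact_mod_cast h6
        exact mul_le_mul h3 h5 (hu0 y) (WR_nonneg _ _ _ _ _)
    refine (Finset.sum_le_sum h2).trans ?_
    rw [← Finset.sum_mul, Real.exp_add, sumW5]
    exact mul_le_mul_of_nonneg_right (Real.exp_le_exp.2 (hV m htm)) (Real.exp_pos _).le
  -- the parts which visit a line
  have part1 : ∀ d : ℤ, c ≤ d → d ≤ c + w →
      (∀ t' m' : ℕ, t' + m' ≤ n → Wh μ s g ε h η t' (ln g d t') m' ≤ Real.exp R) →
      ∑ y ∈ Finset.Icc (0 : ℤ) m, (∑ k ∈ Finset.range m, W μ s η ((t : ℤ), x) (k + 1) (ln g d (t + (k + 1)) - x) *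
        W μ s η (t + (k + 1), ln g d (t + (k + 1))) (m - (k + 1)) (y - (ln g d (t + (k + 1)) - x))) * u y ≤
        m * Real.exp (M + R + h * w) := by
    intro d hd1 hd2 hB
    have h2 : ∑ y ∈ Finset.Icc (0 : ℤ) m, (∑ k ∈ Finset.range m,
          W μ s η ((t : ℤ), x) (k + 1) (ln g d (t + (k + 1)) - x) *
          W μ s η (t + (k + 1), ln g d (t + (k + 1))) (m - (k + 1)) (y - (ln g d (t + (k + 1)) - x))) * u y =
        ∑ k ∈ Finset.range m, ∑ y ∈ Finset.Icc (0 : ℤ) m, W μ s η ((t : ℤ), x) (k + 1) (ln g d (t + (k + 1)) - x) *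
          W μ s η (t + (k + 1), ln g d (t + (k + 1))) (m - (k + 1)) (y - (ln g d (t + (k + 1)) - x)) * u y := by
      rw [Finset.sum_comm]
      refine Finset.sum_congr rfl fun y _ => ?_
      rw [Finset.sum_mul]
    rw [h2]
    have h3 : ∀ k ∈ Finset.range m, ∑ y ∈ Finset.Icc (0 : ℤ) m,
          W μ s η ((t : ℤ), x) (k + 1) (ln g d (t + (k + 1)) - x) *
          W μ s η (t + (k + 1), ln g d (t + (k + 1))) (m - (k + 1)) (y - (ln g d (t + (k + 1)) - x)) * u y ≤
        Real.exp (M + R + h * w) := by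
      intro k hk
      rw [Finset.mem_range] at hk
      obtain ⟨e, he⟩ : ∃ e : ℤ, e = ln g d (t + (k + 1)) - x := ⟨_, rfl⟩
      rw [← he]
      have hlin : ln g d ((t : ℤ) + (k + 1)) = x + e := by omega
      by_cases he1 : 0 ≤ e ∧ e ≤ ((k + 1 : ℕ) : ℤ)
      · have h4 : ∀ y ∈ Finset.Icc (0 : ℤ) m, W μ s η ((t : ℤ), x) (k + 1) e *
              W μ s η (t + (k + 1), ln g d (t + (k + 1))) (m - (k + 1)) (y - e) * u y ≤
            (W μ s η ((t : ℤ), x) (k + 1) e * Real.exp (h * w)) *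
              (fun y : ℤ => W μ s η (t + (k + 1), ln g d (t + (k + 1))) (m - (k + 1)) y *
                Real.exp (h * max 0 ((ε * rl g ((t + (k + 1) : ℕ)) (m - (k + 1)) y : ℤ) : ℝ))) (y - e) := by
          intro y _
          have h5 : u y ≤ Real.exp (h * w) *
              Real.exp (h * max 0 ((ε * rl g ((t + (k + 1) : ℕ)) (m - (k + 1)) (y - e) : ℤ) : ℝ)) := by
            rw [hu, ← Real.exp_add, ← mul_add]
            refine Real.exp_le_exp.2 (mul_le_mul_of_nonneg_left ?_ hh)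
            have hw' : (0 : ℝ) ≤ w := Nat.cast_nonneg _
            refine max_le (add_nonneg hw' (le_max_left _ _)) ?_
            have h6 : ε * rl g t m y ≤ (w : ℤ) + ε * rl g ((t + (k + 1) : ℕ)) (m - (k + 1)) (y - e) := by
              unfold ln at h0 h1 he
              unfold rl
              have e1 : (((t + (k + 1) : ℕ)) : ℤ) + ((m - (k + 1) : ℕ) : ℤ) = t + m := by
                push_cast [Nat.cast_sub (show k + 1 ≤ m by omega)]
                ring
              have e2 : (((t + (k + 1) : ℕ)) : ℤ) = (t : ℤ) + (k + 1) := by push_cast; ring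
              rw [e1, e2]
              rcases hε with rfl | rfl <;> omega
            have h7 : ((ε * rl g t m y : ℤ) : ℝ) ≤
                (w : ℝ) + ((ε * rl g ((t + (k + 1) : ℕ)) (m - (k + 1)) (y - e) : ℤ) : ℝ) := by exact_mod_cast h6
            exact h7.trans (add_le_add le_rfl (le_max_right _ _))
          have h6 : 0 ≤ W μ s η ((t : ℤ), x) (k + 1) e *
              W μ s η (t + (k + 1), ln g d (t + (k + 1))) (m - (k + 1)) (y - e) :=
            mul_nonneg (WR_nonneg _ _ _ _ _) (WR_nonneg _ _ _ _ _)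
          refine (mul_le_mul_of_nonneg_left h5 h6).trans (le_of_eq ?_)
          ring
        refine (Finset.sum_le_sum h4).trans ?_
        rw [← Finset.mul_sum]
        have h5 := sum5' (f := fun y : ℤ => W μ s η (t + (k + 1), ln g d (t + (k + 1))) (m - (k + 1)) y *
                Real.exp (h * max 0 ((ε * rl g ((t + (k + 1) : ℕ)) (m - (k + 1)) y : ℤ) : ℝ)))
          (m := m) (n := m - (k + 1)) (d := e)
          (fun y hy => by
            have h6 : W μ s η (t + (k + 1), ln g d (t + (k + 1))) (m - (k + 1)) y = 0 := by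
              unfold W WR
              rw [Zr_eq_zero _ _ _ hy, mul_zero]
            show W μ s η (t + (k + 1), ln g d (t + (k + 1))) (m - (k + 1)) y * _ = 0
            rw [h6, zero_mul]) he1.1 (by
            have := he1.2
            push_cast [Nat.cast_sub (show k + 1 ≤ m by omega)] at this ⊢
            omega)
        rw [h5]
        have h6 := hB (t + (k + 1)) (m - (k + 1)) (by omega)
        have h7 : ∑ y ∈ Finset.Icc (0 : ℤ) ((m - (k + 1) : ℕ) : ℤ),
            W μ s η (t + (k + 1), ln g d (t + (k + 1))) (m - (k + 1)) y *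
                Real.exp (h * max 0 ((ε * rl g ((t + (k + 1) : ℕ)) (m - (k + 1)) y : ℤ) : ℝ)) ≤ Real.exp R := by
          refine le_trans (le_of_eq ?_) h6
          unfold Wh
          have e1 : (((t + (k + 1) : ℕ)) : ℤ) = (t : ℤ) + (k + 1) := by push_cast; ring
          rw [e1]
        have h8 : W μ s η ((t : ℤ), x) (k + 1) e * Real.exp (h * w) ≤ Real.exp M * Real.exp (h * w) :=
          mul_le_mul_of_nonneg_right (hVM (k + 1) (by omega) e) (Real.exp_pos _).le
        have h9 : Real.exp (M + R + h * w) = Real.exp M * Real.exp (h * w) * Real.exp R := by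
          rw [← Real.exp_add, ← Real.exp_add]
          congr 1
          ring
        rw [h9]
        refine mul_le_mul h8 h7 (Finset.sum_nonneg fun y _ => mul_nonneg (WR_nonneg _ _ _ _ _) (Real.exp_pos _).le) ?_
        exact mul_nonneg (Real.exp_pos _).le (Real.exp_pos _).le
      · have h4 : W μ s η ((t : ℤ), x) (k + 1) e = 0 := by
          unfold W WR
          rw [Zr_eq_zero _ _ _ he1, mul_zero]
        rw [h4]
        simp only [zero_mul, Finset.sum_const_zero]
        exact (Real.exp_pos _).le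
    refine (Finset.sum_le_sum h3).trans ?_
    rw [Finset.sum_const, Finset.card_range, nsmul_eq_mul]
  -- the sum
  have h2 : ∀ y ∈ Finset.Icc (0 : ℤ) m, W μ s η ((t : ℤ), x) m y * Real.exp (h * max 0 ((ε * rl g t m y : ℤ) : ℝ)) ≤
      WR μ s (Sd g 1 (c + w) ∩ Sd g (-1) c) η ((t : ℤ), x) m y * u y +
      (∑ k ∈ Finset.range m, W μ s η ((t : ℤ), x) (k + 1) (ln g c (t + (k + 1)) - x) *
        W μ s η (t + (k + 1), ln g c (t + (k + 1))) (m - (k + 1)) (y - (ln g c (t + (k + 1)) - x))) * u y +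
      (∑ k ∈ Finset.range m, W μ s η ((t : ℤ), x) (k + 1) (ln g (c + w) (t + (k + 1)) - x) *
        W μ s η (t + (k + 1), ln g (c + w) (t + (k + 1))) (m - (k + 1))
          (y - (ln g (c + w) (t + (k + 1)) - x))) * u y := by
    intro y _
    have h3 := visit_le (μ := μ) (s := s) hg η (t : ℤ) x h0' h1' m y
    have h4 := mul_le_mul_of_nonneg_right h3 (hu0 y)
    rw [add_mul, add_mul] at h4
    have e1 : Real.exp (h * max 0 ((ε * rl g t m y : ℤ) : ℝ)) = u y := by rw [hu]
    rw [e1]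
    exact h4
  have h3 : Wh μ s g ε h η t x m ≤ Real.exp (M + h * w) + m * Real.exp (M + R + h * w) + m * Real.exp (M + R + h * w) := by
    unfold Wh
    refine (Finset.sum_le_sum h2).trans ?_
    rw [Finset.sum_add_distrib, Finset.sum_add_distrib]
    have h4 := part1 c le_rfl (by omega) fun t' m' ht' => (hR t' m' ht').1
    have h5 := part1 (c + w) (by omega) le_rfl fun t' m' ht' => (hR t' m' ht').2
    linarith
  have h4 : Real.exp (M + h * w) ≤ Real.exp (M + R + h * w) := Real.exp_le_exp.2 (by linarith)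
  have h5 : (m : ℝ) ≤ n := by exact_mod_cast (show m ≤ n by omega)
  have h6 : (m : ℝ) * Real.exp (M + R + h * w) ≤ n * Real.exp (M + R + h * w) :=
    mul_le_mul_of_nonneg_right h5 (Real.exp_pos _).le
  linarith

end

end Pool.Agent.W_7d29a1_h30g
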