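import Pool.Agent.W_7d29a1_h30g.Fr2
import Pool.Agent.W_7d29a1_h30g.Fr3
import Pool.Agent.W_7d29a1_h30g.Fr4
import Pool.Agent.W_7d29a1_h30g.StripT
import Pool.Agent.W_7d29a1_L.LsA1

/-!
ROW 620, file 6: the probability of a hit (vertical direction, tilt `0`).
-/

namespace Pool.Agent.W_7d29a1_h30g

open MeasureTheory ProbabilityTheory Pool.Agent.W_7d29a1_F Pool.Agent.W_7d29a1_h95g Pool.Agent.W_7d29a1_h60
open Pool.Agent.W_7d29a1_L

noncomputable section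

/-- The hypotheses of row 620 at the scale `n`: `w` = distance of the lines, `E` = unit, `A` = level of the means. -/
structure FrH (μ : Measure ℝ) (w n : ℕ) (E A Cl p : ℝ) : Prop where
  n1 : 1 ≤ n
  w3 : 3 ≤ w
  wn : w ≤ n
  E1 : 1 ≤ E
  Cl0 : 0 ≤ Cl
  A1 : 48 ≤ A
  A2 : 12 * Cl ≤ A
  U : UB μ 0 (8 * n) E
  ins : ∀ x : ℤ, |x| < w → e μ 0 (4 * n) (2 * n + x) ≤ A * E
  lg : Real.log (1 + 2 * n) ≤ Cl * E
  hard : ∀ ε : ℤ, (ε = 1 ∨ ε = -1) →
    (law μ).real {η | Real.exp (-(A * E / 3 + Real.log n + 8 * E)) ≤ W μ 0 η 0 (4 * n) (2 * n + ε * w)} ≤ p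
  hw : A * E ≤ 24 * w

/-- The tilt. -/
def th (A E : ℝ) (w : ℕ) : ℝ := A * E / (24 * w)

variable {μ : Measure ℝ} [IsProbabilityMeasure μ] {w n : ℕ} {E A Cl p : ℝ}

/-- A luck with the tilt `± h` of a start in the box is at most the one sided tilted luck plus `h / 2`. PROOF. `y - m / 2` and `rl`
differ by at most `1 / 2` (`g t = t / 2`), `exp_T` of `LsA1` is not needed: prove it from the definitions (`T`, `V`, `kap`) or cite
`exp_T`. -/
theorem T_le_Wh (h : ℝ) (hh : 0 ≤ h) (η : Env) (t x : ℤ) (m : ℕ) :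
    Real.exp (T μ 0 (1 / 2) h η (t, x) m) ≤ Real.exp (h / 2) * Wh μ 0 (fun t => t / 2) 1 h η t x m ∧
    Real.exp (T μ 0 (1 / 2) (-h) η (t, x) m) ≤ Real.exp (h / 2) * Wh μ 0 (fun t => t / 2) (-1) h η t x m := by
  have hr : ∀ y : ℤ, |((rl (fun t => t / 2) t m y : ℤ) : ℝ) - ((y : ℝ) - m / 2)| ≤ 1 / 2 := by
    intro y
    have h1 : -1 ≤ 2 * rl (fun t => t / 2) t m y - (2 * y - m) ∧ 2 * rl (fun t => t / 2) t m y - (2 * y - m) ≤ 1 := by
      unfold rl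
      show -1 ≤ 2 * (y - ((t + m) / 2 - t / 2)) - (2 * y - m) ∧ 2 * (y - ((t + m) / 2 - t / 2)) - (2 * y - m) ≤ 1
      omega
    obtain ⟨h2, h3⟩ := h1
    have h2' : (-1 : ℝ) ≤ 2 * ((rl (fun t => t / 2) t m y : ℤ) : ℝ) - (2 * (y : ℝ) - m) := by exact_mod_cast h2
    have h3' : 2 * ((rl (fun t => t / 2) t m y : ℤ) : ℝ) - (2 * (y : ℝ) - m) ≤ 1 := by exact_mod_cast h3
    rw [abs_le]
    constructor <;> linarith
  have hW : ∀ y : ℤ, 0 ≤ W μ 0 η (t, x) m y := fun y => WR_nonneg _ _ _ _ _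
  constructor
  · rw [exp_T, Wh, Finset.mul_sum]
    refine Finset.sum_le_sum fun y _ => ?_
    have h1 : Real.exp (h * ((y : ℝ) - 1 / 2 * m)) ≤
        Real.exp (h / 2) * Real.exp (h * max 0 ((1 * rl (fun t => t / 2) t m y : ℤ) : ℝ)) := by
      rw [← Real.exp_add]
      refine Real.exp_le_exp.2 ?_
      have h2 := (abs_le.1 (hr y)).1
      have h3 := le_max_right 0 ((1 * rl (fun t => t / 2) t m y : ℤ) : ℝ)
      rw [one_mul] at h3 ⊢
      nlinarith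
    calc W μ 0 η (t, x) m y * Real.exp (h * ((y : ℝ) - 1 / 2 * m)) ≤ W μ 0 η (t, x) m y *
        (Real.exp (h / 2) * Real.exp (h * max 0 ((1 * rl (fun t => t / 2) t m y : ℤ) : ℝ))) :=
          mul_le_mul_of_nonneg_left h1 (hW y)
      _ = _ := by ring
  · rw [exp_T, Wh, Finset.mul_sum]
    refine Finset.sum_le_sum fun y _ => ?_
    have h1 : Real.exp (-h * ((y : ℝ) - 1 / 2 * m)) ≤
        Real.exp (h / 2) * Real.exp (h * max 0 ((-1 * rl (fun t => t / 2) t m y : ℤ) : ℝ)) := by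
      rw [← Real.exp_add]
      refine Real.exp_le_exp.2 ?_
      have h2 := (abs_le.1 (hr y)).2
      have h3 := le_max_right 0 ((-1 * rl (fun t => t / 2) t m y : ℤ) : ℝ)
      push_cast at h3 ⊢
      nlinarith
    calc W μ 0 η (t, x) m y * Real.exp (-h * ((y : ℝ) - 1 / 2 * m)) ≤ W μ 0 η (t, x) m y *
        (Real.exp (h / 2) * Real.exp (h * max 0 ((-1 * rl (fun t => t / 2) t m y : ℤ) : ℝ))) :=
          mul_le_mul_of_nonneg_left h1 (hW y)
      _ = _ := by ring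

/-- The starts of the box, relative to the line `⌊z⌋`. -/
theorem bx_pos {w n : ℕ} {z : ℝ} {q : (ℕ × ℤ) × ℕ} (hq : q ∈ Bx (1 / 2) ((w : ℝ) - 2) z n) :
    q.1.1 + q.2 ≤ n ∧ 1 ≤ q.1.2 - (q.1.1 : ℤ) / 2 - ⌊z⌋ ∧ q.1.2 - (q.1.1 : ℤ) / 2 - ⌊z⌋ ≤ (w : ℤ) - 1 := by
  obtain ⟨h1, h2, h3⟩ := (mem_Bx (by norm_num) (by norm_num)).1 hq
  have h4 : 2 * ((q.1.1 : ℤ) / 2) ≤ (q.1.1 : ℤ) := by omega
  have h5 : (q.1.1 : ℤ) ≤ 2 * ((q.1.1 : ℤ) / 2) + 1 := by omega
  have h4' : (2 : ℝ) * (((q.1.1 : ℤ) / 2 : ℤ) : ℝ) ≤ (q.1.1 : ℝ) := by exact_mod_cast h4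
  have h5' : (q.1.1 : ℝ) ≤ 2 * (((q.1.1 : ℤ) / 2 : ℤ) : ℝ) + 1 := by exact_mod_cast h5
  have h6 := Int.floor_le z
  have h7 := Int.lt_floor_add_one z
  refine ⟨h1, ?_, ?_⟩
  · have h8 : (0 : ℝ) < ((q.1.2 - (q.1.1 : ℤ) / 2 - ⌊z⌋ : ℤ) : ℝ) := by
      push_cast
      push_cast at h4'
      linarith
    have h9 : (0 : ℤ) < q.1.2 - (q.1.1 : ℤ) / 2 - ⌊z⌋ := by exact_mod_cast h8
    omega
  · have h8 : ((q.1.2 - (q.1.1 : ℤ) / 2 - ⌊z⌋ : ℤ) : ℝ) < (w : ℝ) := by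
      push_cast
      push_cast at h5'
      linarith
    have h9 : q.1.2 - (q.1.1 : ℤ) / 2 - ⌊z⌋ < (w : ℤ) := by exact_mod_cast h8
    omega

/-- The box luck. PROOF. `box_far` of `Fr3` (or `box_luck` of `LineB`) with `S` = the starts of the box, `T = 4 n`, `b0 = ⌊z⌋ - 2 n`, `A' = (A + 2) E`: a start
`(t, x)`, `x = t / 2 + ⌊z⌋ + r`, `1 ≤ r ≤ w - 1`; `e μ 0 (4 n + t) (2 n + r + t / 2) ≤ A E + E` (subadditivity of the means and `ins`),
`Xp_le`. `4 E / (7 A E - 2 E - 2 (A + 2) E) ≤ 1 / A`. -/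
theorem box_bd (hEM : Pool.Agent.W_7d29a1_h47.EM μ) (H : FrH μ w n E A Cl p) (z : ℝ) :
    (law μ).real {η | ∃ q ∈ Bx (1 / 2) ((w : ℝ) - 2) z n, 7 * (A * E) ≤ V μ 0 η ((q.1.1 : ℤ), q.1.2) q.2} ≤
      1 / A := by
  classical
  have hE1 := H.E1
  have hA1 := H.A1
  have hwn := H.wn
  have hE : 0 < E := by linarith
  have hAE : 48 * E ≤ A * E := mul_le_mul_of_nonneg_right hA1 hE.le
  obtain ⟨b0, hb0⟩ : ∃ b0 : ℤ, b0 = ⌊z⌋ - 2 * n := ⟨_, rfl⟩
  obtain ⟨S, hS⟩ : ∃ S : Finset (ℕ × ℤ), S = (Bx (1 / 2) ((w : ℝ) - 2) z n).image Prod.fst := ⟨_, rfl⟩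
  have hSm : ∀ q ∈ S, q.1 ≤ n ∧ 1 ≤ q.2 - (q.1 : ℤ) / 2 - ⌊z⌋ ∧ q.2 - (q.1 : ℤ) / 2 - ⌊z⌋ ≤ (w : ℤ) - 1 := by
    intro q hq
    rw [hS, Finset.mem_image] at hq
    obtain ⟨κ, hκ, rfl⟩ := hq
    obtain ⟨h1, h2, h3⟩ := bx_pos hκ
    exact ⟨by omega, h2, h3⟩
  have hX : ∀ q ∈ S, ∫ η, max (X μ 0 η 0 (4 * n + q.1) (q.2 - b0)) 0 ∂(law μ) ≤ (A + 2) * E := by
    intro q hq
    obtain ⟨h1, h2, h3⟩ := hSm q hq
    have hXE : Pool.Agent.W_7d29a1_L78.hXE μ 0 n E := fun m y hm => H.U m y hm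
    have h4 := Pool.Agent.W_7d29a1_L78.Xp_le hEM hXE (m := 4 * n + q.1) (by omega) (y := q.2 - b0)
      (by rw [hb0]; omega) (by rw [hb0]; push_cast; omega)
    have h5 := e_add_le (μ := μ) (s := 0) hEM (m := 4 * n) (n := q.1)
      (k := 2 * n + (q.2 - (q.1 : ℤ) / 2 - ⌊z⌋)) (y := (q.1 : ℤ) / 2) (by omega) (by push_cast; omega) (by omega)
      (by omega)
    have e1 : 2 * (n : ℤ) + (q.2 - (q.1 : ℤ) / 2 - ⌊z⌋) + (q.1 : ℤ) / 2 = q.2 - b0 := by
      rw [hb0]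
      ring
    rw [e1] at h5
    have h6 := H.ins (q.2 - (q.1 : ℤ) / 2 - ⌊z⌋) (by rw [abs_lt]; omega)
    have h7 : e μ 0 q.1 ((q.1 : ℤ) / 2) ≤ E := by
      refine le_trans ?_ (H.U q.1 ((q.1 : ℤ) / 2) (by omega) (by omega) (by omega) (by rw [abs_le]; omega))
      have i1 := (Sub_X (μ := μ) (s := 0) 0 (n := q.1) (y := (q.1 : ℤ) / 2) (by omega) (by omega)).integrable hEM
      have i2 := (Pool.Agent.W_7d29a1_L78.Sub_Xp (μ := μ) (s := 0) 0 (n := q.1) (y := (q.1 : ℤ) / 2) (by omega)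
        (by omega)).integrable hEM
      exact integral_mono i1 i2 fun η => le_max_left _ _
    linarith
  have hD : 2 * E + 2 * ((A + 2) * E) < 7 * (A * E) := by nlinarith
  have h1 := box_far hEM (μ := μ) (s := 0) (n := n) hE H.U S b0 (A' := (A + 2) * E) (by positivity)
    (fun q hq => by
      obtain ⟨h1, h2, h3⟩ := hSm q hq
      refine ⟨h1, ?_, ?_⟩
      · rw [hb0]
        omega
      · rw [hb0]
        push_cast
        omega) hX hD
  have h2 : (law μ).real {η | ∃ q ∈ Bx (1 / 2) ((w : ℝ) - 2) z n, 7 * (A * E) ≤ V μ 0 η ((q.1.1 : ℤ), q.1.2) q.2} ≤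
      (law μ).real {η | ∃ q ∈ S, ∃ j, q.1 + j ≤ n ∧ 7 * (A * E) ≤ V μ 0 η ((q.1 : ℤ), q.2) j} := by
    refine measureReal_mono ?_
    rintro η ⟨q, hq, h3⟩
    refine ⟨q.1, ?_, q.2, (bx_pos hq).1, h3⟩
    rw [hS]
    exact Finset.mem_image_of_mem _ hq
  refine (h2.trans h1).trans ?_
  rw [div_le_div_iff₀ (by nlinarith) (by linarith)]
  nlinarith

/-- THE HIT PROBABILITY. PROOF. `C := A E / 3`, `h = C / (8 w) = th A E w`. Off the union of the events `¬ Gd` (lines `⌊z⌋` and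
`⌊z⌋ + w`, both `ε`) and of the event of `box_bd`: `Wh_of_Gd` and `T_le_Wh` for the starts on the lines (`T ≤ C / 2 + h / 2`), then `T_cell`
of `Fr5` (`M0 = 7 A E`, `B = C / 2 + h / 2`): every `T ≤ 7 A E + h (w + 1) + A E / 6 + h / 2 + Cl E < 9 A E`. `Gd_prob` with `L = 12 E` (`line_luck` of `LineA`/`LineB` or `line_mean`), `Us_prob` (`p' = 2 p`, `UB.ug`):
each `≤ 576 / A + 16 p`. -/
theorem hit_le (hEM : Pool.Agent.W_7d29a1_h47.EM μ) (H : FrH μ w n E A Cl p) {n' : ℕ} (hn' : n' ≤ n) (z : ℝ) :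
    (law μ).real {η | ∃ l ∈ Finset.range (n' + 1),
      Ht μ 0 (1 / 2) ((w : ℝ) - 2) (-th A E w) (th A E w) (9 * (A * E)) z n' l η} ≤ 2500 / A + 64 * p := by
  classical
  have hE := H.E1
  have hA := H.A1
  have hw3 : (3 : ℝ) ≤ w := by exact_mod_cast H.w3
  have hAE : 48 ≤ A * E := by nlinarith
  obtain ⟨C, hC⟩ : ∃ C : ℝ, C = A * E / 3 := ⟨_, rfl⟩
  have hC16 : 16 ≤ C := by rw [hC]; linarith
  obtain ⟨h, hh⟩ : ∃ h : ℝ, h = th A E w := ⟨_, rfl⟩
  have hhC : h = C / (8 * w) := by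
    rw [hh, hC]
    unfold th
    field_simp
    ring
  have hh0 : 0 ≤ h := by rw [hhC]; positivity
  have hh1 : h ≤ 1 := by
    rw [hh]
    unfold th
    rw [div_le_one (by linarith)]
    exact H.hw
  have hhw : h * w = A * E / 24 := by
    rw [hh]
    unfold th
    field_simp
  rw [← hh]
  obtain ⟨c, hc⟩ : ∃ c : ℤ, c = ⌊z⌋ := ⟨_, rfl⟩
  obtain ⟨g, hg⟩ : ∃ g : ℤ → ℤ, g = fun t => t / 2 := ⟨_, rfl⟩
  have hstp : Stp g := by rw [hg]; exact stp_half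
  -- the good events imply that there is no hit
  have key : ∀ η : Env, Gd μ 0 g 1 w n C c η → Gd μ 0 g (-1) w n C c η → Gd μ 0 g 1 w n C (c + w) η →
      Gd μ 0 g (-1) w n C (c + w) η →
      (¬ ∃ q ∈ Bx (1 / 2) ((w : ℝ) - 2) z n, 7 * (A * E) ≤ V μ 0 η ((q.1.1 : ℤ), q.1.2) q.2) →
      ¬ ∃ l ∈ Finset.range (n' + 1), Ht μ 0 (1 / 2) ((w : ℝ) - 2) (-h) h (9 * (A * E)) z n' l η := by
    intro η G1 G2 G3 G4 G5
    rintro ⟨l, -, q, hq, -, hq2⟩
    obtain ⟨⟨t, x⟩, m⟩ := q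
    have hq' := (mem_Bx (by norm_num) (by norm_num)).1 hq
    simp only at hq' hq2
    obtain ⟨htm, hz1, hz2⟩ := hq'
    have hx1 : (t : ℤ) / 2 + c ≤ x := by
      have h1 : (c : ℝ) ≤ z := by rw [hc]; exact Int.floor_le z
      have h2 : (c : ℝ) < x - 1 / 2 * t := lt_of_le_of_lt h1 hz1
      have h3 : 2 * c + (t : ℤ) < 2 * x := by
        have h4 : (2 : ℝ) * c + (t : ℝ) < 2 * x := by linarith
        exact_mod_cast h4
      omega
    have hx2 : x ≤ (t : ℤ) / 2 + c + w := by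
      have h1 : z < (c : ℝ) + 1 := by rw [hc]; exact Int.lt_floor_add_one z
      have h3 : 2 * x < 2 * c + 2 * (w : ℤ) + (t : ℤ) := by
        have h4 : (2 : ℝ) * x < 2 * c + 2 * w + (t : ℝ) := by linarith
        exact_mod_cast h4
      omega
    have hV : ∀ k ≤ m, V μ 0 η ((t : ℤ), x) k ≤ 7 * (A * E) := by
      intro k hk
      by_contra hcon
      rw [not_le] at hcon
      refine G5 ⟨((t, x), k), (mem_Bx (by norm_num) (by norm_num)).2 ⟨?_, hz1, hz2⟩, hcon.le⟩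
      show t + k ≤ n
      omega
    have hline : ∀ (σ : ℝ) (d : ℤ), (σ = h ∨ σ = -h) → (d = c ∨ d = c + w) → ∀ k ≤ m,
        T μ 0 (1 / 2) σ η ((t : ℤ) + k, ((t : ℤ) + k) / 2 + d) (m - k) ≤ C / 2 + h / 2 := by
      intro σ d hσ hd k hk
      have hle : (t + k) + (m - k) ≤ n := by omega
      have ec : (((t + k : ℕ)) : ℤ) = (t : ℤ) + k := by push_cast; ring
      have hG : ∀ ε : ℤ, (ε = 1 ∨ ε = -1) → Gd μ 0 g ε w n C d η := by
        intro ε hε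
        rcases hε with rfl | rfl <;> rcases hd with rfl | rfl <;> assumption
      have hWh : ∀ ε : ℤ, (ε = 1 ∨ ε = -1) →
          Wh μ 0 g ε h η ((t : ℤ) + k) (((t : ℤ) + k) / 2 + d) (m - k) ≤ Real.exp (C / 2) := by
        intro ε hε
        have h1 := Wh_of_Gd hstp hε (by have := H.w3; omega) hC16 hhC (hG ε hε) (t + k) (m - k) hle
        rw [ec] at h1
        have e1 : ln g d ((t : ℤ) + k) = ((t : ℤ) + k) / 2 + d := by
          rw [hg]
          rfl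
        rwa [e1] at h1
      have hT := T_le_Wh (μ := μ) h hh0 η ((t : ℤ) + k) (((t : ℤ) + k) / 2 + d) (m - k)
      rw [← hg] at hT
      have hfin : ∀ r : ℝ, Real.exp r ≤ Real.exp (h / 2) * Real.exp (C / 2) → r ≤ C / 2 + h / 2 := by
        intro r hr
        rw [← Real.exp_add, Real.exp_le_exp] at hr
        linarith
      rcases hσ with rfl | rfl
      · exact hfin _ (hT.1.trans (mul_le_mul_of_nonneg_left (hWh 1 (Or.inl rfl)) (Real.exp_pos _).le))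
      · exact hfin _ (hT.2.trans (mul_le_mul_of_nonneg_left (hWh (-1) (Or.inr rfl)) (Real.exp_pos _).le))
    have hbig : ∀ σ : ℝ, (σ = h ∨ σ = -h) → T μ 0 (1 / 2) σ η ((t : ℤ), x) m < 9 * (A * E) := by
      intro σ hσ
      have h1 := T_cell (μ := μ) (s := 0) (c := c) (w := (w : ℤ)) (Nat.cast_nonneg w) (h := σ) (M₀ := 7 * (A * E))
        (B := C / 2 + h / 2) η ((t : ℤ), x) m hx1 hx2 hV (by linarith)
        (fun k hk => hline σ c hσ (Or.inl rfl) k hk)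
        (fun k hk => by
          have h2 := hline σ (c + w) hσ (Or.inr rfl) k hk
          rw [← add_assoc] at h2
          exact h2)
      have h2 : |σ| = h := by
        rcases hσ with rfl | rfl
        · exact abs_of_nonneg hh0
        · rw [abs_neg, abs_of_nonneg hh0]
      rw [h2] at h1
      have h3 : h * (((w : ℤ) : ℝ) + 1) ≤ A * E / 24 + 1 := by
        have e1 : (((w : ℤ)) : ℝ) = w := by norm_num
        rw [e1, mul_add, hhw, mul_one]
        linarith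
      have h4 : Real.log (1 + 2 * (m : ℝ)) ≤ A * E / 12 := by
        have h5 : Real.log (1 + 2 * (m : ℝ)) ≤ Real.log (1 + 2 * (n : ℝ)) := by
          refine Real.log_le_log (by positivity) ?_
          have : (m : ℝ) ≤ n := by
            have : m ≤ n := by omega
            exact_mod_cast this
          linarith
        have h6 : Cl * E ≤ A / 12 * E := mul_le_mul_of_nonneg_right (by linarith [H.A2]) (by linarith)
        have h7 := H.lg
        linarith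
      rw [hC] at h1
      linarith
    rcases hq2 with h1 | h1
    · exact absurd h1 (not_le.2 (hbig (-h) (Or.inr rfl)))
    · exact absurd h1 (not_le.2 (hbig h (Or.inl rfl)))
  -- the probabilities
  have hU4 : UB μ 0 (4 * n) E := fun m y hm => H.U m y (by omega)
  have hUG : UG μ 0 g n E := by rw [hg]; exact hU4.ug
  have hE0 : 0 < E := by linarith
  have hL : ∀ c : ℤ, ∫ η, Lk μ 0 g n c η ∂(law μ) ≤ 12 * E := by
    intro c
    rw [hg]
    exact line_mean hEM H.n1 hE0 hU4 c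
  have hp0 : 0 ≤ p := measureReal_nonneg.trans (H.hard 1 (Or.inl rfl))
  have hUs : ∀ ε : ℤ, (ε = 1 ∨ ε = -1) → ∀ c : ℤ,
      (law μ).real {η | Real.exp (-C) ≤ Us μ 0 g ε w n c η} ≤ 2 * p := by
    intro ε hε c
    refine (Us_prob hEM hstp hε H.n1 hE0 hUG C).trans ?_
    have h1 := H.hard ε hε
    have e1 : g (3 * n) - g (-n) = 2 * n := by
      rw [hg]
      exact disp_half n
    rw [e1, hC]
    linarith
  have hGd : ∀ ε : ℤ, (ε = 1 ∨ ε = -1) → ∀ c : ℤ,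
      (law μ).real {η | ¬ Gd μ 0 g ε w n C c η} ≤ 576 / A + 16 * p := by
    intro ε hε c
    refine (Gd_prob hEM H.n1 (by linarith) hL (hUs ε hε) c).trans ?_
    have hA0 : 0 < A := by linarith
    have hC0 : 0 < C := by linarith
    have e1 : 16 * (12 * E) / C = 576 / A := by
      rw [hC]
      field_simp
      ring
    have h1 : Real.log n ≤ C := by
      have h2 : Real.log n ≤ Real.log (1 + 2 * (n : ℝ)) := by
        have : (1 : ℝ) ≤ n := by exact_mod_cast H.n1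
        exact Real.log_le_log (by linarith) (by linarith)
      have h6 : Cl * E ≤ A / 12 * E := mul_le_mul_of_nonneg_right (by linarith [H.A2]) (by linarith)
      have h7 := H.lg
      rw [hC]
      linarith
    have h2 : 4 * (2 * p) * (C + Real.log n) / C ≤ 16 * p := by
      rw [div_le_iff₀ hC0]
      nlinarith
    rw [e1]
    linarith
  have hbx := box_bd hEM H z
  obtain ⟨B, hB⟩ : ∃ B : Set Env, B = {η | ∃ q ∈ Bx (1 / 2) ((w : ℝ) - 2) z n,
    7 * (A * E) ≤ V μ 0 η ((q.1.1 : ℤ), q.1.2) q.2} := ⟨_, rfl⟩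
  rw [← hB] at hbx
  have hsub : {η | ∃ l ∈ Finset.range (n' + 1), Ht μ 0 (1 / 2) ((w : ℝ) - 2) (-h) h (9 * (A * E)) z n' l η} ⊆
      (({η | ¬ Gd μ 0 g 1 w n C c η} ∪ {η | ¬ Gd μ 0 g (-1) w n C c η}) ∪
        ({η | ¬ Gd μ 0 g 1 w n C (c + w) η} ∪ {η | ¬ Gd μ 0 g (-1) w n C (c + w) η})) ∪ B := by
    intro η hη
    by_contra hcon
    simp only [hB, Set.mem_union, Set.mem_ofPred_eq, not_or, not_not] at hcon
    obtain ⟨⟨⟨h1, h2⟩, ⟨h3, h4⟩⟩, h5⟩ := hcon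
    exact key η h1 h2 h3 h4 h5 hη
  have hA0 : 0 < A := by linarith
  have s1 := hGd 1 (Or.inl rfl) c
  have s2 := hGd (-1) (Or.inr rfl) c
  have s3 := hGd 1 (Or.inl rfl) (c + w)
  have s4 := hGd (-1) (Or.inr rfl) (c + w)
  calc _ ≤ (law μ).real ((({η | ¬ Gd μ 0 g 1 w n C c η} ∪ {η | ¬ Gd μ 0 g (-1) w n C c η}) ∪
        ({η | ¬ Gd μ 0 g 1 w n C (c + w) η} ∪ {η | ¬ Gd μ 0 g (-1) w n C (c + w) η})) ∪ B) :=
        measureReal_mono hsub (measure_ne_top _ _)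
    _ ≤ (((law μ).real {η | ¬ Gd μ 0 g 1 w n C c η} + (law μ).real {η | ¬ Gd μ 0 g (-1) w n C c η}) +
        ((law μ).real {η | ¬ Gd μ 0 g 1 w n C (c + w) η} +
          (law μ).real {η | ¬ Gd μ 0 g (-1) w n C (c + w) η})) + (law μ).real B := by
        refine (measureReal_union_le _ _).trans (add_le_add ?_ le_rfl)
        refine (measureReal_union_le _ _).trans (add_le_add ?_ ?_)
        · exact measureReal_union_le _ _
        · exact measureReal_union_le _ _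
    _ ≤ (((576 / A + 16 * p) + (576 / A + 16 * p)) + ((576 / A + 16 * p) + (576 / A + 16 * p))) + 1 / A := by
        linarith
    _ = 2305 / A + 64 * p := by ring
    _ ≤ 2500 / A + 64 * p := by
        have : 2305 / A ≤ 2500 / A := div_le_div_of_nonneg_right (by norm_num) hA0.le
        linarith

end

end Pool.Agent.W_7d29a1_h30g
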