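import Pool.Agent.W_7d29a1_h30g.Fr8
import Pool.Agent.W_7d29a1_L78.ConeB

/-!
ROW 620, file 9: one cone.
-/

namespace Pool.Agent.W_7d29a1_h30g

open MeasureTheory ProbabilityTheory Filter Topology Pool.Agent.W_7d29a1_F Pool.Agent.W_7d29a1_h95g
open Pool.Agent.W_7d29a1_h60 Pool.Agent.W_7d29a1_L Pool.Agent.W_7d29a1_G

noncomputable section

variable {μ : Measure ℝ} [IsProbabilityMeasure μ]

/-- The free energy of the small tilts from the exponential moments of the lucks. -/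
theorem LL_small (hEM : Pool.Agent.W_7d29a1_h47.EM μ) {n w : ℕ} {h Y C : ℝ} (hn : 1 ≤ n) (hw : 3 ≤ w) (hh : 0 < h)
    (hh1 : h ≤ 1) (hC : 1 ≤ C) (hY : 1 ≤ Y) (hYC : Y ≤ C * (h * w))
    (hM : ∀ h' z : ℝ, |h'| ≤ h / 2 →
      ∫ η, Real.exp (Mh μ 0 (1 / 2) h' ((w : ℝ) - 2) z n η / Y) ∂(law μ) ≤ 4 * Real.exp 1) :
    n * LL μ (h / 4) ≤ Real.log (16 * Real.exp 1 * (5 + 24 * C)) * Y := by
  have hw3 : (3 : ℝ) ≤ w := by exact_mod_cast hw
  have hY0 : 0 < Y := by linarith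
  obtain ⟨κ, hκ⟩ : ∃ κ : ℝ, κ = h / 4 * ((w : ℝ) - 2) := ⟨_, rfl⟩
  have hκ0 : 0 < κ := by
    rw [hκ]
    exact mul_pos (by linarith) (by linarith)
  have N : Nm (1 / 2) ((w : ℝ) - 2) (-(h / 2)) (h / 4) (h / 2) κ := by
    have h2 : 0 ≤ h * ((w : ℝ) - 2) := mul_nonneg hh.le (by linarith)
    refine ⟨by norm_num, by norm_num, by linarith, ?_, ?_, by linarith, by linarith, hκ0.le, ?_, ?_⟩
    · rw [abs_neg, abs_of_pos (by linarith)]
      linarith
    · rw [abs_of_pos (by linarith)]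
      linarith
    · rw [hκ]
      nlinarith
    · rw [hκ]
      nlinarith
  have hH : ∀ h' : ℝ, |h'| ≤ h / 2 → ∀ z : ℝ,
      ∫ η, Real.exp (1 / Y * Mh μ 0 (1 / 2) h' ((w : ℝ) - 2) z n η) ∂(law μ) ≤ 4 * Real.exp 1 := by
    intro h' h1 z
    have h2 := hM h' z h1
    refine le_of_eq_of_le (integral_congr_ae (Filter.Eventually.of_forall fun η => ?_)) h2
    show Real.exp (1 / Y * Mh μ 0 (1 / 2) h' ((w : ℝ) - 2) z n η) = Real.exp (Mh μ 0 (1 / 2) h' ((w : ℝ) - 2) z n η / Y)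
    congr 1
    ring
  have key := Pool.Agent.W_7d29a1_L78.one_cone hEM N hn (θ := 1 / Y) (D := 4 * Real.exp 1) (by positivity)
    (by rw [div_le_one hY0]; exact hY) hκ0
    (hH _ (by rw [abs_neg, abs_of_pos (by linarith)])) (hH _ (by rw [abs_of_pos (by linarith)]))
  have e1 : kap μ 0 (1 / 2) (h / 4) = LL μ (h / 4) := by
    unfold kap LL
    rw [zero_add]
    ring
  rw [e1] at key
  refine key.trans ?_
  rw [div_div_eq_mul_div, div_one]
  refine mul_le_mul_of_nonneg_right ?_ hY0.le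
  have hpos : 0 < 4 * (4 * Real.exp 1) * (5 + 2 / (1 / Y * κ)) := by positivity
  refine Real.log_le_log hpos ?_
  have h3 : 2 / (1 / Y * κ) ≤ 24 * C := by
    have h4 : Y ≤ 12 * C * κ := by
      have h5 : h * w ≤ 12 * κ := by
        rw [hκ]
        nlinarith
      calc Y ≤ C * (h * w) := hYC
        _ ≤ C * (12 * κ) := mul_le_mul_of_nonneg_left h5 (by linarith)
        _ = 12 * C * κ := by ring
    have e2 : 2 / (1 / Y * κ) = 2 * Y / κ := by
      field_simp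
    rw [e2, div_le_iff₀ hκ0]
    linarith
  calc 4 * (4 * Real.exp 1) * (5 + 2 / (1 / Y * κ)) = 16 * Real.exp 1 * (5 + 2 / (1 / Y * κ)) := by ring
    _ ≤ _ := mul_le_mul_of_nonneg_left (by linarith) (by positivity)

/-- ONE CONE: the width of the means is comparable with the width `vA 1` of the rate function. -/
theorem frame_cone (hEM : Pool.Agent.W_7d29a1_h47.EM μ) (hnd : Pool.Agent.W_7d29a1_h47.Nondeg μ)
    (hlog : ∀ K : ℝ, ∃ n0 : ℕ, ∀ n, n0 ≤ n → K * Real.log n ≤ EE μ n) :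
    ∃ (C : ℝ) (n0 : ℕ), 1 ≤ C ∧ ∀ n, n0 ≤ n → ∃ (w : ℕ) (h Y : ℝ), 3 ≤ w ∧ w ≤ n ∧ 0 < h ∧ h ≤ 1 ∧
      EE μ n ≤ h * w ∧ h * w ≤ C * EE μ n ∧ 1 ≤ Y ∧ EE μ n ≤ Y ∧ Y ≤ C * EE μ n ∧
      (∀ x : ℤ, |x| < w → e μ 0 (4 * n) (2 * n + x) ≤ C * EE μ n) ∧
      EE μ n < e μ 0 (4 * n) (2 * n + w) ∧
      (∀ m ≤ n, ∀ h' z : ℝ, |h'| ≤ h / 2 →
        ∫ η, Real.exp (Mh μ 0 (1 / 2) h' ((w : ℝ) - 2) z m η / Y) ∂(law μ) ≤ 4 * Real.exp 1) ∧
      vA μ 1 n * n ≤ C * w ∧ (w : ℝ) ≤ C * (vA μ 1 n * n) := by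
  obtain ⟨C, n0, hC, hfr⟩ := frame hEM hnd hlog
  obtain ⟨C3, hC3⟩ : ∃ C3 : ℝ, C3 = Real.log (16 * Real.exp 1 * (5 + 24 * C)) * C := ⟨_, rfl⟩
  have hlog0 : 0 ≤ Real.log (16 * Real.exp 1 * (5 + 24 * C)) := by
    refine Real.log_nonneg ?_
    have h1 : (1 : ℝ) ≤ Real.exp 1 := Real.one_le_exp (by norm_num)
    nlinarith
  have hC30 : 0 ≤ C3 := by
    rw [hC3]
    exact mul_nonneg hlog0 (by linarith)
  refine ⟨6 * C + 4 * (1 + C3), max n0 1, by linarith, fun n hn => ?_⟩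
  have hn1 : 1 ≤ n := (le_max_right _ _).trans hn
  obtain ⟨w, h, Y, hw3, hwn, hh0, hh1, hEw, hwE, hY1, hEY, hYC, hins, hout, hM⟩ := hfr n ((le_max_left _ _).trans hn)
  have hE1 := one_le_EE (μ := μ) n
  have hn0 : (0 : ℝ) < n := by exact_mod_cast hn1
  have hw3' : (3 : ℝ) ≤ w := by exact_mod_cast hw3
  have hwn' : (w : ℝ) ≤ n := by exact_mod_cast hwn
  have hCC : C ≤ 6 * C + 4 * (1 + C3) := by linarith
  have hEC : C * EE μ n ≤ (6 * C + 4 * (1 + C3)) * EE μ n := mul_le_mul_of_nonneg_right hCC (by linarith)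
  refine ⟨w, h, Y, hw3, hwn, hh0, hh1, hEw, hwE.trans hEC, hY1, hEY, hYC.trans hEC,
    fun x hx => (hins x hx).trans hEC, hout, hM, ?_, ?_⟩
  · -- the upper bound of the width of the rate function
    have hYh : Y ≤ C * (h * w) := hYC.trans (mul_le_mul_of_nonneg_left hEw (by linarith))
    have h1 := LL_small hEM hn1 hw3 hh0 hh1 hC hY1 hYh (fun h' z h2 => hM n le_rfl h' z h2)
    have hv0 := vA_nonneg (μ := μ) hEM (A := 1) zero_le_one n
    have hv1 := vA_le (μ := μ) hEM (A := 1) zero_le_one n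
    have h2 := J_ge hEM (v := vA μ 1 n) (by rw [abs_of_nonneg hv0]; exact hv1) (h / 4)
    have h3 := vA_mem (μ := μ) hEM (A := 1) zero_le_one n
    have h4 := mul_le_mul_of_nonneg_left h2 hn0.le
    have h5 : Real.log (16 * Real.exp 1 * (5 + 24 * C)) * Y ≤ C3 * EE μ n := by
      have h6 := mul_le_mul_of_nonneg_left hYC hlog0
      rw [hC3]
      linarith
    have h6 : h * (vA μ 1 n * n) ≤ h * (4 * (1 + C3) * w) := by
      have h7 : h * (vA μ 1 n * n) ≤ 4 * (1 + C3) * EE μ n := by nlinarith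
      have h8 : 4 * (1 + C3) * EE μ n ≤ 4 * (1 + C3) * (h * w) := mul_le_mul_of_nonneg_left hEw (by linarith)
      calc h * (vA μ 1 n * n) ≤ 4 * (1 + C3) * (h * w) := h7.trans h8
        _ = h * (4 * (1 + C3) * w) := by ring
    have h7 := le_of_mul_le_mul_left h6 hh0
    refine h7.trans (mul_le_mul_of_nonneg_right (by linarith) (by linarith))
  · -- the lower bound
    have h1 := hins ((w : ℤ) - 1) (by
      have : (3 : ℤ) ≤ w := by exact_mod_cast hw3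
      rw [abs_of_nonneg (by omega)]
      omega)
    have hw3z : (3 : ℤ) ≤ w := by exact_mod_cast hw3
    have hwnz : (w : ℤ) ≤ n := by exact_mod_cast hwn
    have h2 := J_le_e hEM (n := 4 * n) (y := 2 * n + ((w : ℤ) - 1)) (by omega) (by omega) (by push_cast; omega)
    have e1 : (((2 * n + ((w : ℤ) - 1) : ℤ) : ℝ) - ((4 * n : ℕ) : ℝ) / 2) / ((4 * n : ℕ) : ℝ) =
        ((w : ℝ) - 1) / (4 * n) := by
      push_cast
      congr 1
      ring
    rw [e1] at h2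
    have h3 : (n : ℝ) * J μ (((w : ℝ) - 1) / (4 * n)) ≤ C * EE μ n := by
      have h4 : ((4 * n : ℕ) : ℝ) * J μ (((w : ℝ) - 1) / (4 * n)) ≤ C * EE μ n := h2.trans h1
      have h5 : 0 ≤ J μ (((w : ℝ) - 1) / (4 * n)) := by
        refine J_nonneg hEM ?_
        rw [abs_of_nonneg (div_nonneg (by linarith) (by linarith)), div_le_div_iff₀ (by linarith) (by norm_num)]
        linarith
      push_cast at h4
      nlinarith
    have h4 : ((w : ℝ) - 1) / (4 * n) ≤ vA μ C n := by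
      refine le_vA (div_nonneg (by linarith) (by linarith)) ?_ h3
      rw [div_le_div_iff₀ (by linarith) (by norm_num)]
      linarith
    have h5 := vA_scale (μ := μ) hEM (A := 1) (B := C) one_pos hC n
    rw [div_one] at h5
    have h6 := h4.trans h5
    rw [div_le_iff₀ (by linarith)] at h6
    have h7 : 0 ≤ vA μ 1 n * n := mul_nonneg (vA_nonneg (μ := μ) hEM zero_le_one n) hn0.le
    have h8 : (w : ℝ) ≤ 6 * C * (vA μ 1 n * n) := by nlinarith
    refine h8.trans (mul_le_mul_of_nonneg_right ?_ h7)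
    linarith

end

end Pool.Agent.W_7d29a1_h30g
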